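import Pool.Agent.T2H50.HC.ILx
import Pool.Agent.W335.DU.HN

/-!
# The HNN extension and the fibre product

MP_3ca9d5_al (S01246)
-/

set_option autoImplicit false

namespace Pool.Agent.T2H50.HC

open Pool.Agent.W326.DU Pool.Agent.Y66.HC Pool.Agent.Y448.HC Pool.Agent.W490.DU

section
variable {κ Q : Type} [Group Q] (π : FreeGroup κ →* Q)

/-- the graph of `π` -/
def Gm : Subgroup (FreeGroup κ × Q) := ((MonoidHom.id _).prod π).range

theorem mem_Gm (x : FreeGroup κ × Q) : x ∈ Gm π ↔ π x.1 = x.2 := by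
  constructor
  · rintro ⟨y, rfl⟩
    rfl
  · intro h
    exact ⟨x.1, Prod.ext rfl h⟩

/-- the HNN extension -/
abbrev GG : Type := HNNExtension (FreeGroup κ × Q) (Gm π) (Gm π) (MulEquiv.refl _)

/-- the embedding of the base -/
abbrev bs : FreeGroup κ × Q →* GG π := HNNExtension.of

theorem bs_inj : Function.Injective (bs π) := HNNExtension.of_injective _

/-- the stable letter -/
abbrev st : GG π := HNNExtension.t

theorem st_comm {x : FreeGroup κ × Q} (hx : x ∈ Gm π) : st π * bs π x = bs π x * st π := by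
  have := HNNExtension.t_mul_of (φ := MulEquiv.refl (Gm π)) ⟨x, hx⟩
  exact this

/-- the projection to `Q` -/
def p1 : GG π →* Q := HNNExtension.lift (MonoidHom.snd _ _) 1 (fun a => by
  rw [one_mul, mul_one]; rfl)

@[simp] theorem p1_bs (x : FreeGroup κ × Q) : p1 π (bs π x) = x.2 := HNNExtension.lift_of _ _ _ _

@[simp] theorem p1_st : p1 π (st π) = 1 := HNNExtension.lift_t _ _ _

theorem p1_surj : Function.Surjective (p1 π) := fun q => ⟨bs π (1, q), p1_bs π _⟩

/-- generators of the base -/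
def xx (a : κ) : FreeGroup κ × Q := (1, π (FreeGroup.of a))
/-- generators of the base -/
def tt (Q : Type) [Group Q] (a : κ) : FreeGroup κ × Q := (FreeGroup.of a, 1)
/-- generators of the graph -/
def ll (a : κ) : FreeGroup κ × Q := (FreeGroup.of a, π (FreeGroup.of a))

theorem Gm_closure : Gm π = Subgroup.closure (Set.range (ll π)) := by
  have h1 : (⊤ : Subgroup (FreeGroup κ)) = Subgroup.closure (Set.range (fun a => FreeGroup.of a)) :=
    closure_of.symm
  have h2 : Gm π = (⊤ : Subgroup (FreeGroup κ)).map ((MonoidHom.id _).prod π) :=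
    MonoidHom.range_eq_map _
  rw [h2, h1, MonoidHom.map_closure, ← Set.range_comp]
  rfl

theorem range_closure (π' : FreeGroup κ →* Q) (hπ : Function.Surjective π') :
    Subgroup.closure (Set.range fun a => π' (FreeGroup.of a)) = ⊤ := by
  have h1 : (⊤ : Subgroup (FreeGroup κ)) = Subgroup.closure (Set.range (fun a => FreeGroup.of a)) :=
    closure_of.symm
  have h2 : π'.range = ⊤ := MonoidHom.range_eq_top.2 hπ
  rw [← h2, MonoidHom.range_eq_map, h1, MonoidHom.map_closure, ← Set.range_comp]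
  rfl

theorem inr_mem (hπ : Function.Surjective π) (q : Q) :
    ((1, q) : FreeGroup κ × Q) ∈ Subgroup.closure (Set.range (xx π)) := by
  have h1 : q ∈ Subgroup.closure (Set.range fun a => π (FreeGroup.of a)) := by
    rw [range_closure π hπ]; trivial
  have h2 : MonoidHom.inr (FreeGroup κ) Q q ∈
      (Subgroup.closure (Set.range fun a => π (FreeGroup.of a))).map (MonoidHom.inr _ _) :=
    ⟨q, h1, rfl⟩
  rw [MonoidHom.map_closure, ← Set.range_comp] at h2
  exact h2

theorem inl_mem (f : FreeGroup κ) :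
    ((f, 1) : FreeGroup κ × Q) ∈ Subgroup.closure (Set.range (tt (κ := κ) Q)) := by
  have h1 : f ∈ Subgroup.closure (Set.range fun a => FreeGroup.of a) := by
    rw [closure_of]; trivial
  have h2 : MonoidHom.inl (FreeGroup κ) Q f ∈
      (Subgroup.closure (Set.range fun a => FreeGroup.of a)).map (MonoidHom.inl _ _) :=
    ⟨f, h1, rfl⟩
  rw [MonoidHom.map_closure, ← Set.range_comp] at h2
  exact h2

theorem base_closure (hπ : Function.Surjective π) :
    Subgroup.closure (Set.range (Sum.elim (xx π) (tt (κ := κ) Q))) = ⊤ := by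
  rw [eq_top_iff]
  rintro ⟨f, q⟩ -
  have h : ((f, q) : FreeGroup κ × Q) = (f, 1) * (1, q) := by simp
  rw [h, Set.Sum.elim_range]
  exact mul_mem (Subgroup.closure_mono Set.subset_union_right (inl_mem f))
    (Subgroup.closure_mono Set.subset_union_left (inr_mem π hπ q))

theorem base_star (hπ : Function.Surjective π) (v : κ) :
    StarP ℤ (Set.range (xx π) ∪ (tt Q) '' {w | w ≠ v}) (tt Q v) (Set.range (xx π)) := by
  intro c hc
  let pr : FreeGroup κ × Q →* FreeGroup κ := MonoidHom.fst _ _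
  have h1 := Pool.Agent.W571.DU.BC.map_mem ℤ pr _ _ hc
  rw [map_mul, map_sub, map_one, map_of] at h1
  have h2 : MonoidAlgebra.mapDomainRingHom ℤ pr c *
      (MonoidAlgebra.of ℤ _ (FreeGroup.of v) - 1) ∈ IL ℤ (FreeGroup.of '' {w : κ | w ≠ v}) := by
    refine IL_le ℤ ?_ h1
    rintro _ ⟨x, (⟨a, rfl⟩ | ⟨w, hw, rfl⟩), rfl⟩
    · change (1 : FreeGroup κ) ∈ Subgroup.closure _
      exact one_mem _
    · exact Subgroup.subset_closure ⟨w, hw, rfl⟩
  have h3 := IL_empty (star_free v _ h2)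
  have h4 : c ∈ IL ℤ (((⊥ : Subgroup (FreeGroup κ)).comap pr : Subgroup (FreeGroup κ × Q)) :
      Set (FreeGroup κ × Q)) := by
    refine pull pr (fun f => ⟨(f, 1), rfl⟩) ⊥ c ?_
    rw [h3]
    exact Submodule.zero_mem _
  refine IL_le ℤ ?_ h4
  rintro ⟨f, q⟩ hx
  have hf : f = 1 := hx
  rw [hf]
  exact inr_mem π hπ q

variable [Fintype κ]

theorem base_RM (hπ : Function.Surjective π) (h : (RM fun a => π (FreeGroup.of a)).FG) :
    (RM (Sum.elim (xx π) (tt (κ := κ) Q))).FG := by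
  refine RM_ext (xx π) (tt Q) (Set.range (xx π)) (Set.finite_range _) Subgroup.subset_closure ?_
    (base_star π hπ) ?_
  · rintro _ ⟨a, rfl⟩ v
    simp [xx, tt]
  · exact RM_bc (MonoidHom.inr (FreeGroup κ) Q) (fun a b hab => (Prod.ext_iff.1 hab).2) _ h

/-- the generators of the HNN extension -/
def gg : (κ ⊕ κ) ⊕ Unit → GG π :=
  Sum.elim (fun k => bs π (Sum.elim (xx π) (tt Q) k)) (fun _ => st π)

omit [Fintype κ] in
theorem bs_mem (hπ : Function.Surjective π) (x : FreeGroup κ × Q) :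
    bs π x ∈ Subgroup.closure (Set.range fun k => bs π (Sum.elim (xx π) (tt Q) k)) := by
  have h1 : x ∈ Subgroup.closure (Set.range (Sum.elim (xx π) (tt (κ := κ) Q))) := by
    rw [base_closure π hπ]; trivial
  have h2 : bs π x ∈ (Subgroup.closure (Set.range (Sum.elim (xx π) (tt (κ := κ) Q)))).map (bs π) :=
    ⟨x, h1, rfl⟩
  rw [MonoidHom.map_closure, ← Set.range_comp] at h2
  exact h2

omit [Fintype κ] in
theorem gg_closure (hπ : Function.Surjective π) : Subgroup.closure (Set.range (gg π)) = ⊤ := by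
  rw [eq_top_iff]
  rintro g -
  unfold gg
  rw [Set.Sum.elim_range]
  refine HNNExtension.induction_on (motive := fun g => g ∈ Subgroup.closure _) g ?_ ?_ ?_ ?_
  · intro x
    exact Subgroup.closure_mono Set.subset_union_left (bs_mem π hπ x)
  · exact Subgroup.subset_closure (Or.inr ⟨(), rfl⟩)
  · intro x y hx hy
    exact mul_mem hx hy
  · intro x hx
    exact inv_mem hx

omit [Fintype κ] in
/-- the star property of the stable letter -/
theorem st_star (c : ZG (GG π))
    (hc : c * (MonoidAlgebra.of ℤ _ (st π) - 1) ∈ IL ℤ (Set.range (bs π))) :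
    c ∈ IL ℤ (bs π '' (Gm π : Set (FreeGroup κ × Q))) :=
  Pool.Agent.W335.DU.HN.th ℤ (FreeGroup κ × Q) (Gm π) (Gm π) (MulEquiv.refl _) c hc

theorem gg_RM (hπ : Function.Surjective π) (h : (RM fun a => π (FreeGroup.of a)).FG) :
    (RM (gg π)).FG := by
  refine RM_ext (fun k => bs π (Sum.elim (xx π) (tt Q) k)) (fun _ => st π)
    (Set.range fun a => bs π (ll π a)) (Set.finite_range _) ?_ ?_ ?_ ?_
  · rintro _ ⟨a, rfl⟩
    exact bs_mem π hπ _
  · rintro _ ⟨a, rfl⟩ v
    exact st_comm π ((mem_Gm π _).2 rfl)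
  · rintro v c hc
    have h1 := st_star π c (IL_le ℤ (by
      rintro _ (⟨k, rfl⟩ | ⟨w, hw, rfl⟩)
      · exact Subgroup.subset_closure ⟨_, rfl⟩
      · exact absurd (Subsingleton.elim w v) hw) hc)
    refine IL_le ℤ ?_ h1
    rintro _ ⟨x, hx, rfl⟩
    have hx' : x ∈ Subgroup.closure (Set.range (ll π)) := by
      rw [← Gm_closure]; exact hx
    have h2 : bs π x ∈ (Subgroup.closure (Set.range (ll π))).map (bs π) := ⟨x, hx', rfl⟩
    rw [MonoidHom.map_closure, ← Set.range_comp] at h2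
    exact h2
  · exact RM_bc (bs π) (bs_inj π) _ (base_RM π hπ h)

theorem gg_fp2 (hπ : Function.Surjective π) (h : (RM fun a => π (FreeGroup.of a)).FG) :
    FPc 2 (GG π) := m2 _ (gg_closure π hπ) (gg_RM π hπ h)

omit [Fintype κ] in
/-- generators of the kernel -/
def kg : κ ⊕ Unit → GG π := Sum.elim (fun a => bs π (tt Q a)) (fun _ => st π)

/-- the subgroup generated by `F` and the stable letter -/
def KK : Subgroup (GG π) := Subgroup.closure (Set.range (kg π))

omit [Fintype κ] in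
theorem bs_inl_mem (f : FreeGroup κ) : bs π (f, 1) ∈ KK π := by
  have h2 : bs π (f, 1) ∈ (Subgroup.closure (Set.range (tt (κ := κ) Q))).map (bs π) :=
    ⟨_, inl_mem f, rfl⟩
  rw [MonoidHom.map_closure, ← Set.range_comp] at h2
  refine Subgroup.closure_mono ?_ h2
  rintro _ ⟨a, rfl⟩
  exact ⟨Sum.inl a, rfl⟩

omit [Fintype κ] in
theorem st_mem : st π ∈ KK π := Subgroup.subset_closure ⟨Sum.inr (), rfl⟩

omit [Fintype κ] in
theorem conj_mem (hπ : Function.Surjective π) (q : Q) (k : GG π) (hk : k ∈ KK π) :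
    bs π (1, q) * k * (bs π (1, q))⁻¹ ∈ KK π := by
  unfold KK at hk
  induction hk using Subgroup.closure_induction with
  | mem x hx =>
    obtain ⟨(a | u), rfl⟩ := hx
    · change bs π (1, q) * bs π (tt Q a) * (bs π (1, q))⁻¹ ∈ KK π
      rw [← map_mul, ← map_inv, ← map_mul]
      have : ((1, q) : FreeGroup κ × Q) * tt Q a * (1, q)⁻¹ = tt Q a := by
        simp [tt]
      rw [this]
      exact bs_inl_mem π _
    · change bs π (1, q) * st π * (bs π (1, q))⁻¹ ∈ KK π
      obtain ⟨f, hf⟩ := hπ q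
      have h1 : ((1, q) : FreeGroup κ × Q) = (f, 1)⁻¹ * (f, q) := by simp
      have h2 := st_comm π ((mem_Gm π (f, q)).2 hf)
      rw [h1, map_mul, map_inv]
      have h3 : (bs π (f, 1))⁻¹ * bs π (f, q) * st π * ((bs π (f, 1))⁻¹ * bs π (f, q))⁻¹ =
          (bs π (f, 1))⁻¹ * (bs π (f, q) * st π) * (bs π (f, q))⁻¹ * bs π (f, 1) := by group
      rw [h3, ← h2]
      have h4 : (bs π (f, 1))⁻¹ * (st π * bs π (f, q)) * (bs π (f, q))⁻¹ * bs π (f, 1) =
          (bs π (f, 1))⁻¹ * st π * bs π (f, 1) := by group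
      rw [h4]
      exact mul_mem (mul_mem (inv_mem (bs_inl_mem π f)) (st_mem π)) (bs_inl_mem π f)
  | one => rw [mul_one, mul_inv_cancel]; exact one_mem _
  | mul x y _ _ hx hy =>
    have : bs π (1, q) * (x * y) * (bs π (1, q))⁻¹ =
        (bs π (1, q) * x * (bs π (1, q))⁻¹) * (bs π (1, q) * y * (bs π (1, q))⁻¹) := by group
    rw [this]
    exact mul_mem hx hy
  | inv x _ hx =>
    have : bs π (1, q) * x⁻¹ * (bs π (1, q))⁻¹ = (bs π (1, q) * x * (bs π (1, q))⁻¹)⁻¹ := by group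
    rw [this]
    exact inv_mem hx

omit [Fintype κ] in
theorem dec_mem (hπ : Function.Surjective π) (g : GG π) :
    g * (bs π (1, p1 π g))⁻¹ ∈ KK π := by
  have hcj := conj_mem π hπ
  refine HNNExtension.induction_on (motive := fun g => g * (bs π (1, p1 π g))⁻¹ ∈ KK π) g
    ?_ ?_ ?_ ?_
  · rintro ⟨f, q⟩
    change bs π (f, q) * (bs π (1, p1 π (bs π (f, q))))⁻¹ ∈ KK π
    rw [p1_bs, ← map_inv, ← map_mul]
    have : ((f, q) : FreeGroup κ × Q) * (1, q)⁻¹ = (f, 1) := by simp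
    rw [this]
    exact bs_inl_mem π f
  · change st π * (bs π (1, p1 π (st π)))⁻¹ ∈ KK π
    rw [p1_st]
    have : ((1, 1) : FreeGroup κ × Q) = 1 := rfl
    rw [this, map_one, inv_one, mul_one]
    exact st_mem π
  · intro x y hx hy
    have e : bs π (1, p1 π (x * y)) = bs π (1, p1 π x) * bs π (1, p1 π y) := by
      rw [← map_mul, map_mul (p1 π)]; simp
    have e2 : x * y * (bs π (1, p1 π (x * y)))⁻¹ = (x * (bs π (1, p1 π x))⁻¹) *
        (bs π (1, p1 π x) * (y * (bs π (1, p1 π y))⁻¹) * (bs π (1, p1 π x))⁻¹) := by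
      rw [e]; group
    rw [e2]
    exact mul_mem hx (hcj _ _ hy)
  · intro x hx
    have e : bs π (1, p1 π x⁻¹) = (bs π (1, p1 π x))⁻¹ := by
      rw [← map_inv, map_inv (p1 π)]; simp
    have e2 : x⁻¹ * (bs π (1, p1 π x⁻¹))⁻¹ = (bs π (1, p1 π x))⁻¹ *
        (x * (bs π (1, p1 π x))⁻¹)⁻¹ * (bs π (1, p1 π x)) := by
      rw [e]; group
    rw [e2]
    have h3 := hcj (p1 π x)⁻¹ _ (inv_mem hx)
    have e3 : bs π (1, (p1 π x)⁻¹) = (bs π (1, p1 π x))⁻¹ := by
      rw [← map_inv (p1 π)]; exact e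
    rw [e3, inv_inv] at h3
    exact h3

omit [Fintype κ] in
theorem ker_p1 (hπ : Function.Surjective π) : (p1 π).ker = KK π := by
  apply le_antisymm
  · intro g hg
    have h1 := dec_mem π hπ g
    rw [MonoidHom.mem_ker.1 hg] at h1
    have : ((1, 1) : FreeGroup κ × Q) = 1 := rfl
    rw [this, map_one, inv_one, mul_one] at h1
    exact h1
  · unfold KK
    rw [Subgroup.closure_le]
    rintro _ ⟨(a | u), rfl⟩
    · change p1 π (bs π (tt Q a)) = 1
      rw [p1_bs]; rfl
    · exact p1_st π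

theorem ker_fg (hπ : Function.Surjective π) : Group.FG (p1 π).ker := by
  rw [ker_p1 π hπ]
  have : Finite (Set.range (kg π)) := Set.finite_range _
  exact Group.closure_finite_fg (Set.range (kg π))

/-- the fibre product -/
abbrev PPf : Subgroup (GG π × FreeGroup κ) :=
  ((p1 π).comp (MonoidHom.fst (GG π) (FreeGroup κ))).eqLocus
    (π.comp (MonoidHom.snd (GG π) (FreeGroup κ)))

omit [Fintype κ] in
theorem mem_PPf (x : GG π × FreeGroup κ) : x ∈ PPf π ↔ p1 π x.1 = π x.2 := Iff.rfl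

/-- generators -/
def y1 (a : κ) : PPf π := ⟨(bs π (1, π (FreeGroup.of a)), FreeGroup.of a), by
  rw [mem_PPf]; exact p1_bs π _⟩
/-- generators -/
def y2 (a : κ) : PPf π := ⟨(bs π (FreeGroup.of a, 1), 1), by
  rw [mem_PPf, map_one]; exact p1_bs π _⟩
/-- the stable letter -/
def y3 : PPf π := ⟨(st π, 1), by
  rw [mem_PPf, map_one]; exact p1_st π⟩

/-- generators -/
def yy : (κ ⊕ κ) ⊕ Unit → PPf π := Sum.elim (Sum.elim (y1 π) (y2 π)) (fun _ => y3 π)

/-- the projection -/
def pj : PPf π →* GG π := (MonoidHom.fst _ _).comp (PPf π).subtype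

/-- the homomorphism from `F` -/
def sF : FreeGroup κ →* PPf π where
  toFun f := ⟨(bs π (1, π f), f), by rw [mem_PPf]; exact p1_bs π _⟩
  map_one' := by
    apply Subtype.ext
    change (bs π (1, π 1), (1 : FreeGroup κ)) = 1
    rw [map_one]
    exact Prod.ext (map_one (bs π)) rfl
  map_mul' a b := by
    apply Subtype.ext
    refine Prod.ext ?_ rfl
    change bs π (1, π (a * b)) = bs π (1, π a) * bs π (1, π b)
    rw [← map_mul, map_mul π]; simp

/-- the homomorphism from the kernel -/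
def sK : KK π →* GG π × FreeGroup κ := (MonoidHom.inl _ _).comp (KK π).subtype

omit [Fintype κ] in
theorem sF_mem (f : FreeGroup κ) : sF π f ∈ Subgroup.closure (Set.range (y1 π)) := by
  have h1 : f ∈ Subgroup.closure (Set.range fun a => FreeGroup.of a) := by
    rw [closure_of]; trivial
  have h2 : sF π f ∈ (Subgroup.closure (Set.range fun a => FreeGroup.of a)).map (sF π) :=
    ⟨f, h1, rfl⟩
  rw [MonoidHom.map_closure, ← Set.range_comp] at h2
  exact h2

omit [Fintype κ] in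
theorem fst_inl_mem (hπ : Function.Surjective π) (k : GG π) (hk : k ∈ KK π) :
    ∃ h : (k, (1 : FreeGroup κ)) ∈ PPf π,
      (⟨(k, 1), h⟩ : PPf π) ∈ Subgroup.closure (Set.range (y2 π) ∪ {y3 π}) := by
  have hker : ∀ k ∈ KK π, (k, (1 : FreeGroup κ)) ∈ PPf π := by
    intro k hk
    rw [← ker_p1 π hπ] at hk
    rw [mem_PPf, map_one]
    exact hk
  refine ⟨hker k hk, ?_⟩
  let j : KK π →* PPf π :=
    { toFun := fun k => ⟨(k.1, 1), hker k.1 k.2⟩
      map_one' := rfl
      map_mul' := fun a b => Subtype.ext (Prod.ext rfl (one_mul 1).symm) }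
  have key : ∀ k (hk : k ∈ KK π), j ⟨k, hk⟩ ∈ Subgroup.closure (Set.range (y2 π) ∪ {y3 π}) := by
    intro k hk
    refine Subgroup.closure_induction (p := fun k hk => j ⟨k, hk⟩ ∈
      Subgroup.closure (Set.range (y2 π) ∪ {y3 π})) ?_ ?_ ?_ ?_ hk
    · rintro _ ⟨(a | u), rfl⟩
      · exact Subgroup.subset_closure (Or.inl ⟨a, rfl⟩)
      · exact Subgroup.subset_closure (Or.inr rfl)
    · exact one_mem _
    · intro a b ha hb h1 h2
      have : j ⟨a * b, mul_mem ha hb⟩ = j ⟨a, ha⟩ * j ⟨b, hb⟩ := map_mul j ⟨a, ha⟩ ⟨b, hb⟩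
      rw [this]
      exact mul_mem h1 h2
    · intro a ha h1
      have : j ⟨a⁻¹, inv_mem ha⟩ = (j ⟨a, ha⟩)⁻¹ := map_inv j ⟨a, ha⟩
      rw [this]
      exact inv_mem h1
  exact key k hk

omit [Fintype κ] in
theorem yy_closure (hπ : Function.Surjective π) : Subgroup.closure (Set.range (yy π)) = ⊤ := by
  rw [eq_top_iff]
  rintro ⟨⟨g, f⟩, hgf⟩ -
  have h0 : p1 π g = π f := hgf
  have h1 := dec_mem π hπ g
  rw [h0] at h1
  obtain ⟨h2, h3⟩ := fst_inl_mem π hπ _ h1
  have e : (⟨(g, f), hgf⟩ : PPf π) = ⟨(g * (bs π (1, π f))⁻¹, 1), h2⟩ * sF π f := by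
    apply Subtype.ext
    refine Prod.ext ?_ (one_mul f).symm
    change g = g * (bs π (1, π f))⁻¹ * bs π (1, π f)
    rw [inv_mul_cancel_right]
  rw [e]
  refine mul_mem (Subgroup.closure_mono ?_ h3) (Subgroup.closure_mono ?_ (sF_mem π f))
  · rintro _ (⟨a, rfl⟩ | rfl)
    · exact ⟨Sum.inl (Sum.inr a), rfl⟩
    · exact ⟨Sum.inr (), rfl⟩
  · rintro _ ⟨a, rfl⟩
    exact ⟨Sum.inl (Sum.inl a), rfl⟩

omit [Fintype κ] in
theorem pj_surj (hπ : Function.Surjective π) : Function.Surjective (pj π) := by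
  intro g
  obtain ⟨f, hf⟩ := hπ (p1 π g)
  exact ⟨⟨(g, f), hf.symm⟩, rfl⟩

/-- the graph in the HNN extension -/
def Gb : Subgroup (GG π) := (Gm π).map (bs π)

omit [Fintype κ] in
theorem E_mem (e : PPf π) (he : e ∈ (Gb π).comap (pj π)) :
    e ∈ Subgroup.closure (Set.range (Sum.elim (y1 π) (y2 π))) := by
  obtain ⟨⟨g, f⟩, hgf⟩ := e
  obtain ⟨x, hx, hxg⟩ := he
  have hxg' : bs π x = g := hxg
  have h0 : p1 π g = π f := hgf
  rw [← hxg', p1_bs] at h0
  have hx2 : π x.1 = x.2 := (mem_Gm π x).1 hx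
  have e : (⟨(g, f), hgf⟩ : PPf π) = ⟨(bs π (x.1, 1), 1), by
      rw [mem_PPf, map_one]; exact p1_bs π _⟩ * sF π f := by
    apply Subtype.ext
    refine Prod.ext ?_ (one_mul f).symm
    change g = bs π (x.1, 1) * bs π (1, π f)
    rw [← map_mul, ← hxg', ← h0]
    simp
  rw [e]
  refine mul_mem ?_ (Subgroup.closure_mono ?_ (sF_mem π f))
  · let j : FreeGroup κ →* PPf π :=
      { toFun := fun f => ⟨(bs π (f, 1), 1), by rw [mem_PPf, map_one]; exact p1_bs π _⟩
        map_one' := Subtype.ext (Prod.ext (map_one (bs π)) rfl)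
        map_mul' := fun a b => by
          apply Subtype.ext
          refine Prod.ext ?_ (one_mul 1).symm
          change bs π (a * b, 1) = bs π (a, 1) * bs π (b, 1)
          rw [← map_mul]; simp }
    have h1 : x.1 ∈ Subgroup.closure (Set.range fun a => FreeGroup.of a) := by
      rw [closure_of]; trivial
    have h2 : j x.1 ∈ (Subgroup.closure (Set.range fun a => FreeGroup.of a)).map j :=
      ⟨x.1, h1, rfl⟩
    rw [MonoidHom.map_closure, ← Set.range_comp] at h2
    refine Subgroup.closure_mono ?_ h2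
    rintro _ ⟨a, rfl⟩
    exact ⟨Sum.inr a, rfl⟩
  · rintro _ ⟨a, rfl⟩
    exact ⟨Sum.inl a, rfl⟩

omit [Fintype κ] in
theorem y3_comm (e : PPf π) (he : e ∈ (Gb π).comap (pj π)) : y3 π * e = e * y3 π := by
  obtain ⟨⟨g, f⟩, hgf⟩ := e
  obtain ⟨x, hx, hxg⟩ := he
  have hxg' : bs π x = g := hxg
  apply Subtype.ext
  refine Prod.ext ?_ ?_
  · change st π * g = g * st π
    rw [← hxg']
    exact st_comm π hx
  · change 1 * f = f * 1
    rw [one_mul, mul_one]

theorem J_eq (hπ : Function.Surjective π) :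
    (RM (yy π)).map (LinearMap.proj (Sum.inr ()) : ((κ ⊕ κ) ⊕ Unit → ZG (PPf π)) →ₗ[ZG (PPf π)] _)
      = IL ℤ (((Gb π).comap (pj π) : Subgroup (PPf π)) : Set (PPf π)) := by
  classical
  apply le_antisymm
  · rintro _ ⟨c, hc, rfl⟩
    change c (Sum.inr ()) ∈ _
    apply pull (pj π) (pj_surj π hπ)
    have h1 : c (Sum.inr ()) * (MonoidAlgebra.of ℤ _ (y3 π) - 1) ∈
        IL ℤ (Set.range (Sum.elim (y1 π) (y2 π))) := by
      rw [SetLike.mem_coe, mem_RM, Fintype.sum_sum_type] at hc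
      have e : c (Sum.inr ()) * (MonoidAlgebra.of ℤ _ (y3 π) - 1) =
          - ∑ i, c (Sum.inl i) * (MonoidAlgebra.of ℤ _ (Sum.elim (y1 π) (y2 π) i) - 1) := by
        rw [eq_neg_iff_add_eq_zero, add_comm]
        simpa [yy] using hc
      rw [e]
      refine Submodule.neg_mem _ (Submodule.sum_mem _ fun i _ => ?_)
      exact IL_gen (X := Set.range (Sum.elim (y1 π) (y2 π))) (x := Sum.elim (y1 π) (y2 π) i)
        ⟨i, rfl⟩ _
    have h2 := Pool.Agent.W571.DU.BC.map_mem ℤ (pj π) _ _ h1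
    rw [map_mul, map_sub, map_one, map_of] at h2
    have h3 := st_star π (MonoidAlgebra.mapDomainRingHom ℤ (pj π) (c (Sum.inr ()))) (IL_le ℤ (by
      rintro _ ⟨_, ⟨(a | a), rfl⟩, rfl⟩
      · exact Subgroup.subset_closure ⟨(1, π (FreeGroup.of a)), rfl⟩
      · exact Subgroup.subset_closure ⟨(FreeGroup.of a, 1), rfl⟩) h2)
    exact h3
  · unfold IL
    rw [Submodule.span_le]
    rintro _ ⟨e, he, rfl⟩
    have h1 : (MonoidAlgebra.of ℤ _ e - 1) * (MonoidAlgebra.of ℤ _ (y3 π) - 1) =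
        (MonoidAlgebra.of ℤ _ (y3 π) - 1) * (MonoidAlgebra.of ℤ _ e - 1) := by
      apply comm_sub_one
      rw [← map_mul, ← map_mul, y3_comm π e he]
    have h2 : - ((MonoidAlgebra.of ℤ _ (y3 π) - 1) * (MonoidAlgebra.of ℤ _ e - 1)) ∈
        IL ℤ (Set.range (Sum.elim (y1 π) (y2 π))) := by
      refine Submodule.neg_mem _ (Submodule.smul_mem _ _ ?_)
      exact of_sub_mem_IL ℤ (E_mem π e he)
    obtain ⟨d, hd⟩ := IL_range _ h2
    refine ⟨Sum.elim d (fun _ => MonoidAlgebra.of ℤ _ e - 1), ?_, rfl⟩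
    rw [SetLike.mem_coe, mem_RM, Fintype.sum_sum_type]
    change ∑ i, d i * (MonoidAlgebra.of ℤ _ (Sum.elim (y1 π) (y2 π) i) - 1) +
      ∑ _u : Unit, (MonoidAlgebra.of ℤ _ e - 1) * (MonoidAlgebra.of ℤ _ (y3 π) - 1) = 0
    rw [fox_apply] at hd
    rw [hd, h1]
    simp

theorem fib (hπ : Function.Surjective π) (h : FPc 2 (PPf π)) :
    ∃ S : Set (FreeGroup κ), S.Finite ∧ Subgroup.normalClosure S = π.ker := by
  classical
  have h1 : (RM (yy π)).FG := m1 _ (yy_closure π hπ) h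
  have h2 := h1.map
    (LinearMap.proj (Sum.inr ()) : ((κ ⊕ κ) ⊕ Unit → ZG (PPf π)) →ₗ[ZG (PPf π)] _)
  rw [J_eq π hπ] at h2
  obtain ⟨s', hs1, hs2⟩ := (Submodule.fg_span_iff_fg_span_finset_subset _).1 h2
  have hs1' : ∀ z ∈ s', ∃ y : PPf π, y ∈ (((Gb π).comap (pj π) : Subgroup (PPf π)) : Set (PPf π)) ∧
      MonoidAlgebra.of ℤ _ y - 1 = z := fun z hz => hs1 hz
  choose! x hx1 hx2 using hs1'
  let X : Set (PPf π) := x '' (s' : Set (ZG (PPf π)))
  have hX : X.Finite := s'.finite_toSet.image _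
  have hE : ∀ e ∈ (Gb π).comap (pj π), e ∈ Subgroup.closure X := by
    intro e he
    apply mem_closure_of_IL
    have h3 : MonoidAlgebra.of ℤ _ e - 1 ∈ Submodule.span (ZG (PPf π)) (s' : Set (ZG (PPf π))) := by
      rw [← hs2]
      exact Submodule.subset_span ⟨e, he, rfl⟩
    refine Submodule.span_mono ?_ h3
    intro z hz
    exact ⟨x z, ⟨z, hz, rfl⟩, hx2 z hz⟩
  have hu : ∀ z ∈ X, ∃ u : FreeGroup κ, bs π (u, π u) = z.1.1 := by
    rintro _ ⟨z, hz, rfl⟩
    obtain ⟨y, hy1, hy2⟩ := hx1 z hz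
    refine ⟨y.1, ?_⟩
    rw [(mem_Gm π y).1 hy1]
    exact hy2
  choose! u hu using hu
  let S : Set (FreeGroup κ) := (fun z => (u z)⁻¹ * z.1.2) '' X
  refine ⟨S, hX.image _, le_antisymm ?_ ?_⟩
  · apply Subgroup.normalClosure_le_normal
    rintro _ ⟨z, hz, rfl⟩
    change π ((u z)⁻¹ * z.1.2) = 1
    have h3 : p1 π z.1.1 = π z.1.2 := z.2
    rw [← hu z hz, p1_bs] at h3
    rw [map_mul, map_inv, ← h3]
    exact inv_mul_cancel _
  · intro n hn
    have hn' : π n = 1 := hn
    let e : PPf π := ⟨(1, n), by rw [mem_PPf, hn']; exact map_one _⟩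
    have he : e ∈ Subgroup.closure X := hE e ⟨1, one_mem _, map_one _⟩
    have key : ∀ z ∈ Subgroup.closure X, ∃ v : FreeGroup κ, bs π (v, π v) = z.1.1 ∧
        v⁻¹ * z.1.2 ∈ Subgroup.normalClosure S := by
      intro z hz
      induction hz using Subgroup.closure_induction with
      | mem z hz => exact ⟨u z, hu z hz, Subgroup.subset_normalClosure ⟨z, hz, rfl⟩⟩
      | one => exact ⟨1, by rw [map_one]; exact map_one _, by
          change (1 : FreeGroup κ)⁻¹ * 1 ∈ _
          rw [inv_one, mul_one]; exact one_mem _⟩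
      | mul a b _ _ ha hb =>
        obtain ⟨v, hv1, hv2⟩ := ha
        obtain ⟨w, hw1, hw2⟩ := hb
        refine ⟨v * w, ?_, ?_⟩
        · change _ = a.1.1 * b.1.1
          rw [← hv1, ← hw1, ← map_mul, map_mul]; rfl
        · change (v * w)⁻¹ * (a.1.2 * b.1.2) ∈ _
          have : (v * w)⁻¹ * (a.1.2 * b.1.2) =
              (w⁻¹ * (v⁻¹ * a.1.2) * w⁻¹⁻¹) * (w⁻¹ * b.1.2) := by group
          rw [this]
          exact mul_mem (Subgroup.normalClosure_normal.conj_mem _ hv2 _) hw2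
      | inv a _ ha =>
        obtain ⟨v, hv1, hv2⟩ := ha
        refine ⟨v⁻¹, ?_, ?_⟩
        · change _ = (a.1.1)⁻¹
          rw [← hv1, ← map_inv, map_inv]; rfl
        · change v⁻¹⁻¹ * (a.1.2)⁻¹ ∈ _
          have : v⁻¹⁻¹ * (a.1.2)⁻¹ = v * (v⁻¹ * a.1.2)⁻¹ * v⁻¹ := by group
          rw [this]
          exact Subgroup.normalClosure_normal.conj_mem _ (inv_mem hv2) _
    obtain ⟨v, hv1, hv2⟩ := key e he
    have hv3 : bs π (v, π v) = bs π 1 := hv1.trans (map_one _).symm
    have hv4 := bs_inj π hv3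
    have hv5 : v = 1 := (Prod.ext_iff.1 hv4).1
    rw [hv5, inv_one, one_mul] at hv2
    exact hv2

end

end Pool.Agent.T2H50.HC
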