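import Pool.Agent.T2H50.HC.Dir

/-!
# The kernel of a right-angled Artin group whose graph has a nontrivial finite covering which is
trivial on the triangles is not finitely presented

MP_3ca9d5_al (S01246)
-/

set_option autoImplicit false

namespace Pool.Agent.T2H50.HC

open Pool.Agent.W326.DU Pool.Agent.W490.DU

section
variable {V : Type} (ad : V → V → Prop)

/-- the height -/
def ht : RAAG ad →* Multiplicative ℤ :=
  PresentedGroup.toGroup (f := fun _ => Multiplicative.ofAdd (1 : ℤ)) (by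
    rintro r ⟨a, b, hab, rfl⟩
    simp only [map_mul, map_inv, FreeGroup.lift_apply_of]
    rw [mul_inv_eq_one, mul_inv_eq_iff_eq_mul])

@[simp] theorem ht_gen (v : V) : ht ad (gen ad v) = Multiplicative.ofAdd (1 : ℤ) :=
  PresentedGroup.toGroup.of _

/-- the height as an integer -/
def hgt (x : RAAG ad) : ℤ := (ht ad x).toAdd

theorem hgt_one : hgt ad 1 = 0 := by
  unfold hgt
  rw [map_one, toAdd_one]

theorem hgt_mul (x y : RAAG ad) : hgt ad (x * y) = hgt ad x + hgt ad y := by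
  unfold hgt
  rw [map_mul, toAdd_mul]

theorem hgt_inv (x : RAAG ad) : hgt ad x⁻¹ = - hgt ad x := by
  unfold hgt
  rw [map_inv, toAdd_inv]

theorem hgt_gen (v : V) : hgt ad (gen ad v) = 1 := by
  unfold hgt
  rw [ht_gen, toAdd_ofAdd]

theorem hgt_pow (x : RAAG ad) (n : ℕ) : hgt ad (x ^ n) = n * hgt ad x := by
  induction n with
  | zero => rw [pow_zero, hgt_one]; simp
  | succ n ih => rw [pow_succ, hgt_mul, ih]; push_cast; ring

/-- the kernel of the height -/
abbrev BB : Type := (ht ad).ker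

/-- the index set of the generators of the kernel -/
abbrev Ed : Type := {e : V × V // ad e.1 e.2}

theorem xg_mem (e : Ed ad) : gen ad e.1.1 * (gen ad e.1.2)⁻¹ ∈ (ht ad).ker := by
  rw [MonoidHom.mem_ker, map_mul, map_inv, ht_gen, ht_gen, mul_inv_cancel]

/-- the generators of the kernel -/
def xg (e : Ed ad) : BB ad := ⟨gen ad e.1.1 * (gen ad e.1.2)⁻¹, xg_mem ad e⟩

variable {ad}

/-- The kernel is generated by the `xg`. -/
theorem xg_closure (v0 : V)
    (hconn : ∀ a b, Relation.ReflTransGen ad a b) :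
    Subgroup.closure (Set.range (xg ad)) = ⊤ := by
  classical
  set K : Subgroup (RAAG ad) := Subgroup.closure (Set.range fun e : Ed ad =>
    gen ad e.1.1 * (gen ad e.1.2)⁻¹) with hK
  have hg : ∀ a b, ad a b → gen ad a * (gen ad b)⁻¹ ∈ K := fun a b h =>
    Subgroup.subset_closure ⟨⟨(a, b), h⟩, rfl⟩
  have hg' : ∀ a b, ad a b → (gen ad b)⁻¹ * gen ad a ∈ K := by
    intro a b h
    have : (gen ad b)⁻¹ * gen ad a = gen ad a * (gen ad b)⁻¹ := by
      rw [inv_mul_eq_iff_eq_mul, ← mul_assoc, ← gen_comm ad h, mul_inv_cancel_right]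
    rw [this]; exact hg a b h
  have c1 : ∀ a b, gen ad a * (gen ad b)⁻¹ ∈ K := by
    intro a b
    induction hconn a b with
    | refl => rw [mul_inv_cancel]; exact K.one_mem
    | tail _ h ih =>
      rename_i c d _
      have : gen ad a * (gen ad d)⁻¹ = (gen ad a * (gen ad c)⁻¹) * (gen ad c * (gen ad d)⁻¹) := by
        group
      rw [this]; exact K.mul_mem ih (hg _ _ h)
  have c2 : ∀ a b, (gen ad b)⁻¹ * gen ad a ∈ K := by
    intro a b
    induction hconn a b with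
    | refl => rw [inv_mul_cancel]; exact K.one_mem
    | tail _ h ih =>
      rename_i c d _
      have : (gen ad d)⁻¹ * gen ad a = ((gen ad d)⁻¹ * gen ad c) * ((gen ad c)⁻¹ * gen ad a) := by
        group
      rw [this]; exact K.mul_mem (hg' _ _ h) ih
  have n1 : ∀ v, ∀ k ∈ K, gen ad v * k * (gen ad v)⁻¹ ∈ K := by
    intro v k hk
    have h1 : K ≤ K.comap (MulAut.conj (gen ad v)).toMonoidHom := by
      conv_lhs => rw [hK]
      rw [Subgroup.closure_le]
      rintro _ ⟨⟨⟨a, b⟩, hab⟩, rfl⟩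
      show gen ad v * (gen ad a * (gen ad b)⁻¹) * (gen ad v)⁻¹ ∈ K
      have e : gen ad v * (gen ad a * (gen ad b)⁻¹) * (gen ad v)⁻¹ =
          (gen ad v * (gen ad a)⁻¹) * (gen ad a * (gen ad a * (gen ad b)⁻¹) * (gen ad a)⁻¹) *
            (gen ad v * (gen ad a)⁻¹)⁻¹ := by group
      have e2 : gen ad a * (gen ad a * (gen ad b)⁻¹) * (gen ad a)⁻¹ =
          gen ad a * (gen ad b)⁻¹ := by
        have h := gen_comm ad hab
        have h' : (gen ad b)⁻¹ * (gen ad a)⁻¹ = (gen ad a)⁻¹ * (gen ad b)⁻¹ := by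
          rw [← mul_inv_rev, ← mul_inv_rev, h]
        calc gen ad a * (gen ad a * (gen ad b)⁻¹) * (gen ad a)⁻¹ =
            gen ad a * gen ad a * ((gen ad b)⁻¹ * (gen ad a)⁻¹) := by group
          _ = gen ad a * gen ad a * ((gen ad a)⁻¹ * (gen ad b)⁻¹) := by rw [h']
          _ = _ := by group
      rw [e, e2]
      exact K.mul_mem (K.mul_mem (c1 v a) (hg a b hab)) (K.inv_mem (c1 v a))
    exact h1 hk
  have n2 : ∀ v, ∀ k ∈ K, (gen ad v)⁻¹ * k * gen ad v ∈ K := by
    intro v k hk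
    have h1 : K ≤ K.comap (MulAut.conj (gen ad v)⁻¹).toMonoidHom := by
      conv_lhs => rw [hK]
      rw [Subgroup.closure_le]
      rintro _ ⟨⟨⟨a, b⟩, hab⟩, rfl⟩
      show (gen ad v)⁻¹ * (gen ad a * (gen ad b)⁻¹) * ((gen ad v)⁻¹)⁻¹ ∈ K
      have e : (gen ad v)⁻¹ * (gen ad a * (gen ad b)⁻¹) * ((gen ad v)⁻¹)⁻¹ =
          ((gen ad v)⁻¹ * gen ad a) * ((gen ad b)⁻¹ * gen ad a) *
            ((gen ad v)⁻¹ * gen ad a)⁻¹ := by group
      rw [e]
      exact K.mul_mem (K.mul_mem (c2 a v) (hg' a b hab)) (K.inv_mem (c2 a v))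
    have := h1 hk
    change (gen ad v)⁻¹ * k * ((gen ad v)⁻¹)⁻¹ ∈ K at this
    rwa [inv_inv] at this
  have hnorm : K.Normal := by
    constructor
    intro k hk y
    refine gen_induction (p := fun y => ∀ k ∈ K, y * k * y⁻¹ ∈ K) ?_ ?_ ?_ y k hk
    · intro k hk; simpa using hk
    · intro v x ih k hk
      have : gen ad v * x * k * (gen ad v * x)⁻¹ = gen ad v * (x * k * x⁻¹) * (gen ad v)⁻¹ := by
        group
      rw [this]; exact n1 v _ (ih k hk)
    · intro v x ih k hk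
      have : (gen ad v)⁻¹ * x * k * ((gen ad v)⁻¹ * x)⁻¹ =
          (gen ad v)⁻¹ * (x * k * x⁻¹) * gen ad v := by group
      rw [this]; exact n2 v _ (ih k hk)
  have hq : ∀ y, QuotientGroup.mk' K y = (QuotientGroup.mk' K (gen ad v0)) ^ (ht ad y).toAdd := by
    refine gen_induction ?_ ?_ ?_
    · simp
    · intro s x hx
      rw [map_mul, hx, map_mul, ht_gen]
      have : QuotientGroup.mk' K (gen ad s) = QuotientGroup.mk' K (gen ad v0) := by
        rw [← mul_inv_eq_one, ← map_inv, ← map_mul]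
        exact (QuotientGroup.eq_one_iff _).2 (c1 s v0)
      rw [this, toAdd_mul, zpow_add, toAdd_ofAdd, zpow_one]
    · intro s x hx
      rw [map_mul, hx, map_mul, map_inv, map_inv, ht_gen]
      have : QuotientGroup.mk' K (gen ad s) = QuotientGroup.mk' K (gen ad v0) := by
        rw [← mul_inv_eq_one, ← map_inv, ← map_mul]
        exact (QuotientGroup.eq_one_iff _).2 (c1 s v0)
      rw [this, toAdd_mul, toAdd_inv, toAdd_ofAdd, zpow_add, zpow_neg_one]
  rw [eq_top_iff]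
  rintro ⟨y, hy⟩ -
  have h1 : y ∈ K := by
    have := hq y
    rw [MonoidHom.mem_ker.1 hy, toAdd_one, zpow_zero] at this
    exact (QuotientGroup.eq_one_iff _).1 this
  have h2 : K = (Subgroup.closure (Set.range (xg ad))).map (ht ad).ker.subtype := by
    rw [MonoidHom.map_closure, ← Set.range_comp]
    rfl
  rw [h2] at h1
  obtain ⟨z, hz, hzy⟩ := h1
  have : z = ⟨y, hy⟩ := Subtype.ext hzy
  rw [← this]; exact hz

/-- the words of the kernel -/
def pw (ad : V → V → Prop) : FreeGroup (Ed ad) →* BB ad := FreeGroup.lift (xg ad)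

theorem pw_surj (v0 : V)
    (hconn : ∀ a b, Relation.ReflTransGen ad a b) : Function.Surjective (pw ad) := by
  rw [← MonoidHom.range_eq_top, pw, FreeGroup.range_lift_eq_closure]
  exact xg_closure v0 hconn

end

section bad
variable {V J : Type} [Group J] {ad : V → V → Prop}

theorem right_eq (f : V → RAAG ad → J) (u : FreeGroup V) (x : RAAG ad) (j : J) :
    FreeGroup.lift (stp f) u (x, j) = (PresentedGroup.mk (rels ad) u * x,
      (FreeGroup.lift (stp f) u (x, 1)).2 * j) := by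
  revert x j
  induction u using FreeGroup.induction_on with
  | C1 => intro x j; simp
  | of s =>
    intro x j
    rw [FreeGroup.lift_apply_of, stp_apply, stp_apply, mul_one]
    rfl
  | inv_of s _ =>
    intro x j
    rw [map_inv, FreeGroup.lift_apply_of, stp_inv_apply, stp_inv_apply, mul_one, map_inv]
    rfl
  | mul u v hu hv =>
    intro x j
    rw [map_mul, Equiv.Perm.mul_apply, Equiv.Perm.mul_apply, hv x j, hu, hv x 1, hu _ (_ * 1),
      map_mul]
    simp only [mul_one, mul_assoc]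

/-- the words which are trivial far from the height `0` -/
def Far (f : V → RAAG ad → J) : Subgroup (FreeGroup V) where
  carrier := {r | PresentedGroup.mk (rels ad) r = 1 ∧
    ∃ N : ℤ, ∀ x, N ≤ |hgt ad x| → ∀ j, FreeGroup.lift (stp f) r (x, j) = (x, j)}
  one_mem' := ⟨map_one _, 0, fun x _ j => by rw [map_one]; rfl⟩
  mul_mem' := by
    rintro a b ⟨ha, N, hN⟩ ⟨hb, N', hN'⟩
    refine ⟨by rw [map_mul, ha, hb, one_mul], max N N', fun x hx j => ?_⟩
    rw [map_mul, Equiv.Perm.mul_apply, hN' x (le_trans (le_max_right _ _) hx),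
      hN x (le_trans (le_max_left _ _) hx)]
  inv_mem' := by
    rintro a ⟨ha, N, hN⟩
    refine ⟨by rw [map_inv, ha, inv_one], N, fun x hx j => ?_⟩
    rw [map_inv, Equiv.Perm.inv_eq_iff_eq, hN x hx]

theorem far_normal (f : V → RAAG ad → J) : (Far f).Normal := by
  constructor
  rintro r ⟨hr, N, hN⟩ u
  refine ⟨by rw [map_mul, map_mul, hr, mul_one, map_inv, mul_inv_cancel],
    N + |hgt ad (PresentedGroup.mk (rels ad) u)|, fun x hx j => ?_⟩
  rw [map_mul, map_mul, Equiv.Perm.mul_apply, Equiv.Perm.mul_apply, map_inv]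
  have h1 := right_eq f u⁻¹ x j
  rw [map_inv, map_inv] at h1
  set q := (FreeGroup.lift (stp f) u)⁻¹ (x, j) with hq
  have h2 : FreeGroup.lift (stp f) r q = q := by
    have e : q = (q.1, q.2) := rfl
    rw [e]
    apply hN
    rw [h1]
    show N ≤ |hgt ad ((PresentedGroup.mk (rels ad) u)⁻¹ * x)|
    rw [hgt_mul, hgt_inv]
    have := abs_sub_abs_le_abs_sub (hgt ad x) (hgt ad (PresentedGroup.mk (rels ad) u))
    have e2 : -(hgt ad (PresentedGroup.mk (rels ad) u)) + hgt ad x =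
        hgt ad x - hgt ad (PresentedGroup.mk (rels ad) u) := by ring
    rw [e2]
    linarith
  rw [h2, hq]
  exact Equiv.apply_symm_apply _ _

/-- the flat connection -/
structure Flat (ad : V → V → Prop) (γ : V → V → J) : Prop where
  coc : ∀ u v w, (u = v ∨ ad u v) → (v = w ∨ ad v w) → (u = w ∨ ad u w) → γ u v * γ v w = γ u w

theorem Flat.self {γ : V → V → J} (h : Flat ad γ) (u : V) : γ u u = 1 := by
  have := h.coc u u u (Or.inl rfl) (Or.inl rfl) (Or.inl rfl)
  exact mul_eq_left.1 this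

theorem Flat.inv {γ : V → V → J} (h : Flat ad γ) (hsymm : ∀ a b, ad a b → ad b a) {u v : V}
    (huv : u = v ∨ ad u v) : (γ u v)⁻¹ = γ v u := by
  have h1 : v = u ∨ ad v u := by
    rcases huv with h | h
    · exact Or.inl h.symm
    · exact Or.inr (hsymm _ _ h)
  have := h.coc u v u huv h1 (Or.inl rfl)
  rw [h.self] at this
  exact inv_eq_of_mul_eq_one_right this

variable (ad) in
/-- the data of the directions -/
structure Dirs (D : RAAG ad → Set V) (w : RAAG ad → V) : Prop where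
  step : ∀ s t x, s ≠ t → (s ∈ D (gen ad t * x) ↔ s ∈ D x)
  clq : ∀ x s t, s ∈ D x → t ∈ D x → s ≠ t → ad s t
  triv : ∀ s x, x ∈ AT ad {u | u ≠ s} → s ∉ D x
  mem : ∀ x, x ≠ 1 → w x ∈ D x

theorem dirs_exist [Nonempty V] (hirr : ∀ a, ¬ ad a a) (hsymm : ∀ a b, ad a b → ad b a) :
    ∃ D w, Dirs ad D w := by
  classical
  obtain ⟨D, h1, h2, h3, h4⟩ := exists_D hirr hsymm
  refine ⟨D, fun x => if h : x ≠ 1 then (h2 x h).choose else Classical.arbitrary V,
    h1, h3, h4, fun x hx => ?_⟩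
  rw [dif_pos hx]
  exact (h2 x hx).choose_spec

/-- the cochain with a branch point at `1` -/
def brc (γ : V → V → J) (w : RAAG ad → V) (s : V) (x : RAAG ad) : J := γ (w (gen ad s * x)) (w x)

theorem square {D : RAAG ad → Set V} {w : RAAG ad → V} (hD : Dirs ad D w) {a b : V} (hab : a ≠ b)
    (x : RAAG ad) (hx : x ≠ 1) (hax : gen ad a * x ≠ 1) (hbx : gen ad b * x ≠ 1)
    (habx : gen ad a * (gen ad b * x) ≠ 1)
    (hc : gen ad a * (gen ad b * x) = gen ad b * (gen ad a * x)) :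
    ∃ z, w x ∈ D z ∧ w (gen ad a * x) ∈ D z ∧ w (gen ad b * x) ∈ D z ∧
      w (gen ad a * (gen ad b * x)) ∈ D z := by
  -- all sets are contained in one of them
  have m1 := hD.mem x hx
  have m2 := hD.mem _ hax
  have m3 := hD.mem _ hbx
  have m4 := hD.mem _ habx
  have e1 : a ∈ D (gen ad b * x) ↔ a ∈ D x := hD.step a b x hab
  have e2 : a ∈ D (gen ad a * (gen ad b * x)) ↔ a ∈ D (gen ad a * x) := by
    rw [hc]; exact hD.step a b _ hab
  have e3 : b ∈ D (gen ad a * x) ↔ b ∈ D x := hD.step b a x hab.symm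
  have e4 : b ∈ D (gen ad a * (gen ad b * x)) ↔ b ∈ D (gen ad b * x) :=
    hD.step b a _ hab.symm
  have o1 : ∀ u, u ≠ a → u ≠ b → (u ∈ D (gen ad a * x) ↔ u ∈ D x) := fun u ha _ =>
    hD.step u a x ha
  have o2 : ∀ u, u ≠ a → u ≠ b → (u ∈ D (gen ad b * x) ↔ u ∈ D x) := fun u _ hb =>
    hD.step u b x hb
  have o3 : ∀ u, u ≠ a → u ≠ b → (u ∈ D (gen ad a * (gen ad b * x)) ↔ u ∈ D x) :=
    fun u ha hb => (hD.step u a _ ha).trans (hD.step u b x hb)
  have key : ∀ z, (∀ u, u ≠ a → u ≠ b → (u ∈ D z ↔ u ∈ D x)) →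
      (a ∈ D x ∨ a ∈ D (gen ad a * x) → a ∈ D z) → (b ∈ D x ∨ b ∈ D (gen ad b * x) → b ∈ D z) →
      w x ∈ D z ∧ w (gen ad a * x) ∈ D z ∧ w (gen ad b * x) ∈ D z ∧
      w (gen ad a * (gen ad b * x)) ∈ D z := by
    intro z h1 h2 h3
    have all : ∀ y, (∀ u, u ≠ a → u ≠ b → (u ∈ D y ↔ u ∈ D x)) →
        (a ∈ D y → a ∈ D x ∨ a ∈ D (gen ad a * x)) →
        (b ∈ D y → b ∈ D x ∨ b ∈ D (gen ad b * x)) → ∀ u ∈ D y, u ∈ D z := by
      intro y k1 k2 k3 u hu
      by_cases ha : u = a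
      · subst ha; exact h2 (k2 hu)
      · by_cases hb : u = b
        · subst hb; exact h3 (k3 hu)
        · exact (h1 u ha hb).2 ((k1 u ha hb).1 hu)
    refine ⟨all x (fun _ _ _ => Iff.rfl) Or.inl Or.inl _ m1,
      all _ o1 Or.inr (fun h => Or.inl (e3.1 h)) _ m2,
      all _ o2 (fun h => Or.inl (e1.1 h)) Or.inr _ m3,
      all _ o3 (fun h => Or.inr (e2.1 h)) (fun h => Or.inr (e4.1 h)) _ m4⟩
  by_cases ha : a ∈ D x
  · by_cases hb : b ∈ D x
    · exact ⟨x, key x (fun _ _ _ => Iff.rfl) (fun _ => ha) (fun _ => hb)⟩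
    · refine ⟨gen ad b * x, key _ o2 (fun _ => e1.2 ha) (fun h => ?_)⟩
      rcases h with h | h
      · exact absurd h hb
      · exact h
  · by_cases hb : b ∈ D x
    · refine ⟨gen ad a * x, key _ o1 (fun h => ?_) (fun _ => e3.2 hb)⟩
      rcases h with h | h
      · exact absurd h ha
      · exact h
    · refine ⟨gen ad a * (gen ad b * x), key _ o3 (fun h => ?_) (fun h => ?_)⟩
      · rcases h with h | h
        · exact absurd h ha
        · exact e2.2 h
      · rcases h with h | h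
        · exact absurd h hb
        · exact e4.2 h

theorem ht_ne {x : RAAG ad} (h : hgt ad x ≠ 0) : x ≠ 1 := by
  rintro rfl
  exact h (hgt_one ad)

theorem abs_aux (n : ℤ) (h : 3 ≤ |n|) : n - 2 ≠ 0 ∧ n - 2 + 1 ≠ 0 ∧ n - 2 + 2 ≠ 0 := by
  rcases abs_cases n with h' | h'
  · refine ⟨?_, ?_, ?_⟩ <;> omega
  · refine ⟨?_, ?_, ?_⟩ <;> omega

theorem rels_far {γ : V → V → J} (hγ : Flat ad γ) (hirr : ∀ a, ¬ ad a a)
    {D : RAAG ad → Set V} {w : RAAG ad → V} (hD : Dirs ad D w) :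
    ∀ r ∈ rels ad, r ∈ Far (brc γ w) := by
  rintro r ⟨a, b, hab, rfl⟩
  have hne : a ≠ b := fun h => hirr _ (h ▸ hab)
  refine ⟨PresentedGroup.one_of_mem ⟨a, b, hab, rfl⟩, 3, fun x hx j => ?_⟩
  -- reduce to the square
  have key : ∀ y : RAAG ad, hgt ad y ≠ 0 → hgt ad y + 1 ≠ 0 → hgt ad y + 2 ≠ 0 → ∀ k : J,
      stp (brc γ w) a (stp (brc γ w) b (y, k)) = stp (brc γ w) b (stp (brc γ w) a (y, k)) := by
    intro y h0 h1 h2 k
    rw [stp_apply, stp_apply, stp_apply, stp_apply]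
    have hc : gen ad a * (gen ad b * y) = gen ad b * (gen ad a * y) := by
      rw [← mul_assoc, gen_comm ad hab, mul_assoc]
    refine Prod.ext hc ?_
    show brc γ w a (gen ad b * y) * (brc γ w b y * k) = brc γ w b (gen ad a * y) *
      (brc γ w a y * k)
    have n0 : y ≠ 1 := ht_ne h0
    have hta : ∀ c : V, hgt ad (gen ad c * y) = hgt ad y + 1 := by
      intro c
      rw [hgt_mul, hgt_gen]; ring
    have n1 : ∀ c : V, gen ad c * y ≠ 1 := fun c => ht_ne (by rw [hta]; exact h1)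
    have n2 : gen ad a * (gen ad b * y) ≠ 1 := ht_ne (by
      rw [hgt_mul, hgt_gen, hta]
      intro h
      apply h2
      omega)
    obtain ⟨z, z1, z2, z3, z4⟩ := square hD hne y n0 (n1 a) (n1 b) n2 hc
    have cl : ∀ s t, s ∈ D z → t ∈ D z → (s = t ∨ ad s t) := by
      intro s t hs ht'
      by_cases h : s = t
      · exact Or.inl h
      · exact Or.inr (hD.clq z s t hs ht' h)
    have hAB : brc γ w a (gen ad b * y) * brc γ w b y =
        brc γ w b (gen ad a * y) * brc γ w a y := by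
      unfold brc
      rw [hγ.coc _ _ _ (cl _ _ z4 z3) (cl _ _ z3 z1) (cl _ _ z4 z1), ← hc,
        hγ.coc _ _ _ (cl _ _ z4 z2) (cl _ _ z2 z1) (cl _ _ z4 z1)]
    rw [← mul_assoc (brc γ w a (gen ad b * y)), hAB, mul_assoc]
  simp only [map_mul, map_inv, FreeGroup.lift_apply_of, Equiv.Perm.mul_apply]
  set q : RAAG ad × J := (stp (brc γ w) a)⁻¹ ((stp (brc γ w) b)⁻¹ (x, j)) with hq
  have hq1 : hgt ad q.1 = hgt ad x - 2 := by
    rw [hq, stp_inv_apply, stp_inv_apply]
    show hgt ad ((gen ad a)⁻¹ * ((gen ad b)⁻¹ * x)) = _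
    rw [hgt_mul, hgt_mul, hgt_inv, hgt_inv, hgt_gen, hgt_gen]
    ring
  obtain ⟨a1, a2, a3⟩ := abs_aux _ hx
  have hk := key q.1 (by rw [hq1]; exact a1) (by rw [hq1]; exact a2) (by rw [hq1]; exact a3) q.2
  have hk' : stp (brc γ w) a (stp (brc γ w) b q) = stp (brc γ w) b (stp (brc γ w) a q) := hk
  have i1 : ∀ y, stp (brc γ w) a ((stp (brc γ w) a)⁻¹ y) = y := Equiv.apply_symm_apply _
  have i2 : ∀ y, stp (brc γ w) b ((stp (brc γ w) b)⁻¹ y) = y := Equiv.apply_symm_apply _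
  rw [hk', hq, i1, i2]

theorem ker_far {γ : V → V → J} (hγ : Flat ad γ) (hirr : ∀ a, ¬ ad a a)
    {D : RAAG ad → Set V} {w : RAAG ad → V} (hD : Dirs ad D w) {r : FreeGroup V}
    (hr : PresentedGroup.mk (rels ad) r = 1) : r ∈ Far (brc γ w) := by
  have hn := far_normal (brc γ w)
  have h1 : Subgroup.normalClosure (rels ad) ≤ Far (brc γ w) :=
    Subgroup.normalClosure_le_normal (fun r hr => rels_far hγ hirr hD r hr)
  exact h1 (PresentedGroup.mk_eq_one_iff.1 hr)

/-- the word of an edge -/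
def ew (a b : V) : FreeGroup V := FreeGroup.of a * (FreeGroup.of b)⁻¹

theorem w_mem {D : RAAG ad → Set V} {w : RAAG ad → V} (hD : Dirs ad D w) (a b : V) (k l : ℕ)
    (h : k + l ≠ 0) :
    w ((gen ad a)⁻¹ ^ k * (gen ad b)⁻¹ ^ l) = a ∨ w ((gen ad a)⁻¹ ^ k * (gen ad b)⁻¹ ^ l) = b := by
  have h1 : (gen ad a)⁻¹ ^ k * (gen ad b)⁻¹ ^ l ≠ 1 := by
    apply ht_ne
    rw [hgt_mul, hgt_pow, hgt_pow, hgt_inv, hgt_inv, hgt_gen, hgt_gen]
    omega
  have h2 := hD.mem _ h1
  by_contra hc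
  rw [not_or] at hc
  refine hD.triv _ _ ?_ h2
  refine Subgroup.mul_mem _ (Subgroup.pow_mem _ (Subgroup.inv_mem _ (gen_mem_AT ad ?_)) _)
    (Subgroup.pow_mem _ (Subgroup.inv_mem _ (gen_mem_AT ad ?_)) _)
  · exact fun h => hc.1 h.symm
  · exact fun h => hc.2 h.symm

theorem edge_power {γ : V → V → J} (hγ : Flat ad γ) (hsymm : ∀ a b, ad a b → ad b a)
    {D : RAAG ad → Set V} {w : RAAG ad → V} (hD : Dirs ad D w) {a b : V} (hab : ad a b) (m : ℕ) :
    ∀ i, i ≤ m → ∀ j : J, FreeGroup.lift (stp (brc γ w)) (ew a b ^ i) ((gen ad a)⁻¹ ^ m, j) =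
      ((gen ad a)⁻¹ ^ (m - i) * (gen ad b)⁻¹ ^ i,
        γ (w ((gen ad a)⁻¹ ^ (m - i) * (gen ad b)⁻¹ ^ i)) (w ((gen ad a)⁻¹ ^ m)) * j) := by
  intro i
  induction i with
  | zero =>
    intro _ j
    rw [pow_zero, map_one, Nat.sub_zero, pow_zero, mul_one, hγ.self, one_mul]
    rfl
  | succ i ih =>
    intro hi j
    have cl : ∀ k l k' l', k + l ≠ 0 → k' + l' ≠ 0 →
        (w ((gen ad a)⁻¹ ^ k * (gen ad b)⁻¹ ^ l) = w ((gen ad a)⁻¹ ^ k' * (gen ad b)⁻¹ ^ l') ∨
        ad (w ((gen ad a)⁻¹ ^ k * (gen ad b)⁻¹ ^ l))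
          (w ((gen ad a)⁻¹ ^ k' * (gen ad b)⁻¹ ^ l'))) := by
      intro k l k' l' h h'
      rcases w_mem hD a b k l h with e | e <;> rcases w_mem hD a b k' l' h' with e' | e' <;>
        rw [e, e']
      · exact Or.inl rfl
      · exact Or.inr hab
      · exact Or.inr (hsymm _ _ hab)
      · exact Or.inl rfl
    obtain ⟨c, hc⟩ : ∃ c, m - i = c + 1 := ⟨m - i - 1, by omega⟩
    have hc' : m - (i + 1) = c := by omega
    rw [pow_succ', map_mul, Equiv.Perm.mul_apply, ih (by omega) j, hc, hc', ew, map_mul,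
      map_inv, Equiv.Perm.mul_apply, FreeGroup.lift_apply_of, FreeGroup.lift_apply_of,
      stp_inv_apply, stp_apply]
    have hcomm : Commute (gen ad a) (gen ad b) := gen_comm ad hab
    have e1 : (gen ad b)⁻¹ * ((gen ad a)⁻¹ ^ (c + 1) * (gen ad b)⁻¹ ^ i) =
        (gen ad a)⁻¹ ^ (c + 1) * (gen ad b)⁻¹ ^ (i + 1) := by
      rw [← mul_assoc, (((hcomm.symm.inv_left).inv_right).pow_right (c + 1)).eq, mul_assoc,
        ← pow_succ']
    have e2 : gen ad a * ((gen ad a)⁻¹ ^ (c + 1) * (gen ad b)⁻¹ ^ (i + 1)) =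
        (gen ad a)⁻¹ ^ c * (gen ad b)⁻¹ ^ (i + 1) := by
      rw [pow_succ' _ c, ← mul_assoc, ← mul_assoc, mul_inv_cancel, one_mul]
    have e0 : (gen ad b) * ((gen ad a)⁻¹ ^ (c + 1) * (gen ad b)⁻¹ ^ (i + 1)) =
        (gen ad a)⁻¹ ^ (c + 1) * (gen ad b)⁻¹ ^ i := by
      rw [← e1, mul_inv_cancel_left]
    unfold brc
    rw [e1, e2, e0]
    refine Prod.ext rfl ?_
    show γ _ _ * ((γ _ _)⁻¹ * (γ _ _ * j)) = γ _ _ * j
    rw [hγ.inv hsymm (cl _ _ _ _ (by omega) (by omega)), ← mul_assoc, ← mul_assoc,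
      hγ.coc _ _ _ (cl _ _ _ _ (by omega) (by omega)) (cl _ _ _ _ (by omega) (by omega))
        (cl _ _ _ _ (by omega) (by omega))]
    congr 1
    have hm : (gen ad a)⁻¹ ^ m = (gen ad a)⁻¹ ^ m * (gen ad b)⁻¹ ^ 0 := by
      rw [pow_zero, mul_one]
    rw [hm]
    exact hγ.coc _ _ _ (cl _ _ _ _ (by omega) (by omega)) (cl _ _ _ _ (by omega) (by omega))
        (cl _ _ _ _ (by omega) (by omega))

/-- the words of the kernel as words -/
def phi (ad : V → V → Prop) : FreeGroup (Ed ad) →* FreeGroup V :=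
  FreeGroup.lift fun e => ew e.1.1 e.1.2

theorem mk_phi (u : FreeGroup (Ed ad)) :
    PresentedGroup.mk (rels ad) (phi ad u) = (pw ad u : RAAG ad) := by
  have h : (PresentedGroup.mk (rels ad)).comp (phi ad) =
      ((ht ad).ker.subtype).comp (pw ad) := by
    apply FreeGroup.ext_hom
    intro e
    simp only [MonoidHom.comp_apply, phi, pw, FreeGroup.lift_apply_of]
    rfl
  exact DFunLike.congr_fun h u

/-- the words which are trivial on the height `-m` -/
def Lev (f : V → RAAG ad → J) (m : ℤ) : Subgroup (FreeGroup (Ed ad)) where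
  carrier := {r | pw ad r = 1 ∧
    ∀ x, hgt ad x = m → ∀ j, FreeGroup.lift (stp f) (phi ad r) (x, j) = (x, j)}
  one_mem' := ⟨map_one _, fun x _ j => by rw [map_one, map_one]; rfl⟩
  mul_mem' := by
    rintro a b ⟨ha, hN⟩ ⟨hb, hN'⟩
    refine ⟨by rw [map_mul, ha, hb, one_mul], fun x hx j => ?_⟩
    rw [map_mul, map_mul, Equiv.Perm.mul_apply, hN' x hx, hN x hx]
  inv_mem' := by
    rintro a ⟨ha, hN⟩
    refine ⟨by rw [map_inv, ha, inv_one], fun x hx j => ?_⟩
    rw [map_inv, map_inv, Equiv.Perm.inv_eq_iff_eq, hN x hx]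

theorem lev_normal (f : V → RAAG ad → J) (m : ℤ) : (Lev f m).Normal := by
  constructor
  rintro r ⟨hr, hN⟩ u
  refine ⟨by rw [map_mul, map_mul, hr, mul_one, map_inv, mul_inv_cancel], fun x hx j => ?_⟩
  rw [map_mul, map_mul, map_mul, map_mul, Equiv.Perm.mul_apply, Equiv.Perm.mul_apply, map_inv,
    map_inv]
  have h1 := right_eq f (phi ad u)⁻¹ x j
  rw [map_inv, map_inv] at h1
  set q := (FreeGroup.lift (stp f) (phi ad u))⁻¹ (x, j) with hq
  have h2 : FreeGroup.lift (stp f) (phi ad r) q = q := by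
    have e : q = (q.1, q.2) := rfl
    rw [e]
    apply hN
    rw [h1]
    show hgt ad ((PresentedGroup.mk (rels ad) (phi ad u))⁻¹ * x) = m
    rw [hgt_mul, hgt_inv, mk_phi]
    have h3 : hgt ad (pw ad u : RAAG ad) = 0 := by
      unfold hgt
      rw [MonoidHom.mem_ker.1 (pw ad u).2, toAdd_one]
    rw [h3, hx]; ring
  rw [h2, hq]
  exact Equiv.apply_symm_apply _ _

open Classical in
/-- the words of the loops -/
noncomputable def lw (ad : V → V → Prop) (p : ℕ → V) (m : ℕ) : ℕ → FreeGroup (Ed ad)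
  | 0 => 1
  | i + 1 => (if h : ad (p i) (p (i + 1)) then FreeGroup.of ⟨(p i, p (i + 1)), h⟩ else 1) ^ m *
      lw ad p m i

theorem lw_apply {γ : V → V → J} (hγ : Flat ad γ) (hsymm : ∀ a b, ad a b → ad b a)
    {D : RAAG ad → Set V} {w : RAAG ad → V} (hD : Dirs ad D w) (p : ℕ → V) (l m : ℕ)
    (hm : 1 ≤ m) (hp : ∀ i < l, ad (p i) (p (i + 1))) : ∀ i ≤ l, ∀ j : J,
    FreeGroup.lift (stp (brc γ w)) (phi ad (lw ad p m i)) ((gen ad (p 0))⁻¹ ^ m, j) =
      ((gen ad (p i))⁻¹ ^ m,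
        (((List.range i).map (fun i => γ (p i) (p (i + 1)))).prod)⁻¹ * j) := by
  intro i
  induction i with
  | zero =>
    intro _ j
    simp [lw]
  | succ i ih =>
    intro hi j
    have hab := hp i (by omega)
    rw [lw, dif_pos hab, map_mul, map_mul, Equiv.Perm.mul_apply, ih (by omega), map_pow, phi,
      FreeGroup.lift_apply_of]
    rw [edge_power hγ hsymm hD hab m m le_rfl, Nat.sub_self, pow_zero, one_mul]
    refine Prod.ext rfl ?_
    show γ _ _ * _ = _
    have e1 : ∀ v, w ((gen ad v)⁻¹ ^ m) = v := by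
      intro v
      have := w_mem hD v v m 0 (by omega)
      rw [pow_zero, mul_one, or_self] at this
      exact this
    rw [e1, e1, List.range_succ, List.map_append, List.prod_append, List.map_singleton,
      List.prod_singleton, mul_inv_rev, hγ.inv hsymm (Or.inr hab), mul_assoc]

/-- **The kernel is not finitely presented.** -/
theorem not_fp {γ : V → V → J} (hγ : Flat ad γ) (hirr : ∀ a, ¬ ad a a)
    (hsymm : ∀ a b, ad a b → ad b a) (p : ℕ → V) (l : ℕ) (hcl : p l = p 0)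
    (hp : ∀ i < l, ad (p i) (p (i + 1)))
    (hol : ((List.range l).map (fun i => γ (p i) (p (i + 1)))).prod ≠ 1)
    (S : Set (FreeGroup (Ed ad))) (hS : S.Finite) :
    Subgroup.normalClosure S ≠ (pw ad).ker := by
  intro hSk
  haveI : Nonempty V := ⟨p 0⟩
  obtain ⟨D, w, hD⟩ := dirs_exist (ad := ad) hirr hsymm
  have h1 : ∀ s ∈ S, ∃ N : ℤ, ∀ x, N ≤ |hgt ad x| → ∀ j,
      FreeGroup.lift (stp (brc γ w)) (phi ad s) (x, j) = (x, j) := by
    intro s hs
    have h2 : s ∈ (pw ad).ker := by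
      rw [← hSk]; exact Subgroup.subset_normalClosure hs
    have h3 : phi ad s ∈ Far (brc γ w) := ker_far hγ hirr hD (by
      rw [mk_phi, MonoidHom.mem_ker.1 h2]; rfl)
    exact h3.2
  choose! N hN using h1
  obtain ⟨m, hm1, hm⟩ : ∃ m : ℕ, 1 ≤ m ∧ ∀ s ∈ S, N s ≤ m := by
    obtain ⟨B, hB⟩ := (hS.image N).bddAbove
    refine ⟨B.toNat + 1, by omega, fun s hs => ?_⟩
    have := hB ⟨s, hs, rfl⟩
    push_cast
    have h2 := Int.self_le_toNat B
    linarith
  have hle : Subgroup.normalClosure S ≤ Lev (brc γ w) (-m) := by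
    have hn := lev_normal (brc γ w) (-(m : ℤ))
    refine Subgroup.normalClosure_le_normal ?_
    intro s hs
    refine ⟨?_, fun x hx j => ?_⟩
    · have h2 : s ∈ (pw ad).ker := by
        rw [← hSk]; exact Subgroup.subset_normalClosure hs
      exact h2
    · apply hN s hs
      rw [hx, abs_neg, Nat.abs_cast]
      exact hm s hs
  have h4 := lw_apply hγ hsymm hD p l m hm1 hp l le_rfl 1
  rw [hcl] at h4
  have h5 : PresentedGroup.mk (rels ad) (phi ad (lw ad p m l)) = 1 := by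
    have := right_eq (brc γ w) (phi ad (lw ad p m l)) ((gen ad (p 0))⁻¹ ^ m) (1 : J)
    rw [this] at h4
    exact mul_eq_right.1 (congrArg Prod.fst h4)
  have h6 : lw ad p m l ∈ (pw ad).ker := by
    rw [mk_phi] at h5
    exact Subtype.ext h5
  rw [← hSk] at h6
  have h7 := (hle h6).2 ((gen ad (p 0))⁻¹ ^ m) (by
    rw [hgt_pow, hgt_inv, hgt_gen]; ring) 1
  rw [h7] at h4
  have h8 := congrArg Prod.snd h4
  change (1 : J) = _ * 1 at h8
  rw [mul_one] at h8
  exact hol (inv_eq_one.1 h8.symm)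

end bad

end Pool.Agent.T2H50.HC
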