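import Pool.Agent.T2H50.HC.Acy
import Pool.Agent.T2H50.HC.Nfp

/-!
# The barycentric subdivision of the spine of the Poincare homology sphere with five vertices, ten
edges and six pentagons

MP_3ca9d5_al (S01246)
-/

set_option autoImplicit false

namespace Pool.Agent.T2H50.HC.Gr

open Pool.Agent.W326.DU Pool.Agent.Y66.HC

/-- the edges (as `21 a + b`) -/
def EL : List ℕ := [
    5, 6, 7, 8, 15, 16, 17, 18, 19, 20, 26, 30, 31, 32, 36, 37, 38, 39, 40, 41,
    48, 51, 54, 55, 57, 58, 59, 60, 61, 62, 70, 73, 75, 77, 78, 79, 80, 81, 82, 83,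
    92, 95, 97, 98, 99, 100, 101, 102, 103, 104, 120, 121, 122, 142, 144, 145, 164, 165, 167, 183,
    187, 188, 204, 207, 209, 226, 229, 230, 248, 249, 250, 267, 269, 271, 289, 290, 293, 309, 310, 312]

/-- the edges -/
def E (i : Fin 80) : Fin 21 × Fin 21 :=
  (Fin.ofNat 21 (EL.getD i.1 0 / 21), Fin.ofNat 21 (EL.getD i.1 0))

/-- the triangles (as `441 a + 21 b + c`) -/
def TL : List ℕ := [
    120, 121, 122, 142, 144, 145, 164, 165, 167, 183, 187, 188, 561, 562, 563,
    645, 648, 650, 667, 670, 671, 689, 690, 691, 1024, 1026, 1027, 1086, 1089, 1091,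
    1149, 1151, 1153, 1171, 1172, 1175, 1487, 1488, 1490, 1549, 1552, 1553, 1590, 1592, 1594,
    1632, 1633, 1635, 1947, 1951, 1952, 2012, 2013, 2014, 2053, 2054, 2057, 2073, 2074, 2076]

/-- the triangles -/
def T (j : Fin 60) : Fin 21 × Fin 21 × Fin 21 :=
  (Fin.ofNat 21 (TL.getD j.1 0 / 441), Fin.ofNat 21 (TL.getD j.1 0 / 21),
    Fin.ofNat 21 (TL.getD j.1 0))

/-- the edges of the triangles (as `6400 a + 80 b + c`) -/
def QL : List ℕ := [
    320320, 326800, 333280, 339601, 346161, 352641, 358882, 365362, 371922, 377923, 384643, 391123,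
    321130, 327610, 334090, 397931, 404571, 411131, 417212, 423852, 430332, 436493, 442973, 449453,
    341220, 347780, 354260, 398741, 405381, 411941, 456342, 462902, 469462, 475623, 482103, 488743,
    361310, 367790, 374350, 418831, 425471, 431951, 457152, 463712, 470272, 495553, 502033, 508593,
    381160, 387880, 394360, 438921, 445401, 451881, 477242, 483722, 490362, 496363, 502843, 509403]

/-- the edges of the triangles -/
def Q (j : Fin 60) : Fin 80 × Fin 80 × Fin 80 :=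
  (Fin.ofNat 80 (QL.getD j.1 0 / 6400), Fin.ofNat 80 (QL.getD j.1 0 / 80),
    Fin.ofNat 80 (QL.getD j.1 0))

/-- a pair (as `2 i` for `i` and `2 i + 1` for `-i`) -/
def dc (n : ℕ) [NeZero n] (k : ℕ) : Fin n × ℤ := (Fin.ofNat n (k / 2), if k % 2 = 0 then 1 else -1)

/-- the contraction -/
def h0L : List (List ℕ) := [
    [2, 10],
    [4, 12],
    [6, 14],
    [8, 16],
    [18, 24, 28, 30],
    [20, 26, 32],
    [22, 34],
    [36],
    [38],
    [40],
    [3],
    [],
    [],
    [],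
    [],
    [],
    [],
    [],
    [],
    [],
    [5],
    [],
    [],
    [],
    [],
    [],
    [],
    [],
    [],
    [],
    [7],
    [],
    [],
    [],
    [],
    [],
    [],
    [],
    [],
    [],
    [9],
    [],
    [],
    [],
    [],
    [],
    [],
    [],
    [],
    [],
    [],
    [],
    [],
    [],
    [],
    [],
    [],
    [],
    [],
    [],
    [],
    [],
    [19],
    [],
    [],
    [21],
    [],
    [],
    [23],
    [],
    [],
    [25],
    [],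
    [],
    [27],
    [],
    [],
    [29],
    [],
    []]

/-- the contraction -/
def h0 (i : Fin 80) : List (Fin 21 × ℤ) := (h0L.getD i.1 []).map (dc 21)

/-- the contraction -/
def h1L : List (List ℕ) := [
    [22, 28, 38, 42, 44, 48, 52, 58, 63, 71, 77, 85, 91, 100, 127, 134, 147, 150,
      152, 157],
    [24, 30, 36, 53, 62, 64, 66, 68, 70, 76, 83, 93, 95, 102, 135, 140, 145, 151,
      159],
    [26, 32, 34, 43, 45, 49, 59, 65, 67, 69, 82, 84, 90, 92, 94, 104, 126, 141,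
      144, 146, 153, 156, 158],
    [37, 46, 50, 52, 65, 67, 69, 77, 82, 84, 90, 92, 94, 106, 133, 141, 144, 153,
      156, 158],
    [34, 36, 38, 54, 58, 63, 71, 83, 85, 91, 93, 108, 126, 128, 132, 134, 138, 140,
      152, 157],
    [35, 39, 42, 44, 48, 56, 62, 64, 66, 68, 70, 76, 95, 110, 127, 129, 135, 139,
      145, 159],
    [35, 42, 44, 48, 52, 58, 64, 66, 68, 72, 85, 91, 95, 112, 127, 139, 147, 150,
      152, 157, 159],
    [37, 39, 59, 62, 70, 74, 82, 84, 90, 92, 94, 114, 129, 133, 135, 141, 153, 156,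
      158],
    [34, 36, 38, 43, 45, 49, 53, 76, 78, 83, 93, 116, 126, 128, 132, 134, 138, 140,
      146, 151],
    [39, 53, 59, 62, 64, 66, 68, 70, 76, 84, 86, 88, 90, 118, 129, 135, 145, 151,
      153, 159],
    [34, 36, 38, 43, 45, 49, 63, 65, 67, 69, 71, 94, 96, 120, 126, 128, 132, 134,
      138, 140, 144, 146, 158],
    [35, 37, 42, 44, 48, 52, 58, 77, 82, 92, 98, 122, 127, 133, 139, 141, 147, 150,
      152],
    [23, 29, 39, 43, 45, 49, 53, 59, 62, 70, 76, 84, 90, 126, 135, 146, 151, 153,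
      156],
    [25, 31, 37, 52, 63, 65, 67, 69, 71, 77, 82, 92, 94, 134, 141, 144, 150, 158],
    [27, 33, 35, 42, 44, 48, 58, 64, 66, 68, 83, 85, 91, 93, 95, 127, 140, 145,
      147, 152, 157, 159],
    [22, 38, 42, 44, 48, 52, 58, 63, 71, 77, 85, 91, 127, 134, 147, 150, 152, 157],
    [35, 37, 39, 59, 62, 70, 82, 84, 90, 92, 129, 133, 135, 139, 141, 153, 156],
    [34, 36, 43, 45, 49, 53, 76, 83, 93, 126, 128, 132, 138, 140, 146, 151],
    [24, 36, 53, 62, 64, 66, 68, 70, 76, 83, 93, 95, 135, 140, 145, 151, 159],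
    [34, 38, 43, 45, 49, 63, 65, 67, 69, 71, 94, 126, 128, 132, 134, 138, 144, 146,
      158],
    [35, 37, 39, 42, 44, 48, 52, 77, 82, 92, 127, 129, 133, 139, 141, 147, 150],
    [26, 34, 43, 45, 49, 59, 65, 67, 69, 82, 84, 90, 92, 94, 126, 141, 144, 146,
      153, 156, 158],
    [36, 38, 58, 63, 71, 83, 85, 91, 93, 128, 132, 134, 138, 140, 152, 157],
    [35, 37, 39, 42, 44, 48, 62, 64, 66, 68, 70, 95, 127, 129, 133, 135, 139, 145,
      147, 159],
    [36, 47, 51, 53, 64, 66, 68, 76, 83, 85, 91, 93, 95, 132, 140, 145, 152, 157,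
      159],
    [35, 37, 39, 55, 59, 62, 70, 82, 84, 90, 92, 127, 129, 133, 135, 139, 141, 153,
      156],
    [34, 38, 43, 45, 49, 57, 63, 65, 67, 69, 71, 77, 94, 126, 128, 134, 138, 144,
      158],
    [39, 45, 49, 53, 59, 62, 70, 76, 84, 90, 129, 135, 146, 151, 153, 156],
    [34, 36, 38, 58, 63, 71, 83, 85, 91, 93, 126, 128, 132, 134, 138, 140, 152, 157],
    [35, 37, 42, 44, 48, 52, 77, 82, 92, 127, 133, 139, 141, 147, 150],
    [38, 44, 52, 58, 63, 71, 77, 85, 91, 128, 134, 147, 150, 152, 157],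
    [34, 43, 45, 49, 53, 59, 65, 67, 69, 84, 90, 94, 126, 138, 144, 146, 151, 153,
      156, 158],
    [35, 39, 42, 44, 48, 62, 64, 66, 68, 70, 76, 95, 127, 129, 135, 139, 145, 159],
    [37, 46, 52, 65, 67, 69, 77, 82, 84, 90, 92, 94, 133, 141, 144, 153, 156, 158],
    [35, 42, 44, 48, 58, 64, 66, 68, 85, 91, 95, 127, 139, 145, 147, 150, 152, 157,
      159],
    [34, 36, 43, 45, 49, 53, 59, 76, 83, 93, 126, 132, 138, 140, 146, 151],
    [34, 43, 45, 49, 53, 59, 65, 67, 69, 73, 84, 90, 94, 126, 138, 146, 151, 153,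
      156, 158],
    [36, 38, 58, 63, 71, 75, 83, 85, 91, 93, 95, 128, 132, 134, 140, 152, 157, 159],
    [35, 37, 39, 42, 44, 48, 52, 77, 79, 82, 92, 127, 129, 133, 135, 139, 141, 147,
      150],
    [37, 52, 65, 67, 69, 71, 77, 82, 92, 94, 133, 141, 144, 150, 158],
    [35, 39, 42, 44, 48, 62, 64, 66, 68, 70, 95, 127, 129, 135, 139, 145, 147, 159],
    [34, 36, 38, 43, 45, 49, 53, 76, 83, 93, 126, 128, 132, 134, 138, 140, 146, 151],
    [39, 53, 59, 62, 64, 70, 76, 84, 90, 129, 135, 145, 151, 153, 156],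
    [35, 42, 44, 48, 52, 58, 64, 66, 68, 85, 91, 95, 127, 139, 147, 150, 152, 157,
      159],
    [34, 38, 43, 45, 49, 63, 65, 67, 69, 71, 77, 94, 126, 128, 134, 138, 144, 146,
      158],
    [38, 52, 58, 63, 65, 69, 71, 77, 85, 91, 128, 134, 144, 150, 152, 157],
    [36, 53, 64, 66, 68, 76, 83, 93, 95, 132, 140, 145, 151, 159],
    [37, 39, 59, 62, 70, 82, 84, 90, 92, 94, 129, 133, 135, 141, 153, 156, 158],
    [38, 52, 58, 63, 65, 67, 69, 71, 77, 85, 87, 89, 91, 128, 134, 144, 150, 152,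
      158],
    [35, 37, 39, 42, 44, 48, 62, 64, 66, 68, 70, 95, 97, 127, 129, 133, 135, 139,
      141, 145, 147, 159],
    [34, 36, 43, 45, 49, 53, 59, 76, 83, 93, 99, 126, 132, 138, 140, 146, 151, 153],
    [35, 42, 44, 48, 58, 64, 66, 68, 85, 91, 93, 95, 127, 139, 145, 147, 152, 157,
      159],
    [37, 39, 59, 62, 70, 82, 84, 90, 92, 129, 133, 135, 141, 153, 156],
    [34, 36, 38, 43, 45, 49, 63, 65, 67, 69, 71, 94, 126, 128, 132, 134, 138, 140,
      144, 146, 158],
    [36, 53, 64, 66, 68, 76, 83, 91, 93, 95, 132, 140, 145, 151, 157, 159],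
    [34, 43, 45, 49, 59, 65, 67, 69, 84, 90, 94, 126, 138, 144, 146, 153, 156, 158],
    [35, 37, 42, 44, 48, 52, 58, 77, 82, 92, 127, 133, 139, 141, 147, 150, 152],
    [39, 53, 59, 62, 64, 66, 68, 70, 76, 84, 86, 90, 129, 135, 145, 151, 153, 159],
    [37, 52, 65, 67, 69, 77, 82, 92, 94, 133, 141, 144, 150, 156, 158],
    [36, 38, 58, 63, 71, 83, 85, 91, 93, 95, 128, 132, 134, 140, 152, 157]]

/-- the contraction -/
def h1 (j : Fin 60) : List (Fin 80 × ℤ) := (h1L.getD j.1 []).map (dc 80)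

/-- the permutations (in base `10`) -/
def PL : List ℕ := [
    43210, 43210, 43210, 43210, 43210, 43210, 43210, 43210, 43210, 43210,
    43210, 43210, 43210, 43210, 43210, 43210, 43210, 4321, 12034, 31402,
    43210, 32104, 43210, 43210, 32104, 43210, 14023, 43210, 43210, 20341,
    43210, 24031, 30142, 43210, 1423, 24031, 43210, 43210, 30142, 43210,
    43210, 1342, 12403, 20134, 43210, 12403, 1342, 20134, 43210, 43210,
    43210, 43210, 43210, 43210, 43210, 43210, 43210, 43210, 43210, 43210,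
    43210, 43210, 43210, 4321, 31402, 43210, 12034, 31402, 43210, 4321,
    12034, 32104, 14023, 43210, 43210, 14023, 20341, 1423, 24031, 43210]

/-- the permutations -/
def pf (i : Fin 80) (x : Fin 5) : Fin 5 := Fin.ofNat 5 (PL.getD i.1 0 / 10 ^ x.1 % 10)

/-- parents -/
def pL : List ℕ := [0, 5, 6, 7, 8, 0, 0, 0, 0, 15, 16, 17, 15, 16, 15, 0, 0, 0, 0, 0, 0]

/-- parents -/
def par (v : Fin 21) : Fin 21 := Fin.ofNat 21 (pL.getD v.1 0)

theorem lt2 : ∀ i, (E i).1 < (E i).2 := by decide +kernel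

theorem inj2 : ∀ i i', E i = E i' → i = i' := by decide +kernel

theorem lt3 : ∀ j, (T j).1 < (T j).2.1 ∧ (T j).2.1 < (T j).2.2 := by decide +kernel

theorem inj3 : ∀ j j', T j = T j' → j = j' := by decide +kernel

theorem triQ : ∀ j, E (Q j).1 = (T j).2 ∧ E (Q j).2.1 = ((T j).1, (T j).2.2) ∧
    E (Q j).2.2 = ((T j).1, (T j).2.1) := by decide +kernel

theorem full' : ∀ i i', (E i).2 = (E i').1 → ∀ i'', E i'' = ((E i).1, (E i').2) →
      ∃ j, T j = ((E i).1, (E i).2, (E i').2) := by decide +kernel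

theorem c0 : ∀ b v, cf (cmp h0 (d1 E b)) v =
    (if v = b then 1 else 0) - (if b = 0 then 1 else 0) := by decide +kernel

theorem c1 : ∀ i i', cf (cmp h1 (d2 E T i) ++ cmp (d1 E) (h0 i)) i' =
    if i' = i then 1 else 0 := by decide +kernel

theorem c2 : ∀ j j', cf (cmp (d2 E T) (h1 j)) j' = if j' = j then 1 else 0 := by
  decide +kernel

theorem con : Con E T 0 h0 h1 :=
  ⟨lt2, inj2, lt3, inj3, fun j => ⟨⟨_, (triQ j).1⟩, ⟨_, (triQ j).2.1⟩, ⟨_, (triQ j).2.2⟩⟩,
    fun i i' i'' h h' => full' i i' h i'' h', c0, c1, c2⟩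

/-- the adjacency of the graph -/
abbrev ad : Fin 21 → Fin 21 → Prop := adE E

theorem acyc : Acyc ad := acyc_of_con con

theorem symm : ∀ a b, ad a b → ad b a := by
  rintro a b ⟨i, h⟩
  exact ⟨i, h.symm⟩

theorem irr : ∀ a, ¬ ad a a := by
  rintro a ⟨i, h | h⟩ <;> · have := lt2 i; rw [h] at this; exact lt_irrefl _ this

theorem par_ad : ∀ v, v = 0 ∨ ∃ i, E i = (v, par v) ∨ E i = (par v, v) := by decide +kernel

theorem par_par : ∀ v, par (par v) = 0 := by decide +kernel

theorem conn0 (a : Fin 21) : Relation.ReflTransGen ad a 0 := by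
  have key : ∀ v, Relation.ReflTransGen ad v (par v) ∨ v = 0 := by
    intro v
    rcases par_ad v with h | h
    · exact Or.inr h
    · exact Or.inl (Relation.ReflTransGen.single h)
  rcases key a with h | h
  · rcases key (par a) with h' | h'
    · rw [par_par] at h'
      exact h.trans h'
    · rw [h'] at h
      exact h
  · rw [h]

theorem rt_symm {a b : Fin 21} (h : Relation.ReflTransGen ad a b) :
    Relation.ReflTransGen ad b a := by
  induction h with
  | refl => exact .refl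
  | tail _ h ih => exact Relation.ReflTransGen.head (symm _ _ h) ih

theorem conn : ∀ a b, Relation.ReflTransGen ad a b := by
  intro a b
  exact (conn0 a).trans (rt_symm (conn0 b))

/-- the levels -/
def lev (v : Fin 21) : ℕ := if v.1 < 5 then 0 else if v.1 < 15 then 1 else 2

theorem lev_ne : ∀ i, lev (E i).1 ≠ lev (E i).2 := by decide +kernel

theorem lev_ad {a b : Fin 21} (h : ad a b) : lev a ≠ lev b := by
  obtain ⟨i, h | h⟩ := h
  · have := lev_ne i
    rw [h] at this
    exact this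
  · have := lev_ne i
    rw [h] at this
    exact this.symm

theorem lev_lt (a : Fin 21) : lev a < 3 := by
  unfold lev
  split_ifs <;> omega

theorem k4 : ∀ a b c d, ad a b → ad a c → ad a d → ad b c → ad b d → ¬ ad c d := by
  intro a b c d h1 h2 h3 h4 h5 h6
  have := lev_ad h1
  have := lev_ad h2
  have := lev_ad h3
  have := lev_ad h4
  have := lev_ad h5
  have := lev_ad h6
  have := lev_lt a
  have := lev_lt b
  have := lev_lt c
  have := lev_lt d
  omega

theorem pf_inj : ∀ i x y, pf i x = pf i y → x = y := by decide +kernel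

/-- the permutations -/
noncomputable def rh (i : Fin 80) : Equiv.Perm (Fin 5) :=
  Equiv.ofBijective (pf i) (Finite.injective_iff_bijective.1 fun x y => pf_inj i x y)

theorem rh_apply (i : Fin 80) (x : Fin 5) : rh i x = pf i x := rfl

theorem pf_coc : ∀ j x, pf (Q j).2.2 (pf (Q j).1 x) = pf (Q j).2.1 x := by decide +kernel

theorem rh_coc (j : Fin 60) : rh (Q j).2.2 * rh (Q j).1 = rh (Q j).2.1 :=
  Equiv.ext fun x => pf_coc j x

/-- the cocycle -/
noncomputable def ga (u v : Fin 21) : Equiv.Perm (Fin 5) :=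
  open Classical in
  if h : ∃ i, E i = (u, v) then rh h.choose else
    if h : ∃ i, E i = (v, u) then (rh h.choose)⁻¹ else 1

theorem ga_lt {i : Fin 80} {u v : Fin 21} (h : E i = (u, v)) : ga u v = rh i := by
  have h' : ∃ i, E i = (u, v) := ⟨i, h⟩
  unfold ga
  rw [dif_pos h']
  congr 1
  exact inj2 _ _ (h'.choose_spec.trans h.symm)

theorem not_lt_of_E {i : Fin 80} {u v : Fin 21} (h : E i = (u, v)) : ¬ ∃ i, E i = (v, u) := by
  rintro ⟨i', h'⟩
  have h1 := lt2 i
  have h2 := lt2 i'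
  rw [h] at h1
  rw [h'] at h2
  exact absurd h1 (not_lt_of_gt h2)

theorem ga_gt {i : Fin 80} {u v : Fin 21} (h : E i = (u, v)) : ga v u = (rh i)⁻¹ := by
  have h' : ∃ i, E i = (u, v) := ⟨i, h⟩
  unfold ga
  rw [dif_neg (not_lt_of_E h), dif_pos h']
  congr 2
  exact inj2 _ _ (h'.choose_spec.trans h.symm)

theorem ga_self (u : Fin 21) : ga u u = 1 := by
  have h : ¬ ∃ i, E i = (u, u) := fun ⟨i, h⟩ => irr u ⟨i, Or.inl h⟩
  unfold ga
  rw [dif_neg h, dif_neg h]

theorem ga_inv {u v : Fin 21} (h : ad u v) : ga v u = (ga u v)⁻¹ := by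
  obtain ⟨i, h | h⟩ := h
  · rw [ga_lt h, ga_gt h]
  · rw [ga_lt h, ga_gt h, inv_inv]

theorem ga_tri {u v w : Fin 21} (h1 : u < v) (h2 : v < w) (h3 : ad u v) (h4 : ad v w)
    (h5 : ad u w) : ga u v * ga v w = ga u w := by
  have key : ∀ {u v : Fin 21}, u < v → ad u v → ∃ i, E i = (u, v) := by
    rintro u v h ⟨i, h' | h'⟩
    · exact ⟨i, h'⟩
    · have := lt2 i
      rw [h'] at this
      exact absurd h (not_lt_of_gt this)
  obtain ⟨i1, e1⟩ := key h1 h3
  obtain ⟨i2, e2⟩ := key h2 h4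
  obtain ⟨i3, e3⟩ := key (h1.trans h2) h5
  obtain ⟨j, hj⟩ := full' i1 i2 (by rw [e1, e2]) i3 (by rw [e1, e2, e3])
  rw [e1, e2] at hj
  obtain ⟨t1, t2, t3⟩ := triQ j
  rw [hj] at t1 t2 t3
  rw [ga_lt t3, ga_lt t1, ga_lt t2]
  exact rh_coc j

theorem flat : Flat ad ga := by
  constructor
  intro u v w huv hvw huw
  rcases huv with rfl | huv
  · rw [ga_self, one_mul]
  rcases hvw with rfl | hvw
  · rw [ga_self, mul_one]
  rcases huw with rfl | huw
  · rw [ga_inv huv, mul_inv_cancel, ga_self]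
  have n1 : u ≠ v := by rintro rfl; exact irr _ huv
  have n2 : v ≠ w := by rintro rfl; exact irr _ hvw
  have n3 : u ≠ w := by rintro rfl; exact irr _ huw
  rcases lt_or_gt_of_ne n1 with h1 | h1
  · rcases lt_or_gt_of_ne n2 with h2 | h2
    · exact ga_tri h1 h2 huv hvw huw
    · rcases lt_or_gt_of_ne n3 with h3 | h3
      · -- u < w < v
        rw [ga_inv (symm _ _ hvw), ← ga_tri h3 h2 huw (symm _ _ hvw) huv, mul_assoc,
          mul_inv_cancel, mul_one]
      · -- w < u < v
        rw [ga_inv (symm _ _ hvw), ← ga_tri h3 h1 (symm _ _ huw) huv (symm _ _ hvw),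
          mul_inv_rev, ga_inv huw, inv_inv, ← mul_assoc, mul_inv_cancel, one_mul]
  · rcases lt_or_gt_of_ne n2 with h2 | h2
    · rcases lt_or_gt_of_ne n3 with h3 | h3
      · -- v < u < w
        rw [ga_inv (symm _ _ huv), ← ga_tri h1 h3 (symm _ _ huv) huw hvw, ← mul_assoc,
          inv_mul_cancel, one_mul]
      · -- v < w < u
        rw [ga_inv (symm _ _ huv), ← ga_tri h2 h3 hvw (symm _ _ huw) (symm _ _ huv),
          mul_inv_rev, mul_assoc, inv_mul_cancel, mul_one, ga_inv (symm _ _ huw)]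
    · -- w < v < u
      rw [ga_inv (symm _ _ huv), ga_inv (symm _ _ hvw), ← mul_inv_rev,
        ga_tri h2 h1 (symm _ _ hvw) (symm _ _ huv) (symm _ _ huw), ga_inv (symm _ _ huw)]

/-- the closed path -/
def cp (k : ℕ) : Fin 21 :=
  match k with
  | 1 => 5
  | 2 => 1
  | 3 => 9
  | 4 => 2
  | 5 => 6
  | _ => 0

theorem e0 : E 0 = (0, 5) := by decide +kernel
theorem e10 : E 10 = (1, 5) := by decide +kernel
theorem e11 : E 11 = (1, 9) := by decide +kernel
theorem e21 : E 21 = (2, 9) := by decide +kernel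
theorem e20 : E 20 = (2, 6) := by decide +kernel
theorem e1 : E 1 = (0, 6) := by decide +kernel

theorem pf_one : ∀ x, pf 0 x = x ∧ pf 10 x = x ∧ pf 11 x = x ∧ pf 20 x = x ∧ pf 1 x = x := by
  decide +kernel

theorem pf_21 : pf 21 0 ≠ 0 := by decide +kernel

theorem cp_path : ∀ i < 6, ad (cp i) (cp (i + 1)) := by
  intro i hi
  interval_cases i
  · exact ⟨0, Or.inl e0⟩
  · exact ⟨10, Or.inr e10⟩
  · exact ⟨11, Or.inl e11⟩
  · exact ⟨21, Or.inr e21⟩
  · exact ⟨20, Or.inl e20⟩
  · exact ⟨1, Or.inr e1⟩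

theorem cp_closed : cp 6 = cp 0 := rfl

theorem cp_hol : ((List.range 6).map (fun i => ga (cp i) (cp (i + 1)))).prod ≠ 1 := by
  have h : ((List.range 6).map (fun i => ga (cp i) (cp (i + 1)))).prod =
      ga 0 5 * (ga 5 1 * (ga 1 9 * (ga 9 2 * (ga 2 6 * (ga 6 0 * 1))))) := rfl
  have r0 : rh 0 = 1 := Equiv.ext fun x => (pf_one x).1
  have r10 : rh 10 = 1 := Equiv.ext fun x => (pf_one x).2.1
  have r11 : rh 11 = 1 := Equiv.ext fun x => (pf_one x).2.2.1
  have r20 : rh 20 = 1 := Equiv.ext fun x => (pf_one x).2.2.2.1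
  have r1 : rh 1 = 1 := Equiv.ext fun x => (pf_one x).2.2.2.2
  rw [h, ga_lt e0, ga_gt e10, ga_lt e11, ga_gt e21, ga_lt e20, ga_gt e1, r0, r10, r11, r20, r1]
  simp only [inv_one, one_mul, mul_one]
  intro h'
  have h2 : rh 21 = 1 := inv_eq_one.1 h'
  apply pf_21
  rw [← rh_apply, h2]
  rfl

end Pool.Agent.T2H50.HC.Gr
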