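import Pool.Agent.Y66.HC.Defs

/-!
# Acyclicity of a clique complex from a contraction given by integer data

MP_3ca9d5_al (S01246)
-/

set_option autoImplicit false

namespace Pool.Agent.T2H50.HC

open Pool.Agent.W326.DU Pool.Agent.Y66.HC

section lc
variable {n m : ℕ} {M : Type} [AddCommGroup M]

/-- linear combinations -/
def ev (x : Fin n → M) (l : List (Fin n × ℤ)) : M := (l.map fun p => p.2 • x p.1).sum

/-- coefficients -/
def cf (l : List (Fin n × ℤ)) (i : Fin n) : ℤ := (l.map fun p => if p.1 = i then p.2 else 0).sum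

/-- composition -/
def cmp (f : Fin n → List (Fin m × ℤ)) (l : List (Fin n × ℤ)) : List (Fin m × ℤ) :=
  l.flatMap fun p => (f p.1).map fun q => (q.1, p.2 * q.2)

theorem ev_nil (x : Fin n → M) : ev x [] = 0 := rfl

theorem ev_cons (x : Fin n → M) (p : Fin n × ℤ) (l : List (Fin n × ℤ)) :
    ev x (p :: l) = p.2 • x p.1 + ev x l := by
  simp [ev]

theorem ev_append (x : Fin n → M) (l l' : List (Fin n × ℤ)) :
    ev x (l ++ l') = ev x l + ev x l' := by
  simp [ev]

theorem ev_eq (x : Fin n → M) (l : List (Fin n × ℤ)) : ev x l = ∑ i, cf l i • x i := by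
  induction l with
  | nil => simp [ev, cf]
  | cons p l ih =>
    have h : ∀ i, cf (p :: l) i = (if p.1 = i then p.2 else 0) + cf l i := by
      intro i; simp [cf]
    rw [ev_cons, ih]
    simp only [h, add_smul, Finset.sum_add_distrib]
    congr 1
    simp [ite_smul]

theorem ev_scale (x : Fin n → M) (c : ℤ) (l : List (Fin n × ℤ)) :
    ev x (l.map fun q => (q.1, c * q.2)) = c • ev x l := by
  induction l with
  | nil => simp [ev]
  | cons p l ih => rw [List.map_cons, ev_cons, ih, ev_cons, smul_add, mul_smul]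

theorem ev_cmp (x : Fin m → M) (f : Fin n → List (Fin m × ℤ)) (l : List (Fin n × ℤ)) :
    ev x (cmp f l) = ev (fun i => ev x (f i)) l := by
  induction l with
  | nil => rfl
  | cons p l ih =>
    have h : cmp f (p :: l) = ((f p.1).map fun q => (q.1, p.2 * q.2)) ++ cmp f l := by
      simp [cmp]
    rw [h, ev_append, ih, ev_scale, ev_cons]

theorem ev_single (x : Fin n → M) (l : List (Fin n × ℤ)) (i : Fin n)
    (h : ∀ j, cf l j = if j = i then 1 else 0) : ev x l = x i := by
  rw [ev_eq]
  simp [h]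

theorem ev_zero (l : List (Fin n × ℤ)) : ev (fun _ : Fin n => (0 : M)) l = 0 := by
  rw [ev_eq]; simp

theorem ev_filter (x : Fin n → M) (p : Fin n → Prop) [DecidablePred p] (c : ℤ)
    (L : List (Fin n)) :
    ev x ((L.filter (fun i => p i)).map fun i => (i, c)) =
      (L.map fun i => if p i then c • x i else 0).sum := by
  induction L with
  | nil => rfl
  | cons a L ih =>
    by_cases h : p a
    · rw [List.filter_cons_of_pos (by simpa using h), List.map_cons, ev_cons, ih]
      simp [h]
    · rw [List.filter_cons_of_neg (by simpa using h), ih]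
      simp [h]

theorem ev_filter' (x : Fin n → M) (p : Fin n → Prop) [DecidablePred p] (c : ℤ) :
    ev x (((List.finRange n).filter (fun i => p i)).map fun i => (i, c)) =
      ∑ i, if p i then c • x i else 0 := by
  rw [ev_filter]
  rw [← List.ofFn_eq_map, List.sum_ofFn]

end lc

section cx
variable {N n m : ℕ} (E : Fin n → Fin N × Fin N) (T : Fin m → Fin N × Fin N × Fin N)

theorem ite_aux {M : Type} [AddCommGroup M] (P Q R : Prop) [Decidable P] [Decidable Q]
    [Decidable R] (z : M) :
    (if P then (1 : ℤ) • z else 0) + ((if Q then (-1 : ℤ) • z else 0) +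
      (if R then (1 : ℤ) • z else 0)) =
    ((if P then (1 : ℤ) else 0) - (if Q then 1 else 0) + (if R then 1 else 0)) • z := by
  by_cases hP : P <;> by_cases hQ : Q <;> by_cases hR : R <;> simp [hP, hQ, hR, two_smul]

/-- adjacency -/
def adE (a b : Fin N) : Prop := ∃ i, E i = (a, b) ∨ E i = (b, a)

/-- the edges at a vertex -/
def d1 (b : Fin N) : List (Fin n × ℤ) :=
  (((List.finRange n).filter (fun i => (E i).2 = b)).map fun i => (i, 1)) ++
    (((List.finRange n).filter (fun i => (E i).1 = b)).map fun i => (i, -1))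

/-- the triangles at an edge -/
def d2 (i : Fin n) : List (Fin m × ℤ) :=
  (((List.finRange m).filter (fun j => E i = (T j).2)).map fun j => (j, 1)) ++
    ((((List.finRange m).filter (fun j => E i = ((T j).1, (T j).2.2))).map fun j => (j, -1)) ++
    (((List.finRange m).filter (fun j => E i = ((T j).1, (T j).2.1))).map fun j => (j, 1)))

/-- the alternating function of an ordered pair -/
def s2 (p : Fin N × Fin N) (a b : Fin N) : ℤ :=
  (if p = (a, b) then 1 else 0) - (if p = (b, a) then 1 else 0)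

/-- the alternating function of an ordered triple -/
def s3 (t : Fin N × Fin N × Fin N) (a b c : Fin N) : ℤ :=
  (if t = (a, b, c) then 1 else 0) - (if t = (a, c, b) then 1 else 0)
  + (if t = (b, c, a) then 1 else 0) - (if t = (b, a, c) then 1 else 0)
  + (if t = (c, a, b) then 1 else 0) - (if t = (c, b, a) then 1 else 0)

theorem s2_swap (p : Fin N × Fin N) (a b : Fin N) : s2 p a b = - s2 p b a := by
  unfold s2; ring

theorem s3_swap1 (t : Fin N × Fin N × Fin N) (a b c : Fin N) : s3 t a b c = - s3 t b a c := by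
  unfold s3; ring

theorem s3_swap2 (t : Fin N × Fin N × Fin N) (a b c : Fin N) : s3 t a b c = - s3 t a c b := by
  unfold s3; ring

theorem sum_s2 (p : Fin N × Fin N) (b : Fin N) :
    ∑ a, s2 p a b = (if p.2 = b then 1 else 0) - (if p.1 = b then 1 else 0) := by
  obtain ⟨u, v⟩ := p
  simp only [s2, Finset.sum_sub_distrib]
  congr 1
  · by_cases h : v = b
    · subst h; simp
    · simp [h]
  · by_cases h : u = b
    · subst h; simp
    · simp [h]

theorem sum_s3 (t : Fin N × Fin N × Fin N) (b c : Fin N) :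
    ∑ a, s3 t a b c = s2 t.2 b c - s2 (t.1, t.2.2) b c + s2 (t.1, t.2.1) b c := by
  obtain ⟨u, v, w⟩ := t
  have k : ∀ (x y z : Fin N) (p q r : Fin N) (g : Fin N → Prop) [DecidablePred g], True := by
    intros; trivial
  simp only [s3, Finset.sum_add_distrib, Finset.sum_sub_distrib, s2]
  have e1 : (∑ a, if (u, v, w) = (a, b, c) then (1 : ℤ) else 0) =
      if (v, w) = (b, c) then 1 else 0 := by
    by_cases h : (v, w) = (b, c)
    · rw [if_pos h]
      obtain ⟨rfl, rfl⟩ := Prod.mk.injEq .. ▸ h
      simp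
    · rw [if_neg h]
      apply Finset.sum_eq_zero
      intro a _
      rw [if_neg]
      intro h'
      exact h (Prod.mk.injEq .. ▸ h').2
  have e2 : (∑ a, if (u, v, w) = (a, c, b) then (1 : ℤ) else 0) =
      if (v, w) = (c, b) then 1 else 0 := by
    by_cases h : (v, w) = (c, b)
    · rw [if_pos h]
      obtain ⟨rfl, rfl⟩ := Prod.mk.injEq .. ▸ h
      simp
    · rw [if_neg h]
      apply Finset.sum_eq_zero
      intro a _
      rw [if_neg]
      intro h'
      exact h (Prod.mk.injEq .. ▸ h').2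
  have e3 : (∑ a, if (u, v, w) = (b, c, a) then (1 : ℤ) else 0) =
      if (u, v) = (b, c) then 1 else 0 := by
    by_cases h : (u, v) = (b, c)
    · rw [if_pos h]
      obtain ⟨rfl, rfl⟩ := Prod.mk.injEq .. ▸ h
      simp
    · rw [if_neg h]
      apply Finset.sum_eq_zero
      intro a _
      rw [if_neg]
      intro h'
      apply h
      simp only [Prod.mk.injEq] at h' ⊢
      exact ⟨h'.1, h'.2.1⟩
  have e4 : (∑ a, if (u, v, w) = (b, a, c) then (1 : ℤ) else 0) =
      if (u, w) = (b, c) then 1 else 0 := by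
    by_cases h : (u, w) = (b, c)
    · rw [if_pos h]
      obtain ⟨rfl, rfl⟩ := Prod.mk.injEq .. ▸ h
      simp
    · rw [if_neg h]
      apply Finset.sum_eq_zero
      intro a _
      rw [if_neg]
      intro h'
      apply h
      simp only [Prod.mk.injEq] at h' ⊢
      exact ⟨h'.1, h'.2.2⟩
  have e5 : (∑ a, if (u, v, w) = (c, a, b) then (1 : ℤ) else 0) =
      if (u, w) = (c, b) then 1 else 0 := by
    by_cases h : (u, w) = (c, b)
    · rw [if_pos h]
      obtain ⟨rfl, rfl⟩ := Prod.mk.injEq .. ▸ h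
      simp
    · rw [if_neg h]
      apply Finset.sum_eq_zero
      intro a _
      rw [if_neg]
      intro h'
      apply h
      simp only [Prod.mk.injEq] at h' ⊢
      exact ⟨h'.1, h'.2.2⟩
  have e6 : (∑ a, if (u, v, w) = (c, b, a) then (1 : ℤ) else 0) =
      if (u, v) = (c, b) then 1 else 0 := by
    by_cases h : (u, v) = (c, b)
    · rw [if_pos h]
      obtain ⟨rfl, rfl⟩ := Prod.mk.injEq .. ▸ h
      simp
    · rw [if_neg h]
      apply Finset.sum_eq_zero
      intro a _
      rw [if_neg]
      intro h'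
      apply h
      simp only [Prod.mk.injEq] at h' ⊢
      exact ⟨h'.1, h'.2.1⟩
  rw [e1, e2, e3, e4, e5, e6]
  ring

/-- The data of a contraction. -/
structure Con (r : Fin N) (h0 : Fin n → List (Fin N × ℤ)) (h1 : Fin m → List (Fin n × ℤ)) :
    Prop where
  lt2 : ∀ i, (E i).1 < (E i).2
  inj2 : ∀ i i', E i = E i' → i = i'
  lt3 : ∀ j, (T j).1 < (T j).2.1 ∧ (T j).2.1 < (T j).2.2
  inj3 : ∀ j j', T j = T j' → j = j'
  tri : ∀ j, (∃ i, E i = (T j).2) ∧ (∃ i, E i = ((T j).1, (T j).2.2)) ∧
    ∃ i, E i = ((T j).1, (T j).2.1)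
  full : ∀ i i' i'', (E i).2 = (E i').1 → E i'' = ((E i).1, (E i').2) →
    ∃ j, T j = ((E i).1, (E i).2, (E i').2)
  c0 : ∀ b v, cf (cmp h0 (d1 E b)) v = (if v = b then 1 else 0) - (if b = r then 1 else 0)
  c1 : ∀ i i', cf (cmp h1 (d2 E T i) ++ cmp (d1 E) (h0 i)) i' = if i' = i then 1 else 0
  c2 : ∀ j j', cf (cmp (d2 E T) (h1 j)) j' = if j' = j then 1 else 0

variable {E T}

theorem ev_d1 {M : Type} [AddCommGroup M] (Y : Fin n → M) (b : Fin N) :
    ev Y (d1 E b) = ∑ a, ∑ i, s2 (E i) a b • Y i := by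
  rw [Finset.sum_comm]
  simp only [← Finset.sum_smul, sum_s2]
  rw [d1, ev_append, ev_filter', ev_filter', ← Finset.sum_add_distrib]
  apply Finset.sum_congr rfl
  intro i _
  by_cases h : (E i).2 = b <;> by_cases h' : (E i).1 = b <;> simp [h, h']

theorem ev_d2 {M : Type} [AddCommGroup M] (Z : Fin m → M)
    (hE : ∀ i, (E i).1 < (E i).2) (hT : ∀ j, (T j).1 < (T j).2.1 ∧ (T j).2.1 < (T j).2.2)
    (i : Fin n) :
    ev Z (d2 E T i) = ∑ a, ∑ j, s3 (T j) a (E i).1 (E i).2 • Z j := by
  rw [Finset.sum_comm]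
  simp only [← Finset.sum_smul, sum_s3]
  rw [d2, ev_append, ev_append, ev_filter', ev_filter', ev_filter', ← Finset.sum_add_distrib,
    ← Finset.sum_add_distrib]
  apply Finset.sum_congr rfl
  intro j _
  have sw : ∀ p : Fin N × Fin N, p.1 < p.2 → s2 p (E i).1 (E i).2 = if E i = p then 1 else 0 := by
    intro p hp
    unfold s2
    have h1 : ¬ p = ((E i).2, (E i).1) := by
      intro h
      rw [h] at hp
      exact absurd hp (not_lt_of_gt (hE i))
    rw [if_neg h1, sub_zero]
    by_cases h : E i = p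
    · rw [if_pos h, if_pos h.symm]
    · rw [if_neg h, if_neg (fun h' => h h'.symm)]
  rw [sw _ (hT j).2, sw _ ((hT j).1.trans (hT j).2), sw _ (hT j).1]
  exact ite_aux _ _ _ (Z j)

theorem alt2_rep {M : Type} [AddCommGroup M] (hE : ∀ i, (E i).1 < (E i).2)
    (hi : ∀ i i', E i = E i' → i = i') (y : Fin N → Fin N → M)
    (hy : IsAlt2 (adE E) Set.univ y) (a b : Fin N) :
    y a b = ∑ i, s2 (E i) a b • y (E i).1 (E i).2 := by
  have key : ∀ a b, (∃ i, E i = (a, b)) → y a b = ∑ i, s2 (E i) a b • y (E i).1 (E i).2 := by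
    rintro a b ⟨i, hi'⟩
    rw [Finset.sum_eq_single i]
    · have : s2 (E i) a b = 1 := by
        unfold s2
        rw [if_pos hi', if_neg, sub_zero]
        intro h
        have h1 := hE i
        rw [hi'] at h h1
        simp only [Prod.mk.injEq] at h
        exact absurd h1 (by rw [h.1]; exact lt_irrefl _)
      rw [this, hi', one_smul]
    · intro i' _ hne
      have : s2 (E i') a b = 0 := by
        unfold s2
        rw [if_neg, if_neg, sub_zero]
        · intro h
          have h1 := hE i
          have h2 := hE i'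
          rw [hi'] at h1
          rw [h] at h2
          exact absurd h1 (not_lt_of_gt h2)
        · intro h
          exact hne (hi _ _ (h.trans hi'.symm))
      rw [this, zero_smul]
    · intro h; exact absurd (Finset.mem_univ _) h
  by_cases h1 : ∃ i, E i = (a, b)
  · exact key a b h1
  by_cases h2 : ∃ i, E i = (b, a)
  · rw [hy.1 a b, key b a h2, ← Finset.sum_neg_distrib]
    apply Finset.sum_congr rfl
    intro i _
    rw [s2_swap _ a b, neg_smul]
  have h3 : y a b = 0 := by
    apply hy.2
    rintro ⟨-, -, i, h | h⟩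
    · exact h1 ⟨i, h⟩
    · exact h2 ⟨i, h⟩
  rw [h3]
  symm
  apply Finset.sum_eq_zero
  intro i _
  have : s2 (E i) a b = 0 := by
    unfold s2
    rw [if_neg (fun h => h1 ⟨i, h⟩), if_neg (fun h => h2 ⟨i, h⟩), sub_zero]
  rw [this, zero_smul]

theorem alt3_rep {M : Type} [AddCommGroup M] (hE : ∀ i, (E i).1 < (E i).2)
    (hT : ∀ j, (T j).1 < (T j).2.1 ∧ (T j).2.1 < (T j).2.2)
    (hi : ∀ j j', T j = T j' → j = j')
    (hfull : ∀ i i' i'', (E i).2 = (E i').1 → E i'' = ((E i).1, (E i').2) →
      ∃ j, T j = ((E i).1, (E i).2, (E i').2)) (z : Fin N → Fin N → Fin N → M)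
    (hz : IsAlt3 (adE E) Set.univ z) (a b c : Fin N) :
    z a b c = ∑ j, s3 (T j) a b c • z (T j).1 (T j).2.1 (T j).2.2 := by
  set F : Fin N → Fin N → Fin N → M := fun a b c =>
    ∑ j, s3 (T j) a b c • z (T j).1 (T j).2.1 (T j).2.2 with hF
  show z a b c = F a b c
  have f1 : ∀ a b c, F a b c = - F b a c := by
    intro a b c
    simp only [hF]
    rw [← Finset.sum_neg_distrib]
    apply Finset.sum_congr rfl
    intro j _
    rw [s3_swap1, neg_smul]
  have f2 : ∀ a b c, F a b c = - F a c b := by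
    intro a b c
    simp only [hF]
    rw [← Finset.sum_neg_distrib]
    apply Finset.sum_congr rfl
    intro j _
    rw [s3_swap2, neg_smul]
  -- sorted triples
  have sorted : ∀ a b c, a < b → b < c → z a b c = F a b c := by
    intro a b c hab hbc
    have s3v : ∀ j, s3 (T j) a b c = if T j = (a, b, c) then 1 else 0 := by
      intro j
      have h1 := (hT j).1
      have h2 := (hT j).2
      unfold s3
      have n1 : ¬ T j = (a, c, b) := by
        intro h; rw [h] at h2; exact absurd h2 (not_lt_of_gt hbc)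
      have n2 : ¬ T j = (b, c, a) := by
        intro h; rw [h] at h2; exact absurd h2 (not_lt_of_gt (hab.trans hbc))
      have n3 : ¬ T j = (b, a, c) := by
        intro h; rw [h] at h1; exact absurd h1 (not_lt_of_gt hab)
      have n4 : ¬ T j = (c, a, b) := by
        intro h; rw [h] at h1; exact absurd h1 (not_lt_of_gt (hab.trans hbc))
      have n5 : ¬ T j = (c, b, a) := by
        intro h; rw [h] at h1; exact absurd h1 (not_lt_of_gt hbc)
      rw [if_neg n1, if_neg n2, if_neg n3, if_neg n4, if_neg n5]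
      ring
    by_cases h : ∃ j, T j = (a, b, c)
    · obtain ⟨j, hj⟩ := h
      simp only [hF, s3v]
      rw [Finset.sum_eq_single j]
      · rw [if_pos hj, hj, one_smul]
      · intro j' _ hne
        rw [if_neg (fun h => hne (hi _ _ (h.trans hj.symm))), zero_smul]
      · intro h; exact absurd (Finset.mem_univ _) h
    · have h0 : z a b c = 0 := by
        apply hz.2.2
        rintro ⟨-, -, -, ⟨i, hi1⟩, ⟨i', hi2⟩, ⟨i'', hi3⟩⟩
        have e1 : E i = (a, b) := by
          rcases hi1 with h | h
          · exact h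
          · have := hE i; rw [h] at this; exact absurd this (not_lt_of_gt hab)
        have e2 : E i' = (b, c) := by
          rcases hi2 with h | h
          · exact h
          · have := hE i'; rw [h] at this; exact absurd this (not_lt_of_gt hbc)
        have e3 : E i'' = (a, c) := by
          rcases hi3 with h | h
          · exact h
          · have := hE i''; rw [h] at this; exact absurd this (not_lt_of_gt (hab.trans hbc))
        obtain ⟨j, hj⟩ := hfull i i' i'' (by rw [e1, e2]) (by rw [e1, e2, e3])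
        rw [e1, e2] at hj
        exact h ⟨j, hj⟩
      rw [h0]
      symm
      simp only [hF, s3v]
      apply Finset.sum_eq_zero
      intro j _
      rw [if_neg (fun h' => h ⟨j, h'⟩), zero_smul]
  have z1 := hz.1
  have z2 := hz.2.1
  -- degenerate triples
  have zd : ∀ a b, z a a b = 0 ∧ z a b b = 0 ∧ z a b a = 0 := by
    intro a b
    have irr : ∀ a, ¬ adE E a a := by
      rintro a ⟨i, h | h⟩ <;> · have := hE i; rw [h] at this; exact lt_irrefl _ this
    refine ⟨hz.2.2 _ _ _ ?_, hz.2.2 _ _ _ ?_, hz.2.2 _ _ _ ?_⟩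
    · rintro ⟨-, -, -, h, -, -⟩; exact irr _ h
    · rintro ⟨-, -, -, -, h, -⟩; exact irr _ h
    · rintro ⟨-, -, -, -, -, h⟩; exact irr _ h
  have fd : ∀ a b, F a a b = 0 ∧ F a b b = 0 ∧ F a b a = 0 := by
    intro a b
    have ne : ∀ j, (T j).1 ≠ (T j).2.1 ∧ (T j).2.1 ≠ (T j).2.2 ∧ (T j).1 ≠ (T j).2.2 := fun j =>
      ⟨(hT j).1.ne, (hT j).2.ne, ((hT j).1.trans (hT j).2).ne⟩
    refine ⟨?_, ?_, ?_⟩
    · simp only [hF]
      apply Finset.sum_eq_zero
      intro j _
      have : s3 (T j) a a b = 0 := by unfold s3; ring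
      rw [this, zero_smul]
    · simp only [hF]
      apply Finset.sum_eq_zero
      intro j _
      have : s3 (T j) a b b = 0 := by unfold s3; ring
      rw [this, zero_smul]
    · simp only [hF]
      apply Finset.sum_eq_zero
      intro j _
      have : s3 (T j) a b a = 0 := by unfold s3; ring
      rw [this, zero_smul]
  rcases lt_trichotomy a b with hab | rfl | hab
  · rcases lt_trichotomy b c with hbc | rfl | hbc
    · exact sorted a b c hab hbc
    · rw [(zd a b).2.1, (fd a b).2.1]
    · rcases lt_trichotomy a c with hac | rfl | hac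
      · rw [z2 a b c, f2 a b c, sorted a c b hac hbc]
      · rw [(zd a b).2.2, (fd a b).2.2]
      · rw [z2 a b c, f2 a b c, z1 a c b, f1 a c b, sorted c a b hac hab]
  · rw [(zd a c).1, (fd a c).1]
  · rcases lt_trichotomy a c with hac | rfl | hac
    · rw [z1 a b c, f1 a b c, sorted b a c hab hac]
    · rw [(zd a b).2.2, (fd a b).2.2]
    · rcases lt_trichotomy b c with hbc | rfl | hbc
      · rw [z1 a b c, f1 a b c, z2 b a c, f2 b a c, sorted b c a hbc hac]
      · rw [(zd a b).2.1, (fd a b).2.1]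
      · rw [z1 a b c, f1 a b c, z2 b a c, f2 b a c, z1 b c a, f1 b c a, sorted c b a hbc hab]

theorem alt2_mk {M : Type} [AddCommGroup M] (Y : Fin n → M) :
    IsAlt2 (adE E) Set.univ (fun a b => ∑ i, s2 (E i) a b • Y i) := by
  refine ⟨fun a b => ?_, fun a b h => ?_⟩
  · rw [← Finset.sum_neg_distrib]
    apply Finset.sum_congr rfl
    intro i _
    rw [s2_swap, neg_smul]
  · apply Finset.sum_eq_zero
    intro i _
    have : s2 (E i) a b = 0 := by
      unfold s2
      rw [if_neg (fun h' => h ⟨trivial, trivial, i, Or.inl h'⟩),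
        if_neg (fun h' => h ⟨trivial, trivial, i, Or.inr h'⟩), sub_zero]
    rw [this, zero_smul]

theorem alt3_mk {M : Type} [AddCommGroup M]
    (htri : ∀ j, (∃ i, E i = (T j).2) ∧ (∃ i, E i = ((T j).1, (T j).2.2)) ∧
      ∃ i, E i = ((T j).1, (T j).2.1)) (Z : Fin m → M) :
    IsAlt3 (adE E) Set.univ (fun a b c => ∑ j, s3 (T j) a b c • Z j) := by
  refine ⟨fun a b c => ?_, fun a b c => ?_, fun a b c h => ?_⟩
  · rw [← Finset.sum_neg_distrib]
    apply Finset.sum_congr rfl
    intro i _
    rw [s3_swap1, neg_smul]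
  · rw [← Finset.sum_neg_distrib]
    apply Finset.sum_congr rfl
    intro i _
    rw [s3_swap2, neg_smul]
  · apply Finset.sum_eq_zero
    intro j _
    have key : ∀ x y z : Fin N, T j = (x, y, z) → adE E x y ∧ adE E y z ∧ adE E x z := by
      intro x y z hj
      obtain ⟨⟨i1, h1⟩, ⟨i2, h2⟩, ⟨i3, h3⟩⟩ := htri j
      rw [hj] at h1 h2 h3
      exact ⟨⟨i3, Or.inl h3⟩, ⟨i1, Or.inl h1⟩, ⟨i2, Or.inl h2⟩⟩
    have sy : ∀ {x y : Fin N}, adE E x y → adE E y x := fun ⟨i, hi⟩ => ⟨i, hi.symm⟩
    have : s3 (T j) a b c = 0 := by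
      unfold s3
      rw [if_neg, if_neg, if_neg, if_neg, if_neg, if_neg]
      · ring
      · intro h'
        obtain ⟨k1, k2, k3⟩ := key _ _ _ h'
        exact h ⟨trivial, trivial, trivial, sy k2, sy k1, sy k3⟩
      · intro h'
        obtain ⟨k1, k2, k3⟩ := key _ _ _ h'
        exact h ⟨trivial, trivial, trivial, k2, sy k3, sy k1⟩
      · intro h'
        obtain ⟨k1, k2, k3⟩ := key _ _ _ h'
        exact h ⟨trivial, trivial, trivial, sy k1, k3, k2⟩
      · intro h'
        obtain ⟨k1, k2, k3⟩ := key _ _ _ h'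
        exact h ⟨trivial, trivial, trivial, sy k3, k1, sy k2⟩
      · intro h'
        obtain ⟨k1, k2, k3⟩ := key _ _ _ h'
        exact h ⟨trivial, trivial, trivial, k3, sy k2, k1⟩
      · intro h'
        obtain ⟨k1, k2, k3⟩ := key _ _ _ h'
        exact h ⟨trivial, trivial, trivial, k1, k2, k3⟩
    rw [this, zero_smul]

theorem acyc_of_con {r : Fin N} {h0 : Fin n → List (Fin N × ℤ)}
    {h1 : Fin m → List (Fin n × ℤ)} (H : Con E T r h0 h1) : Acyc (adE E) := by
  refine ⟨?_, ?_, ?_⟩
  · intro M _ x hx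
    refine ⟨fun a b => ∑ i, s2 (E i) a b • ev x (h0 i), alt2_mk _, fun b => ?_⟩
    rw [← ev_d1, ← ev_cmp, ev_eq]
    simp only [H.c0, sub_smul, Finset.sum_sub_distrib]
    rw [← Finset.smul_sum, hx]
    simp [ite_smul]
  · intro M _ y hy h
    set Y : Fin n → M := fun i => y (E i).1 (E i).2 with hY
    have hrep := alt2_rep H.lt2 H.inj2 y hy
    have hd : ∀ b, ev Y (d1 E b) = 0 := by
      intro b
      rw [ev_d1, ← h b]
      exact Finset.sum_congr rfl fun a _ => (hrep a b).symm
    refine ⟨fun a b c => ∑ j, s3 (T j) a b c • ev Y (h1 j), alt3_mk H.tri _, ?_⟩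
    have key : ∀ i, Y i = ∑ a, ∑ j, s3 (T j) a (E i).1 (E i).2 • ev Y (h1 j) := by
      intro i
      rw [← ev_d2 _ H.lt2 H.lt3, ← ev_cmp]
      have e1 : ev Y (cmp (d1 E) (h0 i)) = 0 := by
        rw [ev_cmp]
        simp only [hd]
        exact ev_zero _
      have e2 := ev_single Y (cmp h1 (d2 E T i) ++ cmp (d1 E) (h0 i)) i (H.c1 i)
      rw [ev_append, e1, add_zero] at e2
      exact e2.symm
    intro b c
    have z3 := alt3_mk H.tri (fun j => ev Y (h1 j))
    by_cases e1 : ∃ i, E i = (b, c)
    · obtain ⟨i, hi⟩ := e1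
      have := key i
      simp only [hY, hi] at this
      exact this
    by_cases e2 : ∃ i, E i = (c, b)
    · obtain ⟨i, hi⟩ := e2
      have := key i
      simp only [hY, hi] at this
      rw [hy.1 b c, this, ← Finset.sum_neg_distrib]
      exact Finset.sum_congr rfl fun a _ => (z3.2.1 a b c).symm
    have n : ¬ adE E b c := by
      rintro ⟨i, h | h⟩
      · exact e1 ⟨i, h⟩
      · exact e2 ⟨i, h⟩
    rw [hy.2 b c (fun h => n h.2.2)]
    symm
    exact Finset.sum_eq_zero fun a _ => z3.2.2 a b c (fun h => n h.2.2.2.2.1)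
  · intro M _ z hz h
    have hrep := alt3_rep H.lt2 H.lt3 H.inj3 H.full z hz
    set Z : Fin m → M := fun j => z (T j).1 (T j).2.1 (T j).2.2 with hZ
    have hd : ∀ i, ev Z (d2 E T i) = 0 := by
      intro i
      rw [ev_d2 _ H.lt2 H.lt3, ← h (E i).1 (E i).2]
      exact Finset.sum_congr rfl fun a _ => (hrep a _ _).symm
    have hz0 : ∀ j, Z j = 0 := by
      intro j
      rw [← ev_single Z _ j (H.c2 j), ev_cmp]
      simp only [hd]
      exact ev_zero _
    intro a b c
    rw [hrep a b c]
    apply Finset.sum_eq_zero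
    intro j _
    have : z (T j).1 (T j).2.1 (T j).2.2 = 0 := hz0 j
    rw [this, smul_zero]

end cx

end Pool.Agent.T2H50.HC
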