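import Pool.Agent.Y448.HC.Aug
import Pool.Agent.Helper158.Bridge

/-!
# Relation modules and the condition `FPc`

MP_3ca9d5_al (S01246)
-/

set_option autoImplicit false

open CategoryTheory

namespace Pool.Agent.T2H50.HC

open Pool.Agent.W326.DU Pool.Agent.Y66.HC Pool.Agent.Y448.HC Pool.Agent.Helper158

/-- exactness in `Rep` at the level of elements -/
theorem exact_elt {k G : Type} [CommRing k] [Group G] (S : ShortComplex (Rep.{0} k G))
    (hS : S.Exact) (x : S.X₂) (hx : S.g.hom x = 0) : ∃ y : S.X₁, S.f.hom y = x := by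
  have h := hS.map (forget₂ (Rep k G) (ModuleCat k))
  rw [ShortComplex.moduleCat_exact_iff] at h
  exact h x hx

section
variable {G : Type} [Group G]

theorem m1 {ι : Type} [Fintype ι] (x : ι → G) (hx : Subgroup.closure (Set.range x) = ⊤)
    (h : FPc 2 G) : (RM x).FG := by
  classical
  obtain ⟨R, hR⟩ := h
  let F0 : Rep ℤ G := FMk ℤ (G := G) (ZG G)
  let F1 : Rep ℤ G := FMk ℤ (G := G) (ι → ZG G)
  let fx : F1 ⟶ F0 := lhom (fox x)
  let ep : F0 ⟶ Rep.trivial ℤ G ℤ := mkHom (k := ℤ) (G := G) (augm G).toIntLinearMap (by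
    intro g y
    change augm G (MonoidAlgebra.of ℤ G g * y) = augm G y
    rw [augm_mul, augm_of, one_mul])
  have : Projective F0 := inferInstanceAs (Projective (FMk ℤ (G := G) (ZG G)))
  have : Projective F1 := inferInstanceAs (Projective (FMk ℤ (G := G) (ι → ZG G)))
  have : Epi ep := (Rep.epi_iff_surjective _).2 augm_surj
  have hfe : fx ≫ ep = 0 := by
    apply Rep.hom_ext
    apply DFunLike.ext
    intro c
    exact augm_fox x c
  have ex : (ShortComplex.mk fx ep hfe).Exact :=
    rep_exact _ (fun y hy => (fox_exact x hx y).1 hy)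
  let π0 : R.complex.X 0 ⟶ Rep.trivial ℤ G ℤ := R.π.f 0
  have : Epi π0 := inferInstanceAs (Epi (R.π.f 0))
  let f0 : R.complex.X 0 ⟶ F0 := Projective.factorThru π0 ep
  let g0 : F0 ⟶ R.complex.X 0 := Projective.factorThru ep π0
  have hf0 : f0 ≫ ep = π0 := Projective.factorThru_comp π0 ep
  have hg0 : g0 ≫ π0 = ep := Projective.factorThru_comp ep π0
  have hdπ : R.complex.d 1 0 ≫ π0 = 0 := R.complex_d_comp_π_f_zero
  have hc1 : (R.complex.d 1 0 ≫ f0) ≫ ep = 0 := by
    rw [Category.assoc, hf0, hdπ]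
  let f1 : R.complex.X 1 ⟶ F1 := ex.liftFromProjective (R.complex.d 1 0 ≫ f0) hc1
  have hf1 : f1 ≫ fx = R.complex.d 1 0 ≫ f0 := ex.liftFromProjective_comp _ _
  have hc2 : (fx ≫ g0) ≫ π0 = 0 := by
    rw [Category.assoc, hg0, hfe]
  let g1 : F1 ⟶ R.complex.X 1 := R.exact₀.liftFromProjective (fx ≫ g0) hc2
  have hg1 : g1 ≫ R.complex.d 1 0 = fx ≫ g0 := R.exact₀.liftFromProjective_comp _ _
  have hc3 : (g0 ≫ f0 - 𝟙 F0) ≫ ep = 0 := by
    rw [Preadditive.sub_comp, Category.assoc, hf0, hg0, Category.id_comp, sub_self]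
  let h0 : F0 ⟶ F1 := ex.liftFromProjective (g0 ≫ f0 - 𝟙 F0) hc3
  have hh0 : h0 ≫ fx = g0 ≫ f0 - 𝟙 F0 := ex.liftFromProjective_comp _ _
  let th : F1 ⟶ F1 := g1 ≫ f1 - 𝟙 F1 - fx ≫ h0
  have hth : th ≫ fx = 0 := by
    change (g1 ≫ f1 - 𝟙 F1 - fx ≫ h0) ≫ fx = 0
    rw [Preadditive.sub_comp, Preadditive.sub_comp, Category.assoc, hf1, ← Category.assoc, hg1,
      Category.assoc fx h0 fx, hh0, Preadditive.comp_sub, Category.id_comp, Category.comp_id,
      Category.assoc]
    abel
  let ph : R.complex.X 2 ⟶ F1 := R.complex.d 2 1 ≫ f1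
  have hph : ph ≫ fx = 0 := by
    change (R.complex.d 2 1 ≫ f1) ≫ fx = 0
    rw [Category.assoc, hf1, ← Category.assoc, R.complex.d_comp_d, Limits.zero_comp]
  obtain ⟨s, hs⟩ := hR 2 le_rfl
  have e_ph : ∀ z : R.complex.X 2, fox x (ph.hom z) = 0 := fun z =>
    congrArg (fun f : R.complex.X 2 ⟶ F0 => f.hom z) hph
  have e_th : ∀ c : F1, fox x (th.hom c) = 0 := fun z =>
    congrArg (fun f : F1 ⟶ F0 => f.hom z) hth
  have e_th2 : ∀ c : F1, th.hom c = f1.hom (g1.hom c) - c - h0.hom (fx.hom c) := fun c => rfl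
  have e_ph2 : ∀ z : R.complex.X 2, ph.hom z = f1.hom ((R.complex.d 2 1).hom z) := fun z => rfl
  let thl : (ι → ZG G) →ₗ[ZG G] (ι → ZG G) := mkLin (th.hom.toLinearMap) (by
    intro g c
    exact Rep.hom_comm_apply th g c)
  let X : Set (ι → ZG G) := (fun z => ph.hom z) '' (s : Set (R.complex.X 2).V) ∪
    Set.range (fun i => thl (Pi.single i 1))
  have hX : X.Finite := (s.finite_toSet.image _).union (Set.finite_range _)
  have hph3 : ∀ z : R.complex.X 2, ph.hom z ∈ Submodule.span (ZG G) X := by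
    intro z
    refine Submodule.span_induction (p := fun z _ => ph.hom z ∈ Submodule.span (ZG G) X)
      ?_ ?_ ?_ ?_ (hs z)
    · rintro _ ⟨⟨g, y⟩, rfl⟩
      have h1 : ph.hom ((R.complex.X 2).ρ g (y : (R.complex.X 2).V)) =
          MonoidAlgebra.of ℤ G g • (ph.hom (y : (R.complex.X 2).V) : ι → ZG G) :=
        Rep.hom_comm_apply ph g _
      change ph.hom ((R.complex.X 2).ρ g (y : (R.complex.X 2).V)) ∈ _
      rw [h1]
      exact Submodule.smul_mem _ _ (Submodule.subset_span (Or.inl ⟨_, y.2, rfl⟩))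
    · rw [map_zero]
      exact Submodule.zero_mem _
    · intro a b _ _ ha hb
      rw [map_add]
      exact Submodule.add_mem _ ha hb
    · intro a b _ hb
      rw [map_zsmul]
      exact Submodule.smul_of_tower_mem _ a hb
  have hth3 : ∀ c : ι → ZG G, thl c ∈ Submodule.span (ZG G) X := by
    intro c
    have h1 : c = ∑ i, c i • (Pi.single i (1 : ZG G) : ι → ZG G) := by
      exact (pi_eq_sum_univ' c)
    rw [h1, map_sum]
    refine Submodule.sum_mem _ fun i _ => ?_
    rw [map_smul]
    exact Submodule.smul_mem _ _ (Submodule.subset_span (Or.inr ⟨i, rfl⟩))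
  refine Submodule.fg_def.2 ⟨X, hX, le_antisymm (Submodule.span_le.2 ?_) ?_⟩
  · rintro _ (⟨z, _, rfl⟩ | ⟨i, rfl⟩)
    · exact e_ph z
    · exact e_th _
  · intro c hc
    have hc0 : fox x c = 0 := hc
    have hfx : fx.hom c = 0 := hc0
    have h1 : (R.complex.d 1 0).hom (g1.hom c) = 0 := by
      have h2 : (R.complex.d 1 0).hom (g1.hom c) = g0.hom (fx.hom c) :=
        congrArg (fun f : F1 ⟶ R.complex.X 0 => f.hom c) hg1
      rw [h2, hfx, map_zero]
    obtain ⟨z, hz⟩ := exact_elt _ (R.exact_succ 0) (g1.hom c) h1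
    have hz' : (R.complex.d 2 1).hom z = g1.hom c := hz
    have h3 : c = (ph.hom z : ι → ZG G) - thl c := by
      have h4 : thl c = th.hom c := rfl
      rw [h4, e_th2, hfx, map_zero, e_ph2, hz', sub_zero, sub_sub_cancel]
    rw [h3]
    exact Submodule.sub_mem _ (hph3 z) (hth3 c)

theorem fin_span (M : Type) [AddCommGroup M] [Module (ZG G) M] [Module.Finite (ZG G) M] :
    ∃ s : Finset M, ∀ x : M, x ∈ Submodule.span ℤ
      (Set.range fun p : G × s => MonoidAlgebra.of ℤ G p.1 • (p.2 : M)) := by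
  obtain ⟨s, hs⟩ := (Module.Finite.fg_top : (⊤ : Submodule (ZG G) M).FG)
  refine ⟨s, fun x => ?_⟩
  have hx : x ∈ Submodule.span (ZG G) (s : Set M) := by rw [hs]; trivial
  induction hx using Submodule.span_induction with
  | mem x hx =>
    refine Submodule.subset_span ⟨(1, ⟨x, hx⟩), ?_⟩
    change MonoidAlgebra.of ℤ G 1 • x = x
    rw [map_one, one_smul]
  | zero => exact Submodule.zero_mem _
  | add x y _ _ hx hy => exact Submodule.add_mem _ hx hy
  | smul a x _ hx =>
    induction a using MonoidAlgebra.induction_on with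
    | of g =>
      clear * - hx
      induction hx using Submodule.span_induction with
      | mem x hx =>
        obtain ⟨⟨h, y⟩, rfl⟩ := hx
        refine Submodule.subset_span ⟨(g * h, y), ?_⟩
        change MonoidAlgebra.of ℤ G (g * h) • (y : M) =
          MonoidAlgebra.of ℤ G g • MonoidAlgebra.of ℤ G h • (y : M)
        rw [map_mul, mul_smul]
      | zero => rw [smul_zero]; exact Submodule.zero_mem _
      | add x y _ _ hx hy => rw [smul_add]; exact Submodule.add_mem _ hx hy
      | smul n x _ hx =>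
        rw [smul_comm]
        exact Submodule.smul_mem _ _ hx
    | add a b ha hb => rw [add_smul]; exact Submodule.add_mem _ ha hb
    | smul n a ha =>
      rw [smul_assoc]
      exact Submodule.smul_mem _ _ ha

theorem fpc_of_reso {P : ℕ → Type} [∀ i, AddCommGroup (P i)]
    [∀ i, Module (MonoidAlgebra ℤ G) (P i)] {d : ∀ i, P (i + 1) →ₗ[MonoidAlgebra ℤ G] P i}
    {ε : P 0 →+ ℤ} (h : Reso P d ε) [∀ i, Module.Projective (MonoidAlgebra ℤ G) (P i)] (m : ℕ)
    (hf : ∀ k ≤ m, Module.Finite (MonoidAlgebra ℤ G) (P k)) : FPc m G := by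
  refine ⟨h.pr, fun k hk => ?_⟩
  have := hf k hk
  obtain ⟨s, hs⟩ := fin_span (G := G) (P k)
  exact ⟨s, fun x => hs x⟩

/-- a map between modules -/
structure St (A : Type) [Ring A] where
  M : ModuleCat.{0} A
  N : ModuleCat.{0} A
  f : M →ₗ[A] N

/-- the free cover of the kernel -/
noncomputable def St.next {A : Type} [Ring A] (s : St A) : St A :=
  ⟨ModuleCat.of A (LinearMap.ker s.f →₀ A), s.M,
    Finsupp.linearCombination A (Subtype.val : LinearMap.ker s.f → s.M)⟩

theorem St.next_range {A : Type} [Ring A] (s : St A) (y : s.M) :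
    s.f y = 0 ↔ y ∈ LinearMap.range s.next.f := by
  change _ ↔ y ∈ LinearMap.range
    (Finsupp.linearCombination A (Subtype.val : LinearMap.ker s.f → s.M))
  rw [Finsupp.range_linearCombination, Subtype.range_coe_subtype]
  change _ ↔ y ∈ Submodule.span A (LinearMap.ker s.f : Set s.M)
  rw [Submodule.span_eq]
  rfl

/-- the sequence of free covers -/
noncomputable def sq {A : Type} [Ring A] (s : St A) : ℕ → St A
  | 0 => s
  | n + 1 => (sq s n).next

variable {ι : Type} [Fintype ι]

/-- the modules -/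
noncomputable def PM (G ι : Type) [Group G] (s : St (ZG G)) : ℕ → ModuleCat.{0} (ZG G)
  | 0 => ModuleCat.of (ZG G) (ZG G)
  | 1 => ModuleCat.of (ZG G) (ι → ZG G)
  | n + 2 => (sq s n).M

/-- the differentials -/
noncomputable def dM (x : ι → G) (n : ℕ) (f : (Fin n → ZG G) →ₗ[ZG G] (ι → ZG G)) :
    ∀ i, PM G ι ⟨ModuleCat.of _ (Fin n → ZG G), ModuleCat.of _ (ι → ZG G), f⟩ (i + 1) →ₗ[ZG G]
      PM G ι ⟨ModuleCat.of _ (Fin n → ZG G), ModuleCat.of _ (ι → ZG G), f⟩ i
  | 0 => fox x
  | 1 => f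
  | i + 2 => (sq ⟨ModuleCat.of _ (Fin n → ZG G), ModuleCat.of _ (ι → ZG G), f⟩ (i + 1)).f

theorem m2 (x : ι → G) (hx : Subgroup.closure (Set.range x) = ⊤) (h : (RM x).FG) :
    FPc 2 G := by
  classical
  obtain ⟨n, v, hv⟩ := Submodule.fg_iff_exists_fin_generating_family.1 h
  let f : (Fin n → ZG G) →ₗ[ZG G] (ι → ZG G) := Fintype.linearCombination (ZG G) v
  have hf : LinearMap.range f = RM x := by
    rw [Fintype.range_linearCombination, hv]
  let s : St (ZG G) := ⟨ModuleCat.of _ (Fin n → ZG G), ModuleCat.of _ (ι → ZG G), f⟩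
  have hR : Reso (G := G) (fun i => (PM G ι s i : Type)) (dM x n f) (augm G) := by
    refine ⟨augm_surj, ?_, ?_, ?_⟩
    · intro g (y : ZG G)
      change augm G (MonoidAlgebra.of ℤ G g * y) = augm G y
      rw [augm_mul, augm_of, one_mul]
    · intro y
      exact fox_exact x hx y
    · intro i
      match i with
      | 0 =>
        intro y
        change fox x y = 0 ↔ y ∈ LinearMap.range f
        rw [hf]
        rfl
      | 1 =>
        intro y
        exact s.next_range y
      | i + 2 =>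
        intro y
        exact (sq s (i + 1)).next_range y
  have hp : ∀ i, Module.Projective (ZG G) (PM G ι s i) := by
    intro i
    match i with
    | 0 => exact inferInstanceAs (Module.Projective (ZG G) (ZG G))
    | 1 => exact inferInstanceAs (Module.Projective (ZG G) (ι → ZG G))
    | 2 => exact inferInstanceAs (Module.Projective (ZG G) (Fin n → ZG G))
    | i + 3 => exact inferInstanceAs (Module.Projective (ZG G) (LinearMap.ker (sq s i).f →₀ ZG G))
  refine fpc_of_reso hR 2 ?_
  intro k hk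
  match k with
  | 0 => exact inferInstanceAs (Module.Finite (ZG G) (ZG G))
  | 1 => exact inferInstanceAs (Module.Finite (ZG G) (ι → ZG G))
  | 2 => exact inferInstanceAs (Module.Finite (ZG G) (Fin n → ZG G))
  | i + 3 => omega

end

end Pool.Agent.T2H50.HC
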