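import Pool.Agent.T2H50.HC.Slab
import Pool.Agent.T2H50.HC.Hom
import Pool.Agent.T2H50.HC.Acy
import Pool.Agent.T2H50.HC.Nfp
import Pool.Agent.W304.DU.EX
import Pool.Agent.W304.DU.RG
import Pool.Agent.W326.DU.Sub
import Pool.Agent.W571.DU.BC

/-!
# The kernel of the height is of type `FP_3`

MP_3ca9d5_al (S01246)
-/

set_option autoImplicit false

namespace Pool.Agent.T2H50.HC

open Pool.Agent.W326.DU Pool.Agent.Y66.HC Pool.Agent.Y448.HC Pool.Agent.W490.DU
  Pool.Agent.Helper158

section grade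
variable {V : Type} (ad : V → V → Prop)

/-- right multiplication by an element of the group -/
noncomputable def rg {G : Type} [Group G] (g : G) : ZG G ≃+ ZG G where
  toFun x := x * MonoidAlgebra.of ℤ G g
  invFun x := x * MonoidAlgebra.of ℤ G g⁻¹
  left_inv x := by
    change x * MonoidAlgebra.of ℤ G g * MonoidAlgebra.of ℤ G g⁻¹ = x
    rw [mul_assoc, ← map_mul, mul_inv_cancel, map_one, mul_one]
  right_inv x := by
    change x * MonoidAlgebra.of ℤ G g⁻¹ * MonoidAlgebra.of ℤ G g = x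
    rw [mul_assoc, ← map_mul, inv_mul_cancel, map_one, mul_one]
  map_add' x y := add_mul _ _ _

theorem rg_apply {G : Type} [Group G] (g : G) (x : ZG G) :
    rg g x = x * MonoidAlgebra.of ℤ G g := rfl

theorem rg_coeff {G : Type} [Group G] (g : G) (x : ZG G) (a : G) :
    (rg g x).coeff a = x.coeff (a * g⁻¹) := by
  rw [rg_apply, MonoidAlgebra.of_apply, MonoidAlgebra.coeff_mul_single_apply, mul_one]

/-- the inclusion of the group rings -/
noncomputable def jj : ZG (BB ad) →+* ZG (RAAG ad) :=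
  MonoidAlgebra.mapDomainRingHom ℤ (Subgroup.subtype (ht ad).ker)

theorem jj_of (h : BB ad) : jj ad (MonoidAlgebra.of ℤ _ h) = MonoidAlgebra.of ℤ _ (h : RAAG ad) := by
  simp [jj, MonoidAlgebra.of_apply]

theorem jj_coeff (c : ZG (BB ad)) (h : BB ad) : (jj ad c).coeff (h : RAAG ad) = c.coeff h := by
  rw [jj, MonoidAlgebra.mapDomainRingHom_apply, MonoidAlgebra.coeff_mapDomain]
  exact Finsupp.mapDomain_apply (Subtype.val_injective) _ _

theorem jj_coeff' (c : ZG (BB ad)) (g : RAAG ad) (hg : g ∉ (ht ad).ker) :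
    (jj ad c).coeff g = 0 := by
  rw [jj, MonoidAlgebra.mapDomainRingHom_apply, MonoidAlgebra.coeff_mapDomain]
  apply Finsupp.mapDomain_of_notMem_range
  rintro ⟨h, rfl⟩
  exact hg h.2

theorem mem_ker_iff (g : RAAG ad) : g ∈ (ht ad).ker ↔ hgt ad g = 0 := by
  rw [MonoidHom.mem_ker, hgt, ← toAdd_one, Multiplicative.toAdd.injective.eq_iff]

theorem hgt_zpow (x : RAAG ad) (n : ℤ) : hgt ad (x ^ n) = n * hgt ad x := by
  unfold hgt
  rw [map_zpow, toAdd_zpow, smul_eq_mul]

variable (v0 : V)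

/-- the inclusion at the height `n` -/
noncomputable def ii (n : ℤ) : ZG (BB ad) →+ ZG (RAAG ad) :=
  (rg (gen ad v0 ^ n)).toAddMonoidHom.comp (jj ad).toAddMonoidHom

theorem ii_apply (n : ℤ) (c : ZG (BB ad)) :
    ii ad v0 n c = jj ad c * MonoidAlgebra.of ℤ _ (gen ad v0 ^ n) := rfl

/-- the component at the height `n` -/
noncomputable def ee (n : ℤ) : ZG (RAAG ad) →+ ZG (BB ad) :=
  MonoidAlgebra.comapDomainAddMonoidHom (fun h : BB ad => (h : RAAG ad) * gen ad v0 ^ n)
    (fun _ _ hab => Subtype.val_injective (mul_right_cancel hab))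

theorem ee_coeff (n : ℤ) (x : ZG (RAAG ad)) (h : BB ad) :
    (ee ad v0 n x).coeff h = x.coeff ((h : RAAG ad) * gen ad v0 ^ n) := rfl

theorem ii_coeff (n : ℤ) (c : ZG (BB ad)) (g : RAAG ad) :
    (ii ad v0 n c).coeff g = (jj ad c).coeff (g * (gen ad v0 ^ n)⁻¹) := rg_coeff _ _ _

theorem ee_ii (m n : ℤ) (c : ZG (BB ad)) :
    ee ad v0 m (ii ad v0 n c) = if m = n then c else 0 := by
  apply MonoidAlgebra.ext
  ext h
  rw [ee_coeff, ii_coeff]
  split_ifs with hmn
  · subst hmn
    rw [mul_inv_cancel_right, jj_coeff]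
  · rw [jj_coeff']
    · rfl
    · rw [mem_ker_iff, hgt_mul, hgt_mul, hgt_inv, hgt_zpow, hgt_zpow, hgt_gen,
        (mem_ker_iff ad _).1 h.2]
      omega

/-- the projection to the height `n` -/
noncomputable def PP (n : ℤ) : ZG (RAAG ad) →+ ZG (RAAG ad) := (ii ad v0 n).comp (ee ad v0 n)

theorem PP_apply (n : ℤ) (x : ZG (RAAG ad)) : PP ad v0 n x = ii ad v0 n (ee ad v0 n x) := rfl

theorem PP_coeff (n : ℤ) (x : ZG (RAAG ad)) (g : RAAG ad) :
    (PP ad v0 n x).coeff g = if hgt ad g = n then x.coeff g else 0 := by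
  rw [PP_apply, ii_coeff]
  have hh : hgt ad (g * (gen ad v0 ^ n)⁻¹) = hgt ad g - n := by
    rw [hgt_mul, hgt_inv, hgt_zpow, hgt_gen]
    ring
  split_ifs with h
  · have hk : g * (gen ad v0 ^ n)⁻¹ ∈ (ht ad).ker := by
      rw [mem_ker_iff, hh, h, sub_self]
    have := jj_coeff ad (ee ad v0 n x) ⟨_, hk⟩
    rw [ee_coeff] at this
    change (jj ad (ee ad v0 n x)).coeff (g * (gen ad v0 ^ n)⁻¹) =
      x.coeff (g * (gen ad v0 ^ n)⁻¹ * gen ad v0 ^ n) at this
    rw [this, inv_mul_cancel_right]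
  · apply jj_coeff'
    rw [mem_ker_iff, hh]
    omega

theorem ee_PP (n : ℤ) (x : ZG (RAAG ad)) : ee ad v0 n (PP ad v0 n x) = ee ad v0 n x := by
  rw [PP_apply, ee_ii, if_pos rfl]

/-- the grading -/
theorem gra : Gra ad (PP ad v0) (fun v => rg (gen ad v)) := by
  refine ⟨?_, ?_, ?_, ?_, ?_, ?_⟩
  · intro a b hab x
    simp only [rg_apply]
    rw [mul_assoc, mul_assoc, ← map_mul, ← map_mul, gen_comm ad hab]
  · intro n v x
    apply MonoidAlgebra.ext
    ext g
    rw [PP_coeff, rg_coeff, rg_coeff, PP_coeff]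
    have : hgt ad (g * (gen ad v)⁻¹) = hgt ad g - 1 := by
      rw [hgt_mul, hgt_inv, hgt_gen]; ring
    rw [this]
    by_cases h : hgt ad g = n + 1
    · rw [if_pos h, if_pos (by omega)]
    · rw [if_neg h, if_neg (by omega)]
  · intro n x
    apply MonoidAlgebra.ext
    ext g
    rw [PP_coeff, PP_coeff]
    split_ifs <;> rfl
  · intro n m hnm x
    apply MonoidAlgebra.ext
    ext g
    rw [PP_coeff, PP_coeff]
    by_cases h : hgt ad g = n
    · rw [if_pos h, if_neg (by omega)]; rfl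
    · rw [if_neg h]; rfl
  · intro x hx
    apply MonoidAlgebra.ext
    ext g
    have := congrArg (fun y => y.coeff g) (hx (hgt ad g))
    simp only [PP_coeff, if_true] at this
    exact this
  · intro x
    classical
    refine ⟨x.coeff.support.sup (fun g => (hgt ad g).natAbs), fun n hn => ?_⟩
    apply MonoidAlgebra.ext
    ext g
    rw [PP_coeff]
    split_ifs with h
    · by_contra hne
      have hg : g ∈ x.coeff.support := Finsupp.mem_support_iff.2 hne
      have h1 := Finset.le_sup (f := fun g => (hgt ad g).natAbs) hg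
      have h2 : ((hgt ad g).natAbs : ℤ) = |hgt ad g| := Int.natCast_natAbs _
      have h3 : ((x.coeff.support.sup (fun g => (hgt ad g).natAbs) : ℕ) : ℤ) < |hgt ad g| := by
        rw [h]; exact hn
      rw [← h2] at h3
      exact absurd h1 (not_le_of_gt (by exact_mod_cast h3))
    · rfl

/-- the conjugates of the generators -/
def hv (n : ℤ) (v : V) : BB ad := ⟨gen ad v0 ^ n * gen ad v * (gen ad v0 ^ (n + 1))⁻¹, by
  rw [mem_ker_iff, hgt_mul, hgt_mul, hgt_inv, hgt_zpow, hgt_zpow, hgt_gen, hgt_gen]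
  ring⟩

theorem Ro_ii (n : ℤ) (v : V) (c : ZG (BB ad)) :
    Ro (fun v => rg (gen ad v)) v (ii ad v0 n c) =
      ii ad v0 (n + 1) (c * MonoidAlgebra.of ℤ _ (hv ad v0 n v)) - ii ad v0 n c := by
  rw [Ro_apply]
  congr 1
  rw [rg_apply, ii_apply, ii_apply, map_mul, jj_of, mul_assoc, mul_assoc, ← map_mul, ← map_mul]
  congr 2
  change gen ad v0 ^ n * gen ad v =
    gen ad v0 ^ n * gen ad v * (gen ad v0 ^ (n + 1))⁻¹ * gen ad v0 ^ (n + 1)
  rw [inv_mul_cancel_right]

end grade

section reg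
variable {V : Type} (ad : V → V → Prop)

/-- the family -/
noncomputable abbrev rr (v : V) : ZG (RAAG ad) ≃+ ZG (RAAG ad) := rg (gen ad v)

theorem Ro_rr (v : V) (x : ZG (RAAG ad)) :
    Ro (rr ad) v x = x * (MonoidAlgebra.of ℤ _ (gen ad v) - 1) := by
  rw [Ro_apply, rg_apply, mul_sub, mul_one]

theorem mem_Im_rr (S : Set V) (x : ZG (RAAG ad)) :
    x ∈ Im (Ro (rr ad)) S ↔ x ∈ IL ℤ (gen ad '' S) := by
  constructor
  · intro h
    have hle : Im (Ro (rr ad)) S ≤ (IL ℤ (gen ad '' S)).toAddSubgroup := by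
      refine iSup_le fun v => iSup_le fun hv => ?_
      rintro _ ⟨z, rfl⟩
      rw [Ro_rr]
      exact Submodule.smul_mem _ z (Submodule.subset_span ⟨gen ad v, ⟨v, hv, rfl⟩, rfl⟩)
    exact hle h
  · intro h
    refine Submodule.span_induction (p := fun x _ => x ∈ Im (Ro (rr ad)) S) ?_ ?_ ?_ ?_ h
    · rintro _ ⟨_, ⟨v, hv, rfl⟩, rfl⟩
      refine (le_iSup_of_le v (le_iSup_of_le hv le_rfl) :
        (Ro (rr ad) v).range ≤ Im (Ro (rr ad)) S) ⟨1, ?_⟩
      rw [Ro_rr, one_mul]
    · exact zero_mem _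
    · intro x y _ _ hx hy
      exact add_mem hx hy
    · intro a x _ hx
      have hle : (Im (Ro (rr ad)) S).map (AddMonoidHom.mulLeft a) ≤ Im (Ro (rr ad)) S := by
        unfold Im
        rw [AddSubgroup.map_iSup]
        refine iSup_le fun v => ?_
        rw [AddSubgroup.map_iSup]
        refine iSup_le fun hv => ?_
        refine le_trans ?_ (le_iSup_of_le v (le_iSup_of_le hv le_rfl))
        rintro _ ⟨_, ⟨z, rfl⟩, rfl⟩
        refine ⟨a * z, ?_⟩
        rw [Ro_rr, Ro_rr]
        change (a * z) * (MonoidAlgebra.of ℤ _ (gen ad v) - 1)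
          = a * (z * (MonoidAlgebra.of ℤ _ (gen ad v) - 1))
        rw [mul_assoc]
      exact hle ⟨x, hx, rfl⟩

theorem reg_rr (hsymm : ∀ a b, ad a b → ad b a) (hirr : ∀ a, ¬ ad a a) :
    Reg ad (Ro (rr ad)) := by
  constructor
  · intro a b hab x
    simp only [Ro_apply, map_sub, rg_apply]
    rw [mul_assoc x, mul_assoc x, ← map_mul, ← map_mul, gen_comm ad hab]
    abel
  · intro S v hv x hx
    rw [mem_Im_rr] at hx ⊢
    let W' : Type := {w : V // w ∈ S ∨ w = v}
    let ad' : W' → W' → Prop := fun a b => ad a.1 b.1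
    obtain ⟨F, hF, hFi⟩ := sub_th V W' ad ad' (fun w => w.1) Subtype.val_injective
      (fun a b => Iff.rfl)
    let v' : W' := ⟨v, Or.inr rfl⟩
    have hst := Pool.Agent.W571.DU.BC.th ℤ (RAAG ad') (RAAG ad) F hFi _ _ _
      (Pool.Agent.W304.DU.RG.th ℤ W' ad' (fun a b h => hsymm _ _ h) (fun a h => hirr _ h) v')
    have e1 : F '' (gen ad' '' {w | w ≠ v'}) = gen ad '' S := by
      ext g
      constructor
      · rintro ⟨_, ⟨w, hw, rfl⟩, rfl⟩
        refine ⟨w.1, ?_, (hF w).symm⟩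
        rcases w.2 with h | h
        · exact h
        · exact absurd (Subtype.ext h) hw
      · rintro ⟨w, hw, rfl⟩
        refine ⟨_, ⟨⟨w, Or.inl hw⟩, ?_, rfl⟩, hF _⟩
        intro h
        have : w = v := congrArg Subtype.val h
        exact hv (this ▸ hw)
    have e2 : F '' (gen ad' '' {w | ad' w v'}) = gen ad '' {w | w ∈ S ∧ ad w v} := by
      ext g
      constructor
      · rintro ⟨_, ⟨w, hw, rfl⟩, rfl⟩
        have hw' : ad w.1 v := hw
        refine ⟨w.1, ⟨?_, hw'⟩, (hF w).symm⟩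
        rcases w.2 with h | h
        · exact h
        · rw [h] at hw'
          exact absurd hw' (hirr v)
      · rintro ⟨w, ⟨hw, hwv⟩, rfl⟩
        exact ⟨_, ⟨⟨w, Or.inl hw⟩, hwv, rfl⟩, hF _⟩
    rw [e1, e2, hF] at hst
    apply hst
    rw [Ro_rr] at hx
    exact hx

end reg

section res
variable {N n : ℕ} (E : Fin n → Fin N × Fin N) (v0 : Fin N)

/-- the group ring of the kernel -/
abbrev ZH : Type := ZG (BB (adE E))

/-- 0-chains -/
noncomputable def J0 (c : ZH E × ZH E × ZH E) : ZG (RAAG (adE E)) :=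
  ii (adE E) v0 0 c.1 + ii (adE E) v0 1 c.2.1 + ii (adE E) v0 2 c.2.2

/-- 1-chains -/
noncomputable def J1 (x : (Fin N → ZH E) × (Fin N → ZH E)) (v : Fin N) : ZG (RAAG (adE E)) :=
  ii (adE E) v0 0 (x.1 v) + ii (adE E) v0 1 (x.2 v)

/-- 2-chains -/
noncomputable def J2 (y : Fin n → ZH E) (a b : Fin N) : ZG (RAAG (adE E)) :=
  ∑ i, s2 (E i) a b • ii (adE E) v0 0 (y i)

/-- the differential -/
noncomputable def D0 : ((Fin N → ZH E) × (Fin N → ZH E)) →ₗ[ZH E] (ZH E × ZH E × ZH E) where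
  toFun x := (- ∑ v, x.1 v,
    ∑ v, (x.1 v * MonoidAlgebra.of ℤ _ (hv (adE E) v0 0 v) - x.2 v),
    ∑ v, x.2 v * MonoidAlgebra.of ℤ _ (hv (adE E) v0 1 v))
  map_add' x y := by
    refine Prod.ext ?_ (Prod.ext ?_ ?_)
    · simp only [Prod.fst_add, Pi.add_apply, Finset.sum_add_distrib]
      abel
    · simp only [Prod.fst_add, Prod.snd_add, Pi.add_apply, add_mul, Finset.sum_add_distrib,
        Finset.sum_sub_distrib]
      abel
    · simp only [Prod.snd_add, Pi.add_apply, add_mul, Finset.sum_add_distrib]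
  map_smul' a x := by
    refine Prod.ext ?_ (Prod.ext ?_ ?_)
    · simp only [Prod.smul_fst, Pi.smul_apply, RingHom.id_apply, smul_neg, Finset.smul_sum]
    · simp only [Prod.smul_fst, Prod.smul_snd, Pi.smul_apply, RingHom.id_apply, smul_eq_mul,
        Finset.mul_sum, mul_sub, mul_assoc]
    · simp only [Prod.smul_snd, Pi.smul_apply, RingHom.id_apply, smul_eq_mul, Finset.mul_sum,
        mul_assoc]

/-- the differential -/
noncomputable def D1 : (Fin n → ZH E) →ₗ[ZH E] ((Fin N → ZH E) × (Fin N → ZH E)) where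
  toFun y := (fun b => - ∑ a, ∑ i, s2 (E i) a b • y i,
    fun b => ∑ a, (∑ i, s2 (E i) a b • y i) * MonoidAlgebra.of ℤ _ (hv (adE E) v0 0 a))
  map_add' x y := by
    refine Prod.ext (funext fun b => ?_) (funext fun b => ?_)
    · simp only [Prod.fst_add, Pi.add_apply, smul_add, Finset.sum_add_distrib]
      abel
    · simp only [Prod.snd_add, Pi.add_apply, smul_add, Finset.sum_add_distrib, add_mul]
  map_smul' a x := by
    refine Prod.ext (funext fun b => ?_) (funext fun b => ?_)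
    · simp only [Prod.smul_fst, Pi.smul_apply, RingHom.id_apply, smul_neg, Finset.smul_sum]
      congr 1
      refine Finset.sum_congr rfl fun c _ => Finset.sum_congr rfl fun i _ => ?_
      rw [smul_comm]
    · simp only [Prod.smul_snd, Pi.smul_apply, RingHom.id_apply, Finset.smul_sum]
      refine Finset.sum_congr rfl fun c _ => ?_
      rw [smul_eq_mul, ← mul_assoc, Finset.mul_sum]
      congr 1
      refine Finset.sum_congr rfl fun i _ => ?_
      rw [smul_eq_mul, mul_smul_comm]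

theorem J0_D0 (x : (Fin N → ZH E) × (Fin N → ZH E)) :
    J0 E v0 (D0 E v0 x) = ∑ v, Ro (rr (adE E)) v (J1 E v0 x v) := by
  have e : ∀ v, Ro (rr (adE E)) v (J1 E v0 x v) =
      - ii (adE E) v0 0 (x.1 v) +
      (ii (adE E) v0 1 (x.1 v * MonoidAlgebra.of ℤ _ (hv (adE E) v0 0 v)) -
        ii (adE E) v0 1 (x.2 v)) +
      ii (adE E) v0 2 (x.2 v * MonoidAlgebra.of ℤ _ (hv (adE E) v0 1 v)) := by
    intro v
    have e0 := Ro_ii (adE E) v0 0 v (x.1 v)
    have e1 := Ro_ii (adE E) v0 1 v (x.2 v)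
    rw [zero_add] at e0
    rw [show (1 : ℤ) + 1 = 2 from rfl] at e1
    rw [J1, map_add, e0, e1]
    abel
  simp only [e, Finset.sum_add_distrib]
  change ii (adE E) v0 0 (- ∑ v, x.1 v) +
    ii (adE E) v0 1 (∑ v, (x.1 v * MonoidAlgebra.of ℤ _ (hv (adE E) v0 0 v) - x.2 v)) +
    ii (adE E) v0 2 (∑ v, x.2 v * MonoidAlgebra.of ℤ _ (hv (adE E) v0 1 v)) = _
  simp only [map_neg, map_sum, map_sub, Finset.sum_neg_distrib]

theorem J1_D1 (y : Fin n → ZH E) (b : Fin N) :
    J1 E v0 (D1 E v0 y) b = ∑ a, Ro (rr (adE E)) a (J2 E v0 y a b) := by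
  have h2 : ∀ a b, J2 E v0 y a b = ii (adE E) v0 0 (∑ i, s2 (E i) a b • y i) := by
    intro a b
    rw [map_sum]
    exact Finset.sum_congr rfl fun i _ => (map_zsmul _ _ _).symm
  have e : ∀ a, Ro (rr (adE E)) a (J2 E v0 y a b) =
      ii (adE E) v0 1 ((∑ i, s2 (E i) a b • y i) * MonoidAlgebra.of ℤ _ (hv (adE E) v0 0 a)) -
      ii (adE E) v0 0 (∑ i, s2 (E i) a b • y i) := by
    intro a
    have e0 := Ro_ii (adE E) v0 0 a (∑ i, s2 (E i) a b • y i)
    rw [zero_add] at e0
    rw [h2, e0]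
  simp only [e, Finset.sum_sub_distrib]
  change ii (adE E) v0 0 (- ∑ a, ∑ i, s2 (E i) a b • y i) + ii (adE E) v0 1
    (∑ a, (∑ i, s2 (E i) a b • y i) * MonoidAlgebra.of ℤ _ (hv (adE E) v0 0 a)) = _
  rw [map_neg, map_sum, map_sum (ii (adE E) v0 1)]
  abel

theorem J0_inj {c : ZH E × ZH E × ZH E} (h : J0 E v0 c = 0) : c = 0 := by
  have key : ∀ m : ℤ, ee (adE E) v0 m (J0 E v0 c) = 0 := fun m => by rw [h, map_zero]
  simp only [J0, map_add, ee_ii] at key
  have k0 := key 0
  have k1 := key 1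
  have k2 := key 2
  norm_num at k0 k1 k2
  exact Prod.ext k0 (Prod.ext k1 k2)

theorem J1_inj {x : (Fin N → ZH E) × (Fin N → ZH E)} (h : ∀ v, J1 E v0 x v = 0) : x = 0 := by
  have key : ∀ (m : ℤ) v, ee (adE E) v0 m (J1 E v0 x v) = 0 := fun m v => by rw [h, map_zero]
  simp only [J1, map_add, ee_ii] at key
  have k0 := key 0
  have k1 := key 1
  norm_num at k0 k1
  exact Prod.ext (funext k0) (funext k1)

theorem ii_sl (m lo hi : ℤ) (h1 : lo ≤ m) (h2 : m ≤ hi) (c : ZH E) :
    ii (adE E) v0 m c ∈ Sl (PP (adE E) v0) lo hi := by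
  intro k hk
  rw [PP_apply, ee_ii, if_neg (by omega), map_zero]

theorem J0_sl (c : ZH E × ZH E × ZH E) : J0 E v0 c ∈ Sl (PP (adE E) v0) 0 2 :=
  add_mem (add_mem (ii_sl E v0 _ _ _ (by norm_num) (by norm_num) _)
    (ii_sl E v0 _ _ _ (by norm_num) (by norm_num) _))
    (ii_sl E v0 _ _ _ (by norm_num) (by norm_num) _)

theorem J1_sl (x : (Fin N → ZH E) × (Fin N → ZH E)) (v : Fin N) :
    J1 E v0 x v ∈ Sl (PP (adE E) v0) 0 1 :=
  add_mem (ii_sl E v0 _ _ _ (by norm_num) (by norm_num) _)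
    (ii_sl E v0 _ _ _ (by norm_num) (by norm_num) _)

theorem J2_sl (y : Fin n → ZH E) (a b : Fin N) :
    J2 E v0 y a b ∈ Sl (PP (adE E) v0) 0 0 :=
  sum_mem fun _ _ => zsmul_mem (ii_sl E v0 _ _ _ (by norm_num) (by norm_num) _) _

theorem sl_ext {lo hi : ℤ} {x y : ZG (RAAG (adE E))} (hx : x ∈ Sl (PP (adE E) v0) lo hi)
    (hy : y ∈ Sl (PP (adE E) v0) lo hi)
    (h : ∀ m, lo ≤ m → m ≤ hi → ee (adE E) v0 m x = ee (adE E) v0 m y) : x = y := by
  rw [← sub_eq_zero]
  apply (gra (adE E) v0).ext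
  intro m
  by_cases hm : lo ≤ m ∧ m ≤ hi
  · rw [PP_apply, map_sub, h m hm.1 hm.2, sub_self, map_zero]
  · rw [map_sub, hx m (by omega), hy m (by omega), sub_zero]

theorem J1_surj (y : Fin N → ZG (RAAG (adE E))) (hy : ∀ v, y v ∈ Sl (PP (adE E) v0) 0 1) :
    ∃ x, ∀ v, J1 E v0 x v = y v := by
  refine ⟨(fun v => ee (adE E) v0 0 (y v), fun v => ee (adE E) v0 1 (y v)), fun v => ?_⟩
  refine sl_ext E v0 (J1_sl E v0 _ v) (hy v) fun m h1 h2 => ?_
  rw [J1, map_add, ee_ii, ee_ii]
  obtain rfl | rfl : m = 0 ∨ m = 1 := by omega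
  · norm_num
  · norm_num

variable {E}
variable (hE : ∀ i, (E i).1 < (E i).2) (hi : ∀ i i', E i = E i' → i = i')

theorem adE_symm : ∀ a b, adE E a b → adE E b a := by
  rintro a b ⟨i, h⟩
  exact ⟨i, h.symm⟩

include hE in
theorem adE_irr : ∀ a, ¬ adE E a a := by
  rintro a ⟨i, h | h⟩ <;> · have := hE i; rw [h] at this; exact lt_irrefl _ this

include hE hi in
theorem J2_surj (y : Fin N → Fin N → ZG (RAAG (adE E))) (hya : IsAlt2 (adE E) Set.univ y)
    (hy : ∀ a b, y a b ∈ Sl (PP (adE E) v0) 0 0) :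
    ∃ x, ∀ a b, J2 E v0 x a b = y a b := by
  refine ⟨fun i => ee (adE E) v0 0 (y (E i).1 (E i).2), fun a b => ?_⟩
  rw [alt2_rep hE hi y hya a b, J2]
  refine Finset.sum_congr rfl fun i _ => ?_
  congr 1
  refine sl_ext E v0 (ii_sl E v0 0 0 0 (by norm_num) (by norm_num) _) (hy _ _) fun m h1 h2 => ?_
  obtain rfl : m = 0 := by omega
  rw [ee_ii, if_pos rfl]

theorem J2_alt (y : Fin n → ZH E) : IsAlt2 (adE E) Set.univ (J2 E v0 y) := alt2_mk _

include hE hi in
theorem J2_inj {y : Fin n → ZH E} (h : ∀ a b, J2 E v0 y a b = 0) : y = 0 := by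
  funext i
  have h1 := h (E i).1 (E i).2
  rw [J2, Finset.sum_eq_single i] at h1
  · have : s2 (E i) (E i).1 (E i).2 = 1 := by
      unfold s2
      rw [if_pos rfl, if_neg, sub_zero]
      intro h
      have h1 := hE i
      have h2 := congrArg Prod.fst h
      dsimp only at h2
      rw [← h2] at h1
      exact lt_irrefl _ h1
    rw [this, one_smul] at h1
    have h2 := congrArg (ee (adE E) v0 0) h1
    rw [ee_ii, if_pos rfl, map_zero] at h2
    exact h2
  · intro i' _ hne
    have : s2 (E i') (E i).1 (E i).2 = 0 := by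
      unfold s2
      rw [if_neg, if_neg, sub_zero]
      · intro h
        have h1 := hE i
        have h2 := hE i'
        rw [h] at h2
        exact absurd h1 (not_lt_of_gt h2)
      · intro h
        exact hne (hi _ _ h)
    rw [this, zero_smul]
  · intro h; exact absurd (Finset.mem_univ _) h

end res

section final
variable {N n : ℕ} (E : Fin n → Fin N × Fin N) (v0 : Fin N)

/-- the modules of the resolution -/
noncomputable def PR : ℕ → ModuleCat.{0} (ZH E)
  | 0 => ModuleCat.of (ZH E) (ZH E × ZH E × ZH E)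
  | 1 => ModuleCat.of (ZH E) ((Fin N → ZH E) × (Fin N → ZH E))
  | 2 => ModuleCat.of (ZH E) (Fin n → ZH E)
  | _ + 3 => ModuleCat.of (ZH E) PUnit

/-- the differentials of the resolution -/
noncomputable def dR : ∀ i : ℕ, PR E (i + 1) →ₗ[ZH E] PR E i
  | 0 => D0 E v0
  | 1 => D1 E v0
  | _ + 2 => 0

/-- the augmentation -/
noncomputable def epR : (ZH E × ZH E × ZH E) →+ ℤ :=
  (augm (BB (adE E))).comp (AddMonoidHom.fst _ _) +
    ((augm (BB (adE E))).comp ((AddMonoidHom.fst _ _).comp (AddMonoidHom.snd _ _)) +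
      (augm (BB (adE E))).comp ((AddMonoidHom.snd _ _).comp (AddMonoidHom.snd _ _)))

theorem epR_apply (c : ZH E × ZH E × ZH E) : epR E c =
    augm _ c.1 + (augm _ c.2.1 + augm _ c.2.2) := rfl

theorem augm_jj (c : ZH E) : augm _ (jj (adE E) c) = augm _ c := by
  induction c using MonoidAlgebra.induction_on with
  | of g => rw [jj_of, augm_of, augm_of]
  | add a b ha hb => rw [map_add, map_add, map_add, ha, hb]
  | smul r a ha =>
    have h1 : jj (adE E) (r • a) = r • jj (adE E) a := map_zsmul _ _ _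
    rw [h1, map_zsmul, map_zsmul, ha]

theorem augm_ii (m : ℤ) (c : ZH E) : augm _ (ii (adE E) v0 m c) = augm _ c := by
  rw [ii_apply, augm_mul, augm_of, mul_one, augm_jj]

theorem epR_J0 (c : ZH E × ZH E × ZH E) : augm _ (J0 E v0 c) = epR E c := by
  rw [J0, map_add, map_add, augm_ii, augm_ii, augm_ii, epR_apply, add_assoc]

variable {E}

theorem reso (hE : ∀ i, (E i).1 < (E i).2) (hi : ∀ i i', E i = E i' → i = i')
    (hac : Acyc (adE E))
    (hk4 : ∀ a b c d, adE E a b → adE E a c → adE E a d → adE E b c → adE E b d → ¬ adE E c d) :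
    Reso (G := BB (adE E)) (fun i => (PR E i : Type)) (dR E v0) (epR E) := by
  have hirr := adE_irr hE
  have hg := gra (adE E) v0
  have hreg := reg_rr (adE E) adE_symm hirr
  obtain ⟨x1, x2, -⟩ := Pool.Agent.W304.DU.th (Fin N) (ZG (RAAG (adE E))) (adE E) (Ro (rr (adE E)))
    adE_symm hirr hk4 hreg Finset.univ
  rw [Finset.coe_univ] at x1 x2
  refine ⟨?_, ?_, ?_, ?_⟩
  · intro k
    obtain ⟨c, hc⟩ := augm_surj (G := BB (adE E)) k
    refine ⟨((c, 0, 0) : ZH E × ZH E × ZH E), ?_⟩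
    change augm _ c + (augm _ 0 + augm _ 0) = k
    rw [hc, map_zero, add_zero, add_zero]
  · intro g (c : ZH E × ZH E × ZH E)
    change augm _ (MonoidAlgebra.of ℤ _ g * c.1) + (augm _ (MonoidAlgebra.of ℤ _ g * c.2.1) +
      augm _ (MonoidAlgebra.of ℤ _ g * c.2.2)) = augm _ c.1 + (augm _ c.2.1 + augm _ c.2.2)
    simp only [augm_mul, augm_of, one_mul]
  · intro (c : ZH E × ZH E × ZH E)
    constructor
    · intro hc
      have h1 : augm _ (J0 E v0 c) = 0 := by rw [epR_J0]; exact hc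
      obtain ⟨y, hy⟩ := (fox_exact (gen (adE E)) (closure_gen (adE E)) _).1 h1
      have hy' : ∑ v, Ro (rr (adE E)) v (y v) = J0 E v0 c := by
        rw [← hy]
        exact Finset.sum_congr rfl fun v _ => Ro_rr _ _ _
      obtain ⟨y', hy1, hy2⟩ := slab0 hg hirr hac 0 1 (by norm_num) y (by
        change ∑ v, Ro (rr (adE E)) v (y v) ∈ _
        rw [hy']; exact J0_sl E v0 c)
      obtain ⟨x, hx⟩ := J1_surj E v0 y' hy1
      refine ⟨x, ?_⟩
      change D0 E v0 x = c
      rw [← sub_eq_zero]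
      apply J0_inj E v0
      have e1 : J0 E v0 (D0 E v0 x - c) = J0 E v0 (D0 E v0 x) - J0 E v0 c := by
        simp only [J0, Prod.fst_sub, Prod.snd_sub, map_sub]
        abel
      rw [e1, J0_D0]
      simp only [hx]
      rw [sub_eq_zero, ← hy']
      exact hy2
    · rintro ⟨x', hx⟩
      obtain ⟨x, rfl⟩ : ∃ x : (Fin N → ZH E) × (Fin N → ZH E), x = x' := ⟨x', rfl⟩
      have hx' : D0 E v0 x = c := hx
      have h1 : augm _ (J0 E v0 c) = 0 := by
        rw [← hx', J0_D0, map_sum]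
        refine Finset.sum_eq_zero fun v _ => ?_
        rw [Ro_rr, augm_mul, map_sub, augm_of, augm_one, sub_self, mul_zero]
      rw [epR_J0] at h1
      exact h1
  · intro i
    match i with
    | 0 =>
      intro (x : (Fin N → ZH E) × (Fin N → ZH E))
      constructor
      · intro hx
        have hx' : D0 E v0 x = 0 := hx
        have h1 : ∑ v, Ro (rr (adE E)) v (J1 E v0 x v) = 0 := by
          rw [← J0_D0, hx']
          simp [J0]
        obtain ⟨y, hya, hy⟩ := x1 (J1 E v0 x) (fun v hv => absurd (Finset.mem_univ v) hv) h1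
        obtain ⟨y', hya', hy1, hy2⟩ := slab1 hg hirr hac 0 0 le_rfl y hya (fun b => by
          change ∑ a, Ro (rr (adE E)) a (y a b) ∈ _
          rw [← hy]; exact J1_sl E v0 x b)
        obtain ⟨z, hz⟩ := J2_surj v0 hE hi y' hya' hy1
        refine ⟨z, ?_⟩
        change D1 E v0 z = x
        rw [← sub_eq_zero]
        apply J1_inj E v0
        intro b
        have e1 : J1 E v0 (D1 E v0 z - x) b = J1 E v0 (D1 E v0 z) b - J1 E v0 x b := by
          simp only [J1, Prod.fst_sub, Prod.snd_sub, Pi.sub_apply, map_sub]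
          abel
        rw [e1, J1_D1, hy, sub_eq_zero]
        simp only [hz]
        exact hy2 b
      · rintro ⟨y', hy⟩
        obtain ⟨y, rfl⟩ : ∃ y : Fin n → ZH E, y = y' := ⟨y', rfl⟩
        have hy' : D1 E v0 y = x := hy
        change D0 E v0 x = 0
        apply J0_inj E v0
        rw [J0_D0, ← hy']
        simp only [J1_D1]
        exact dd1 hg hirr (J2_alt v0 y)
    | 1 =>
      intro (y : Fin n → ZH E)
      constructor
      · intro hy
        have hy' : D1 E v0 y = 0 := hy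
        have h1 : ∀ b, ∑ a, Ro (rr (adE E)) a (J2 E v0 y a b) = 0 := by
          intro b
          rw [← J1_D1, hy']
          simp [J1]
        obtain ⟨z, hza, hz⟩ := x2 (J2 E v0 y) (J2_alt v0 y) h1
        have hz0 := slab2 hg hac z hza (fun b c => by
          change ∑ a, Ro (rr (adE E)) a (z a b c) ∈ _
          rw [← hz]; exact J2_sl E v0 y b c)
        have hy0 : y = 0 := by
          apply J2_inj v0 hE hi
          intro a b
          rw [hz a b]
          exact Finset.sum_eq_zero fun c _ => by rw [hz0, map_zero]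
        rw [hy0]
        exact Submodule.zero_mem _
      · rintro ⟨z, hz⟩
        have hz' : (0 : Fin n → ZH E) = y := hz
        rw [← hz']
        exact map_zero (D1 E v0)
    | i + 2 =>
      intro (y : PUnit)
      constructor
      · intro _
        exact ⟨0, rfl⟩
      · intro _
        match i with
        | 0 => exact map_zero _
        | i + 1 => exact map_zero _

theorem fp3 (hE : ∀ i, (E i).1 < (E i).2) (hi : ∀ i i', E i = E i' → i = i')
    (hac : Acyc (adE E))
    (hk4 : ∀ a b c d, adE E a b → adE E a c → adE E a d → adE E b c → adE E b d → ¬ adE E c d)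
    (v0 : Fin N) : FPc 3 (BB (adE E)) := by
  have hp : ∀ i, Module.Projective (ZH E) (PR E i) := by
    intro i
    match i with
    | 0 => exact inferInstanceAs (Module.Projective (ZH E) (ZH E × ZH E × ZH E))
    | 1 => exact inferInstanceAs (Module.Projective (ZH E) ((Fin N → ZH E) × (Fin N → ZH E)))
    | 2 => exact inferInstanceAs (Module.Projective (ZH E) (Fin n → ZH E))
    | i + 3 => exact inferInstanceAs (Module.Projective (ZH E) PUnit)
  refine fpc_of_reso (reso v0 hE hi hac hk4) 3 ?_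
  intro k hk
  match k with
  | 0 => exact inferInstanceAs (Module.Finite (ZH E) (ZH E × ZH E × ZH E))
  | 1 => exact inferInstanceAs (Module.Finite (ZH E) ((Fin N → ZH E) × (Fin N → ZH E)))
  | 2 => exact inferInstanceAs (Module.Finite (ZH E) (Fin n → ZH E))
  | 3 => exact inferInstanceAs (Module.Finite (ZH E) PUnit)
  | i + 4 => omega

end final

end Pool.Agent.T2H50.HC
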