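import Pool.Agent.Y66.HC.Defs
import Pool.Agent.W490.DU.Grp

/-!
# Directions in a right-angled Artin group

MP_3ca9d5_al (S01246): the function `D` which assigns to an element `x` of a right-angled Artin
group the set of the generators which separate `x` from `1`.
-/

set_option autoImplicit false

namespace Pool.Agent.T2H50.HC

open Pool.Agent.W326.DU Pool.Agent.W490.DU

section cochain
variable {V J : Type} [Group J] {ad : V → V → Prop}

/-- the permutation of a generator -/
def stp (f : V → RAAG ad → J) (s : V) : Equiv.Perm (RAAG ad × J) where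
  toFun p := (gen ad s * p.1, f s p.1 * p.2)
  invFun p := ((gen ad s)⁻¹ * p.1, (f s ((gen ad s)⁻¹ * p.1))⁻¹ * p.2)
  left_inv := by
    rintro ⟨x, j⟩
    simp
  right_inv := by
    rintro ⟨x, j⟩
    simp

theorem stp_apply (f : V → RAAG ad → J) (s : V) (x : RAAG ad) (j : J) :
    stp f s (x, j) = (gen ad s * x, f s x * j) := rfl

theorem stp_inv_apply (f : V → RAAG ad → J) (s : V) (x : RAAG ad) (j : J) :
    (stp f s)⁻¹ (x, j) = ((gen ad s)⁻¹ * x, (f s ((gen ad s)⁻¹ * x))⁻¹ * j) := rfl

theorem gen_induction {p : RAAG ad → Prop} (h1 : p 1) (h : ∀ s x, p x → p (gen ad s * x))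
    (h' : ∀ s x, p x → p ((gen ad s)⁻¹ * x)) (x : RAAG ad) : p x := by
  have hx : x ∈ Subgroup.closure (Set.range (gen ad)) := by
    rw [closure_gen]; exact Subgroup.mem_top _
  refine Subgroup.closure_induction_left (p := fun x _ => p x) h1 ?_ ?_ hx
  · rintro _ ⟨s, rfl⟩ y _ hy
    exact h s y hy
  · rintro _ ⟨s, rfl⟩ y _ hy
    exact h' s y hy

/-- closed cochains are coboundaries -/
theorem cochain (f : V → RAAG ad → J)
    (hf : ∀ a b, ad a b → ∀ x, f a (gen ad b * x) * f b x = f b (gen ad a * x) * f a x) :
    ∃ m : RAAG ad → J, m 1 = 1 ∧ ∀ s x, m (gen ad s * x) = f s x * m x := by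
  have hrel : ∀ r ∈ rels ad, FreeGroup.lift (fun s => stp f s) r = 1 := by
    rintro r ⟨a, b, hab, rfl⟩
    simp only [map_mul, map_inv, FreeGroup.lift_apply_of]
    rw [mul_inv_eq_one, mul_inv_eq_iff_eq_mul]
    apply Equiv.ext
    rintro ⟨x, j⟩
    show stp f a (stp f b (x, j)) = stp f b (stp f a (x, j))
    rw [stp_apply, stp_apply, stp_apply, stp_apply]
    refine Prod.ext ?_ ?_
    · show gen ad a * (gen ad b * x) = gen ad b * (gen ad a * x)
      rw [← mul_assoc, gen_comm ad hab, mul_assoc]
    · show f a (gen ad b * x) * (f b x * j) = f b (gen ad a * x) * (f a x * j)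
      rw [← mul_assoc, ← mul_assoc, hf a b hab]
  let Ψ : RAAG ad →* Equiv.Perm (RAAG ad × J) := PresentedGroup.toGroup hrel
  have hΨ : ∀ s, Ψ (gen ad s) = stp f s := fun s => PresentedGroup.toGroup.of hrel
  have h1 : ∀ x, (Ψ x (1, 1)).1 = x := by
    refine gen_induction ?_ ?_ ?_
    · rw [map_one]; rfl
    · intro s x hx
      rw [map_mul, Equiv.Perm.mul_apply, hΨ]
      show gen ad s * (Ψ x (1, 1)).1 = _
      rw [hx]
    · intro s x hx
      rw [map_mul, map_inv, Equiv.Perm.mul_apply, hΨ]
      show (gen ad s)⁻¹ * (Ψ x (1, 1)).1 = _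
      rw [hx]
  refine ⟨fun x => (Ψ x (1, 1)).2, ?_, fun s x => ?_⟩
  · show (Ψ 1 (1, 1)).2 = 1
    rw [map_one]; rfl
  · show (Ψ (gen ad s * x) (1, 1)).2 = f s x * (Ψ x (1, 1)).2
    rw [map_mul, Equiv.Perm.mul_apply, hΨ]
    show f s (Ψ x (1, 1)).1 * (Ψ x (1, 1)).2 = _
    rw [h1]

end cochain

section dir
variable {V : Type} (ad : V → V → Prop)

/-- special subgroups -/
def AT (T : Set V) : Subgroup (RAAG ad) := Subgroup.closure (gen ad '' T)

theorem gen_mem_AT {T : Set V} {t : V} (h : t ∈ T) : gen ad t ∈ AT ad T :=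
  Subgroup.subset_closure ⟨t, h, rfl⟩

open Classical in
/-- the retraction to a special subgroup -/
noncomputable def ret (T : Set V) : RAAG ad →* RAAG ad :=
  PresentedGroup.toGroup (f := fun v => if v ∈ T then gen ad v else 1) (by
    rintro r ⟨a, b, hab, rfl⟩
    simp only [map_mul, map_inv, FreeGroup.lift_apply_of]
    rw [mul_inv_eq_one, mul_inv_eq_iff_eq_mul]
    by_cases ha : a ∈ T
    · by_cases hb : b ∈ T
      · rw [if_pos ha, if_pos hb]; exact gen_comm ad hab
      · rw [if_neg hb, mul_one, one_mul]
    · rw [if_neg ha, mul_one, one_mul])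

open Classical in
theorem ret_gen (T : Set V) (v : V) : ret ad T (gen ad v) = if v ∈ T then gen ad v else 1 :=
  PresentedGroup.toGroup.of _

theorem ret_of_mem (T : Set V) {x : RAAG ad} (hx : x ∈ AT ad T) : ret ad T x = x := by
  have h : AT ad T ≤ MonoidHom.eqLocus (ret ad T) (MonoidHom.id _) := by
    unfold AT
    rw [Subgroup.closure_le]
    rintro _ ⟨t, ht, rfl⟩
    show ret ad T (gen ad t) = gen ad t
    rw [ret_gen, if_pos ht]
  exact h hx

/-- value of a word -/
def val (L : List (V × Bool)) : RAAG ad := PresentedGroup.mk (rels ad) (FreeGroup.mk L)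

theorem val_nil : val ad [] = 1 := by
  unfold val
  rw [← FreeGroup.one_eq_mk, map_one]

theorem val_cons (s : V) (b : Bool) (L : List (V × Bool)) :
    val ad ((s, b) :: L) = (if b = true then gen ad s else (gen ad s)⁻¹) * val ad L := by
  unfold val
  have h : (FreeGroup.mk ((s, b) :: L) : FreeGroup V) =
      FreeGroup.mk [(s, b)] * FreeGroup.mk L := by rw [FreeGroup.mul_mk]; rfl
  rw [h, map_mul]
  congr 1
  cases b
  · rfl
  · rfl

theorem val_surj (x : RAAG ad) : ∃ L, val ad L = x := by
  obtain ⟨y, rfl⟩ := PresentedGroup.mk_surjective _ x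
  obtain ⟨L, rfl⟩ : ∃ L, FreeGroup.mk L = y := Quot.exists_rep _
  exact ⟨L, rfl⟩

/-- geodesic words -/
def Geo (L : List (V × Bool)) : Prop := ∀ L', val ad L' = val ad L → L.length ≤ L'.length

theorem geo_exists (x : RAAG ad) : ∃ L, val ad L = x ∧ Geo ad L := by
  classical
  have h : ∃ n, ∃ L, val ad L = x ∧ L.length = n := by
    obtain ⟨L, hL⟩ := val_surj ad x
    exact ⟨_, L, hL, rfl⟩
  obtain ⟨L, hL, hn⟩ := Nat.find_spec h
  refine ⟨L, hL, fun L' hL' => ?_⟩
  rw [hn]
  exact Nat.find_min' h ⟨L', hL'.trans hL, rfl⟩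

theorem geo_tail {q : V × Bool} {L : List (V × Bool)} (h : Geo ad (q :: L)) : Geo ad L := by
  intro L' hL'
  obtain ⟨s, b⟩ := q
  have := h ((s, b) :: L') (by rw [val_cons, val_cons, hL'])
  simpa using this

open Classical in
theorem ret_val (T : Set V) (L : List (V × Bool)) :
    ret ad T (val ad L) = val ad (L.filter (fun q => q.1 ∈ T)) := by
  induction L with
  | nil => rw [val_nil, map_one, List.filter_nil, val_nil]
  | cons q L ih =>
    obtain ⟨s, b⟩ := q
    rw [val_cons, map_mul, ih]
    by_cases hs : s ∈ T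
    · rw [List.filter_cons_of_pos (by simpa using hs), val_cons]
      congr 1
      cases b
      · simp [ret_gen, hs]
      · simp [ret_gen, hs]
    · rw [List.filter_cons_of_neg (by simpa using hs)]
      cases b
      · simp [ret_gen, hs]
      · simp [ret_gen, hs]

theorem geo_mem (T : Set V) {L : List (V × Bool)} (h : Geo ad L) (hT : val ad L ∈ AT ad T) :
    ∀ q ∈ L, q.1 ∈ T := by
  classical
  have h1 := ret_of_mem ad T hT
  rw [ret_val] at h1
  have h2 := h _ h1
  have h3 := List.length_filter_le (fun q : V × Bool => decide (q.1 ∈ T)) L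
  have h4 : (L.filter (fun q => decide (q.1 ∈ T))).length = L.length := le_antisymm h3 h2
  rw [List.length_filter_eq_length_iff] at h4
  intro q hq
  simpa using h4 q hq

open Classical in
/-- the cochain of a hyperplane in the direction of the generator `s` -/
noncomputable def fP (s : V) (t : V) (x : RAAG ad) : Multiplicative ℤ :=
  if t = s ∧ x ∈ AT ad {u | ad s u} then Multiplicative.ofAdd 1 else 1

open Classical in
/-- the cochain of a hyperplane in the direction of the inverse of the generator `s` -/
noncomputable def fM (s : V) (t : V) (x : RAAG ad) : Multiplicative ℤ :=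
  if t = s ∧ gen ad s * x ∈ AT ad {u | ad s u} then Multiplicative.ofAdd 1 else 1

variable {ad}

theorem fP_ne {s t : V} (h : t ≠ s) (x : RAAG ad) : fP ad s t x = 1 := by
  unfold fP
  exact if_neg fun h' => h h'.1

open Classical in
theorem fP_self (s : V) (x : RAAG ad) :
    fP ad s s x = if x ∈ AT ad {u | ad s u} then Multiplicative.ofAdd 1 else 1 := by
  unfold fP
  by_cases hx : x ∈ AT ad {u | ad s u}
  · rw [if_pos ⟨rfl, hx⟩, if_pos hx]
  · rw [if_neg (fun h => hx h.2), if_neg hx]

theorem fM_ne {s t : V} (h : t ≠ s) (x : RAAG ad) : fM ad s t x = 1 := by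
  unfold fM
  exact if_neg fun h' => h h'.1

open Classical in
theorem fM_self (s : V) (x : RAAG ad) :
    fM ad s s x = if gen ad s * x ∈ AT ad {u | ad s u} then Multiplicative.ofAdd 1 else 1 := by
  unfold fM
  by_cases hx : gen ad s * x ∈ AT ad {u | ad s u}
  · rw [if_pos ⟨rfl, hx⟩, if_pos hx]
  · rw [if_neg (fun h => hx h.2), if_neg hx]

theorem fP_closed (hirr : ∀ a, ¬ ad a a) (hsymm : ∀ a b, ad a b → ad b a) (s a b : V)
    (hab : ad a b) (x : RAAG ad) :
    fP ad s a (gen ad b * x) * fP ad s b x = fP ad s b (gen ad a * x) * fP ad s a x := by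
  have key : ∀ c, ad s c → fP ad s s (gen ad c * x) = fP ad s s x := by
    intro c hc
    have h : gen ad c * x ∈ AT ad {u | ad s u} ↔ x ∈ AT ad {u | ad s u} :=
      Subgroup.mul_mem_cancel_left _ (gen_mem_AT ad hc)
    rw [fP_self, fP_self]
    by_cases hx : x ∈ AT ad {u | ad s u}
    · rw [if_pos (h.2 hx), if_pos hx]
    · rw [if_neg (fun h' => hx (h.1 h')), if_neg hx]
  have hne : ∀ {c d}, ad c d → c ≠ d := fun h h' => hirr _ (h' ▸ h)
  by_cases ha : a = s
  · subst ha
    rw [fP_ne (hne hab).symm, fP_ne (hne hab).symm, key b hab, mul_one, one_mul]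
  · by_cases hb : b = s
    · subst hb
      rw [fP_ne (hne hab), fP_ne (hne hab), key a (hsymm _ _ hab), mul_one, one_mul]
    · rw [fP_ne ha, fP_ne ha, fP_ne hb, fP_ne hb]

theorem fM_closed (hirr : ∀ a, ¬ ad a a) (hsymm : ∀ a b, ad a b → ad b a) (s a b : V)
    (hab : ad a b) (x : RAAG ad) :
    fM ad s a (gen ad b * x) * fM ad s b x = fM ad s b (gen ad a * x) * fM ad s a x := by
  have key : ∀ c, ad s c → fM ad s s (gen ad c * x) = fM ad s s x := by
    intro c hc
    have h : gen ad s * (gen ad c * x) ∈ AT ad {u | ad s u} ↔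
        gen ad s * x ∈ AT ad {u | ad s u} := by
      rw [← mul_assoc, gen_comm ad hc, mul_assoc]
      exact Subgroup.mul_mem_cancel_left _ (gen_mem_AT ad hc)
    rw [fM_self, fM_self]
    by_cases hx : gen ad s * x ∈ AT ad {u | ad s u}
    · rw [if_pos (h.2 hx), if_pos hx]
    · rw [if_neg (fun h' => hx (h.1 h')), if_neg hx]
  have hne : ∀ {c d}, ad c d → c ≠ d := fun h h' => hirr _ (h' ▸ h)
  by_cases ha : a = s
  · subst ha
    rw [fM_ne (hne hab).symm, fM_ne (hne hab).symm, key b hab, mul_one, one_mul]
  · by_cases hb : b = s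
    · subst hb
      rw [fM_ne (hne hab), fM_ne (hne hab), key a (hsymm _ _ hab), mul_one, one_mul]
    · rw [fM_ne ha, fM_ne ha, fM_ne hb, fM_ne hb]

theorem AT_mono {S T : Set V} (h : S ⊆ T) : AT ad S ≤ AT ad T :=
  Subgroup.closure_mono (Set.image_mono h)

/-- the directions -/
theorem exists_D (hirr : ∀ a, ¬ ad a a) (hsymm : ∀ a b, ad a b → ad b a) :
    ∃ D : RAAG ad → Set V,
      (∀ s t x, s ≠ t → (s ∈ D (gen ad t * x) ↔ s ∈ D x)) ∧
      (∀ x, x ≠ 1 → (D x).Nonempty) ∧
      (∀ x s t, s ∈ D x → t ∈ D x → s ≠ t → ad s t) ∧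
      (∀ s x, x ∈ AT ad {u | u ≠ s} → s ∉ D x) := by
  classical
  choose mP hP1 hP using fun s => cochain (fP ad s) (fP_closed hirr hsymm s)
  choose mM hM1 hM using fun s => cochain (fM ad s) (fM_closed hirr hsymm s)
  have hPne : ∀ s t x, t ≠ s → mP s (gen ad t * x) = mP s x := by
    intro s t x h
    rw [hP, fP_ne h, one_mul]
  have hMne : ∀ s t x, t ≠ s → mM s (gen ad t * x) = mM s x := by
    intro s t x h
    rw [hM, fM_ne h, one_mul]
  have hPs : ∀ s x, x ∉ AT ad {u | ad s u} → mP s (gen ad s * x) = mP s x := by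
    intro s x h
    rw [hP, fP_self, if_neg h, one_mul]
  have hMs : ∀ s x, gen ad s * x ∉ AT ad {u | ad s u} → mM s (gen ad s * x) = mM s x := by
    intro s x h
    rw [hM, fM_self, if_neg h, one_mul]
  let D : RAAG ad → Set V := fun x => {s | mP s x ≠ 1 ∨ mM s x ≠ 1}
  have hD1 : ∀ s t x, s ≠ t → (s ∈ D (gen ad t * x) ↔ s ∈ D x) := by
    intro s t x h
    show (mP s (gen ad t * x) ≠ 1 ∨ mM s (gen ad t * x) ≠ 1) ↔ _
    rw [hPne s t x h.symm, hMne s t x h.symm]
    rfl
  have hDs : ∀ s x, x ∉ AT ad {u | ad s u} → gen ad s * x ∉ AT ad {u | ad s u} →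
      (s ∈ D (gen ad s * x) ↔ s ∈ D x) := by
    intro s x h1 h2
    show (mP s (gen ad s * x) ≠ 1 ∨ mM s (gen ad s * x) ≠ 1) ↔ _
    rw [hPs s x h1, hMs s x h2]
    rfl
  have hD4 : ∀ s x, x ∈ AT ad {u | u ≠ s} → s ∉ D x := by
    intro s x hx
    refine Subgroup.closure_induction_left (p := fun x _ => s ∉ D x) ?_ ?_ ?_ hx
    · show ¬ (mP s 1 ≠ 1 ∨ mM s 1 ≠ 1)
      rw [hP1, hM1]; simp
    · rintro _ ⟨u, hu, rfl⟩ y _ hy
      rw [hD1 s u y (Ne.symm hu)]; exact hy
    · rintro _ ⟨u, hu, rfl⟩ y _ hy
      have := hD1 s u ((gen ad u)⁻¹ * y) (Ne.symm hu)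
      rw [mul_inv_cancel_left] at this
      rw [← this]; exact hy
  refine ⟨D, hD1, ?_, ?_, hD4⟩
  · intro x hx
    obtain ⟨L, rfl, hL⟩ := geo_exists ad x
    have hne : L ≠ [] := fun h => hx (by rw [h, val_nil])
    -- the last letter stays in the set of directions
    have key : ∀ L : List (V × Bool), Geo ad L → L ≠ [] → ∃ s b, (s, b) ∈ L ∧
        (b = true → mP s (val ad L) = Multiplicative.ofAdd 1) ∧
        (b = false → mM s (val ad L) = Multiplicative.ofAdd (-1)) := by
      intro L
      induction L with
      | nil => intro _ h; exact absurd rfl h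
      | cons q L ih =>
        obtain ⟨t, c⟩ := q
        intro hg _
        by_cases hL : L = []
        · subst hL
          refine ⟨t, c, by simp, ?_, ?_⟩
          · rintro rfl
            rw [val_cons, if_pos rfl, val_nil, hP, hP1, fP_self, if_pos (Subgroup.one_mem _),
              mul_one]
          · rintro rfl
            rw [val_cons, if_neg (by simp), val_nil]
            have := hM t t ((gen ad t)⁻¹ * 1)
            rw [fM_self, mul_inv_cancel_left, hM1, if_pos (Subgroup.one_mem _)] at this
            rw [ofAdd_neg]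
            exact (eq_inv_of_mul_eq_one_right this.symm)
        · obtain ⟨s, b, hmem, h1, h2⟩ := ih (geo_tail ad hg) hL
          refine ⟨s, b, List.mem_cons_of_mem _ hmem, ?_, ?_⟩
          · intro hb
            rw [← h1 hb]
            by_cases hts : t = s
            · subst hts
              have n1 : val ad L ∉ AT ad {u | ad t u} := fun h =>
                hirr t (geo_mem ad _ (geo_tail ad hg) h _ hmem)
              have n2 : val ad ((t, c) :: L) ∉ AT ad {u | ad t u} := fun h =>
                hirr t (geo_mem ad _ hg h (t, b) (List.mem_cons_of_mem _ hmem))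
              rw [val_cons] at n2 ⊢
              cases c
              · rw [if_neg (by simp)] at n2 ⊢
                have := hPs t _ n2
                rw [mul_inv_cancel_left] at this
                exact this.symm
              · rw [if_pos rfl]
                exact hPs t _ n1
            · rw [val_cons]
              cases c
              · rw [if_neg (by simp)]
                have := hPne s t ((gen ad t)⁻¹ * val ad L) hts
                rw [mul_inv_cancel_left] at this
                exact this.symm
              · rw [if_pos rfl]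
                exact hPne s t _ hts
          · intro hb
            rw [← h2 hb]
            by_cases hts : t = s
            · subst hts
              have n1 : val ad L ∉ AT ad {u | ad t u} := fun h =>
                hirr t (geo_mem ad _ (geo_tail ad hg) h _ hmem)
              have n2 : val ad ((t, c) :: L) ∉ AT ad {u | ad t u} := fun h =>
                hirr t (geo_mem ad _ hg h (t, b) (List.mem_cons_of_mem _ hmem))
              rw [val_cons] at n2 ⊢
              cases c
              · rw [if_neg (by simp)] at n2 ⊢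
                have := hMs t ((gen ad t)⁻¹ * val ad L)
                rw [mul_inv_cancel_left] at this
                exact (this n1).symm
              · rw [if_pos rfl] at n2 ⊢
                exact hMs t _ n2
            · rw [val_cons]
              cases c
              · rw [if_neg (by simp)]
                have := hMne s t ((gen ad t)⁻¹ * val ad L) hts
                rw [mul_inv_cancel_left] at this
                exact this.symm
              · rw [if_pos rfl]
                exact hMne s t _ hts
    obtain ⟨s, b, -, h1, h2⟩ := key L hL hne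
    refine ⟨s, ?_⟩
    cases b
    · right
      rw [h2 rfl]
      intro h
      have := congrArg Multiplicative.toAdd h
      simp at this
    · left
      rw [h1 rfl]
      intro h
      have := congrArg Multiplicative.toAdd h
      simp at this
  · intro x s t hs ht hst
    by_contra hn
    have hsub : AT ad {u | ad s u} ≤ AT ad {u | u ≠ t} := by
      apply AT_mono
      rintro u hu rfl
      exact hn hu
    have hsub' : AT ad {u | ad t u} ≤ AT ad {u | u ≠ s} := by
      apply AT_mono
      rintro u hu rfl
      exact hn (hsymm _ _ hu)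
    have step : ∀ u x, (s ∈ D (gen ad u * x) ∧ t ∈ D (gen ad u * x)) ↔ (s ∈ D x ∧ t ∈ D x) := by
      intro u x
      by_cases hus : u = s
      · subst hus
        rw [hD1 t u x (Ne.symm hst)]
        constructor
        · rintro ⟨h1, h2⟩
          refine ⟨?_, h2⟩
          rw [← hDs u x]
          · exact h1
          · exact fun h => hD4 t x (hsub h) h2
          · exact fun h => hD4 t _ (hsub h) ((hD1 t u x (Ne.symm hst)).2 h2)
        · rintro ⟨h1, h2⟩
          refine ⟨?_, h2⟩
          rw [hDs u x]
          · exact h1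
          · exact fun h => hD4 t x (hsub h) h2
          · exact fun h => hD4 t _ (hsub h) ((hD1 t u x (Ne.symm hst)).2 h2)
      · by_cases hut : u = t
        · subst hut
          rw [hD1 s u x hst]
          constructor
          · rintro ⟨h1, h2⟩
            refine ⟨h1, ?_⟩
            rw [← hDs u x]
            · exact h2
            · exact fun h => hD4 s x (hsub' h) h1
            · exact fun h => hD4 s _ (hsub' h) ((hD1 s u x hst).2 h1)
          · rintro ⟨h1, h2⟩
            refine ⟨h1, ?_⟩
            rw [hDs u x]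
            · exact h2
            · exact fun h => hD4 s x (hsub' h) h1
            · exact fun h => hD4 s _ (hsub' h) ((hD1 s u x hst).2 h1)
        · rw [hD1 s u x (Ne.symm hus), hD1 t u x (Ne.symm hut)]
    have hall : ∀ x, ¬ (s ∈ D x ∧ t ∈ D x) := by
      refine gen_induction ?_ ?_ ?_
      · rintro ⟨h, -⟩
        exact hD4 s 1 (Subgroup.one_mem _) h
      · intro u x hx
        rw [step]; exact hx
      · intro u x hx
        rw [← step u, mul_inv_cancel_left]; exact hx
    exact hall x ⟨hs, ht⟩

end dir

end Pool.Agent.T2H50.HC
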