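import Pool.Agent.T2H50.HC.Hom
import Pool.Agent.W304.DU.RG
import Pool.Agent.W571.DU.BC
import Pool.Agent.W490.DU.Grp

/-!
# Left ideals of group rings and relation modules

MP_3ca9d5_al (S01246)
-/

set_option autoImplicit false

namespace Pool.Agent.T2H50.HC

open Pool.Agent.W326.DU Pool.Agent.Y66.HC Pool.Agent.Y448.HC Pool.Agent.W490.DU

section
variable {G : Type} [Group G]

theorem IL_ind {X : Set G} {A : Type} [AddCommGroup A] (ψ : ZG G →+ A)
    (h : ∀ x ∈ X, ∀ g : G, ψ (MonoidAlgebra.of ℤ G (g * x)) = ψ (MonoidAlgebra.of ℤ G g))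
    {y : ZG G} (hy : y ∈ IL ℤ X) : ψ y = 0 := by
  have h1 : ∀ x ∈ X, ∀ a : ZG G, ψ (a * (MonoidAlgebra.of ℤ G x - 1)) = 0 := by
    intro x hx a
    rw [mul_sub, mul_one, map_sub, sub_eq_zero]
    induction a using MonoidAlgebra.induction_on with
    | of g => rw [← map_mul, h x hx g]
    | add a b ha hb => rw [add_mul, map_add, map_add, ha, hb]
    | smul n a ha => rw [smul_mul_assoc, map_zsmul, map_zsmul, ha]
  have h2 : ∀ y ∈ IL ℤ X, ∀ a : ZG G, ψ (a * y) = 0 := by
    intro y hy
    unfold IL at hy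
    induction hy using Submodule.span_induction with
    | mem y hy =>
      obtain ⟨x, hx, rfl⟩ := hy
      exact h1 x hx
    | zero => intro a; rw [mul_zero, map_zero]
    | add x y _ _ hx hy => intro a; rw [mul_add, map_add, hx, hy, add_zero]
    | smul b x _ hx => intro a; rw [smul_eq_mul, ← mul_assoc]; exact hx _
  have := h2 y hy 1
  rwa [one_mul] at this

/-- the map of the group ring to the permutation module -/
theorem mem_closure_of_IL (X : Set G) (g : G) (h : MonoidAlgebra.of ℤ G g - 1 ∈ IL ℤ X) :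
    g ∈ Subgroup.closure X := by
  classical
  let H := Subgroup.closure X
  let ψ : ZG G →+ (G ⧸ H →₀ ℤ) := (Finsupp.mapDomain.addMonoidHom
    (QuotientGroup.mk : G → G ⧸ H)).comp MonoidAlgebra.coeffAddEquiv.toAddMonoidHom
  have hof : ∀ a : G, ψ (MonoidAlgebra.of ℤ G a) = Finsupp.single (QuotientGroup.mk a) 1 := by
    intro a
    change Finsupp.mapDomain (QuotientGroup.mk : G → G ⧸ H) (Finsupp.single a 1) = _
    rw [Finsupp.mapDomain_single]
  have h0 : ψ (MonoidAlgebra.of ℤ G g - 1) = 0 := by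
    refine IL_ind ψ ?_ h
    intro x hx a
    rw [hof, hof]
    congr 1
    rw [QuotientGroup.eq]
    have : (a * x)⁻¹ * a = x⁻¹ := by group
    rw [this]
    exact H.inv_mem (Subgroup.subset_closure hx)
  rw [map_sub, ← map_one (MonoidAlgebra.of ℤ G), hof, hof, sub_eq_zero] at h0
  have h1 := Finsupp.single_left_injective (one_ne_zero : (1 : ℤ) ≠ 0) h0
  have h2 : (1 : G)⁻¹ * g ∈ H := QuotientGroup.eq.1 h1.symm
  simpa using h2

theorem map_of {P : Type} [Group P] (p : P →* G) (h : P) :
    MonoidAlgebra.mapDomainRingHom ℤ p (MonoidAlgebra.of ℤ P h) = MonoidAlgebra.of ℤ G (p h) := by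
  simp [MonoidAlgebra.of_apply]

/-- pulling back along a surjection -/
theorem pull {P : Type} [Group P] (p : P →* G) (hp : Function.Surjective p) (Γ : Subgroup G)
    (c : ZG P) (hc : MonoidAlgebra.mapDomainRingHom ℤ p c ∈ IL ℤ (Γ : Set G)) :
    c ∈ IL ℤ ((Γ.comap p : Subgroup P) : Set P) := by
  classical
  let N : Submodule (ZG P) (ZG P) := IL ℤ ((Γ.comap p : Subgroup P) : Set P)
  let s : G → P := Function.surjInv hp
  have hs : ∀ g, p (s g) = g := Function.surjInv_eq hp
  let σ : ZG G →+ (ZG P ⧸ N) := (Finsupp.liftAddHom (fun g : G =>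
    (zmultiplesHom (ZG P ⧸ N)) (N.mkQ (MonoidAlgebra.of ℤ P (s g))))).comp
      MonoidAlgebra.coeffAddEquiv.toAddMonoidHom
  have hof : ∀ g : G, σ (MonoidAlgebra.of ℤ G g) = N.mkQ (MonoidAlgebra.of ℤ P (s g)) := by
    intro g
    change Finsupp.liftAddHom (fun g : G =>
      (zmultiplesHom (ZG P ⧸ N)) (N.mkQ (MonoidAlgebra.of ℤ P (s g)))) (Finsupp.single g 1) = _
    rw [Finsupp.liftAddHom_apply_single]
    simp
  have key : ∀ a b : P, a⁻¹ * b ∈ Γ.comap p →
      N.mkQ (MonoidAlgebra.of ℤ P b) = N.mkQ (MonoidAlgebra.of ℤ P a) := by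
    intro a b hab
    rw [← sub_eq_zero, ← map_sub]
    have h1 : MonoidAlgebra.of ℤ P b - MonoidAlgebra.of ℤ P a =
        MonoidAlgebra.of ℤ P a • (MonoidAlgebra.of ℤ P (a⁻¹ * b) - 1) := by
      rw [smul_eq_mul, mul_sub, ← map_mul, mul_inv_cancel_left, mul_one]
    rw [h1]
    have h2 : MonoidAlgebra.of ℤ P a • (MonoidAlgebra.of ℤ P (a⁻¹ * b) - 1) ∈ N :=
      Submodule.smul_mem _ _ (Submodule.subset_span ⟨_, hab, rfl⟩)
    exact (Submodule.Quotient.mk_eq_zero N).2 h2
  have h1 : σ (MonoidAlgebra.mapDomainRingHom ℤ p c) = 0 := by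
    refine IL_ind σ ?_ hc
    intro x hx g
    rw [hof, hof]
    apply key
    change p ((s g)⁻¹ * s (g * x)) ∈ Γ
    rw [map_mul, map_inv, hs, hs, inv_mul_cancel_left]
    exact hx
  have h2 : ∀ c : ZG P, σ (MonoidAlgebra.mapDomainRingHom ℤ p c) = N.mkQ c := by
    intro c
    induction c using MonoidAlgebra.induction_on with
    | of h =>
      rw [map_of, hof]
      apply key
      change p (h⁻¹ * s (p h)) ∈ Γ
      rw [map_mul, map_inv, hs, inv_mul_cancel]
      exact Γ.one_mem
    | add a b ha hb => rw [map_add, map_add, map_add, ha, hb]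
    | smul n a ha =>
      have e1 : MonoidAlgebra.mapDomainRingHom ℤ p (n • a) =
        n • MonoidAlgebra.mapDomainRingHom ℤ p a := map_zsmul _ _ _
      have e2 : N.mkQ (n • a) = n • N.mkQ a := map_zsmul _ _ _
      rw [e1, e2, map_zsmul, ha]
  rw [h2] at h1
  exact (Submodule.Quotient.mk_eq_zero N).1 h1

theorem fox_apply {ι : Type} [Fintype ι] (x : ι → G) (c : ι → ZG G) :
    fox x c = ∑ i, c i * (MonoidAlgebra.of ℤ G (x i) - 1) := rfl

theorem mem_RM {ι : Type} [Fintype ι] (x : ι → G) (c : ι → ZG G) :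
    c ∈ RM x ↔ ∑ i, c i * (MonoidAlgebra.of ℤ G (x i) - 1) = 0 := Iff.rfl

theorem IL_range {ι : Type} [Fintype ι] (x : ι → G) {y : ZG G} (hy : y ∈ IL ℤ (Set.range x)) :
    ∃ c, fox x c = y := by
  classical
  have h2 : IL ℤ (Set.range x) ≤ LinearMap.range (fox x) := by
    refine Submodule.span_le.2 ?_
    rintro _ ⟨_, ⟨i, rfl⟩, rfl⟩
    refine ⟨Pi.single i 1, ?_⟩
    rw [fox_apply, Finset.sum_eq_single i]
    · simp
    · intro j _ hj
      rw [Pi.single_eq_of_ne hj, zero_mul]
    · simp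
  exact h2 hy

theorem IL_gen {X : Set G} {x : G} (hx : x ∈ X) (a : ZG G) :
    a * (MonoidAlgebra.of ℤ G x - 1) ∈ IL ℤ X :=
  Submodule.smul_mem _ a (Submodule.subset_span ⟨x, hx, rfl⟩)

end

section bc
open Pool.Agent.W571.DU.BC
variable {H G : Type} [Group H] [Group G] (ι : H →* G) (hι : Function.Injective ι)

theorem decomp' (x : ZG G) (T : Finset (G ⧸ ι.range))
    (hT : ∀ a, x.coeff a ≠ 0 → (QuotientGroup.mk a : G ⧸ ι.range) ∈ T) :
    x = ∑ q ∈ T, MonoidAlgebra.of ℤ G q.out *
      MonoidAlgebra.mapDomainRingHom ℤ ι (pi ℤ ι hι q.out x) := by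
  classical
  apply MonoidAlgebra.ext
  ext a
  rw [MonoidAlgebra.coeff_sum, Finsupp.finsetSum_apply]
  simp only [coeff_term]
  have key : ∀ q : G ⧸ ι.range, q.out⁻¹ * a ∈ ι.range ↔ q = (a : G ⧸ ι.range) := by
    intro q
    rw [← QuotientGroup.eq, QuotientGroup.out_eq']
  by_cases ha : x.coeff a = 0
  · rw [ha]
    simp
  · rw [Finset.sum_eq_single (a : G ⧸ ι.range)]
    · rw [if_pos ((key _).2 rfl)]
    · intro q _ hq
      rw [if_neg]
      intro h
      exact hq ((key q).1 h)
    · intro h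
      exact absurd (hT a ha) h

include hι in
theorem RM_bc {κ : Type} [Fintype κ] (x : κ → H) (h : (RM x).FG) :
    (RM (fun k => ι (x k))).FG := by
  classical
  obtain ⟨S, hS⟩ := h
  let M : (κ → ZG H) → (κ → ZG G) := fun w k => MonoidAlgebra.mapDomainRingHom ℤ ι (w k)
  have hM : ∀ w ∈ RM x, M w ∈ Submodule.span (ZG G) (M '' (S : Set (κ → ZG H))) := by
    intro w hw
    rw [← hS] at hw
    induction hw using Submodule.span_induction with
    | mem w hw => exact Submodule.subset_span ⟨w, hw, rfl⟩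
    | zero =>
      have : M 0 = 0 := by funext k; exact map_zero _
      rw [this]; exact Submodule.zero_mem _
    | add a b _ _ ha hb =>
      have : M (a + b) = M a + M b := by funext k; exact map_add _ _ _
      rw [this]; exact Submodule.add_mem _ ha hb
    | smul a b _ hb =>
      have : M (a • b) = MonoidAlgebra.mapDomainRingHom ℤ ι a • M b := by
        funext k; exact map_mul _ _ _
      rw [this]; exact Submodule.smul_mem _ _ hb
  refine Submodule.fg_def.2 ⟨M '' (S : Set (κ → ZG H)), S.finite_toSet.image _,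
    le_antisymm (Submodule.span_le.2 ?_) ?_⟩
  · rintro _ ⟨w, hw, rfl⟩
    have hw' : w ∈ RM x := by rw [← hS]; exact Submodule.subset_span hw
    rw [mem_RM] at hw'
    change M w ∈ RM (fun k => ι (x k))
    rw [mem_RM]
    have := congrArg (MonoidAlgebra.mapDomainRingHom ℤ ι) hw'
    rw [map_zero, map_sum] at this
    rw [← this]
    refine Finset.sum_congr rfl fun k _ => ?_
    rw [map_mul, map_sub, map_one, map_of]
  · intro c hc
    rw [mem_RM] at hc
    let T : Finset (G ⧸ ι.range) := Finset.univ.biUnion fun k =>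
      (c k).coeff.support.image (fun a : G => (QuotientGroup.mk a : G ⧸ ι.range))
    have hcT : ∀ k, c k = ∑ q ∈ T, MonoidAlgebra.of ℤ G q.out *
        MonoidAlgebra.mapDomainRingHom ℤ ι (pi ℤ ι hι q.out (c k)) := by
      intro k
      apply decomp' ι hι
      intro a ha
      exact Finset.mem_biUnion.2 ⟨k, Finset.mem_univ k,
        Finset.mem_image.2 ⟨a, Finsupp.mem_support_iff.2 ha, rfl⟩⟩
    have e : c = ∑ q ∈ T, MonoidAlgebra.of ℤ G q.out • M (fun k => pi ℤ ι hι q.out (c k)) := by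
      funext k
      rw [Finset.sum_apply]
      exact hcT k
    rw [e]
    refine Submodule.sum_mem _ fun q _ => Submodule.smul_mem _ _ (hM _ ?_)
    rw [mem_RM]
    have := congrArg (pi ℤ ι hι q.out) hc
    rw [map_zero, map_sum] at this
    rw [← this]
    exact Finset.sum_congr rfl fun k _ => (pi_mul_sub _ _ _ _ _ _).symm

end bc

section ext
variable {G : Type} [Group G] {ι κ : Type} [Fintype ι] [Fintype κ]

theorem RM_ext (x : ι → G) (t : κ → G) (L : Set G) (hL : L.Finite)
    (hLx : L ⊆ Subgroup.closure (Set.range x)) (hcomm : ∀ l ∈ L, ∀ v, t v * l = l * t v)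
    (hstar : ∀ v, StarP ℤ (Set.range x ∪ t '' {w | w ≠ v}) (t v) L) (h : (RM x).FG) :
    (RM (Sum.elim x t)).FG := by
  classical
  obtain ⟨S, hS⟩ := h
  -- the relations of commutation
  have hrel : ∀ l ∈ L, ∀ v, ∃ d : ι → ZG G, ∑ i, d i * (MonoidAlgebra.of ℤ G (x i) - 1) =
      - ((MonoidAlgebra.of ℤ G l - 1) * (MonoidAlgebra.of ℤ G (t v) - 1)) := by
    intro l hl v
    have h1 : (MonoidAlgebra.of ℤ G l - 1) * (MonoidAlgebra.of ℤ G (t v) - 1) =
        (MonoidAlgebra.of ℤ G (t v) - 1) * (MonoidAlgebra.of ℤ G l - 1) := by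
      apply comm_sub_one
      rw [← map_mul, ← map_mul, hcomm l hl v]
    rw [h1]
    have h2 : - ((MonoidAlgebra.of ℤ G (t v) - 1) * (MonoidAlgebra.of ℤ G l - 1)) ∈
        IL ℤ (Set.range x) :=
      Submodule.neg_mem _ (IL_le ℤ hLx (IL_gen hl _))
    obtain ⟨d, hd⟩ := IL_range x h2
    exact ⟨d, hd⟩
  choose! d hd using hrel
  let rho : κ → G → (ι ⊕ κ → ZG G) := fun v l =>
    Sum.elim (d l v) (Pi.single v (MonoidAlgebra.of ℤ G l - 1))
  let ex : (ι → ZG G) → (ι ⊕ κ → ZG G) := fun w => Sum.elim w 0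
  let X : Set (ι ⊕ κ → ZG G) := (⋃ v, rho v '' L) ∪ ex '' (S : Set (ι → ZG G))
  have hX : X.Finite := (Set.finite_iUnion fun v => hL.image _).union (S.finite_toSet.image _)
  have hA : ∀ v, ∀ y ∈ IL ℤ L, ∃ r ∈ Submodule.span (ZG G) X, ∀ w, r (Sum.inr w) =
      (Pi.single v y : κ → ZG G) w := by
    intro v y hy
    unfold IL at hy
    induction hy using Submodule.span_induction with
    | mem y hy =>
      obtain ⟨l, hl, rfl⟩ := hy
      exact ⟨rho v l, Submodule.subset_span (Or.inl (Set.mem_iUnion.2 ⟨v, l, hl, rfl⟩)),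
        fun w => rfl⟩
    | zero => exact ⟨0, Submodule.zero_mem _, fun w => by rw [Pi.single_zero]; rfl⟩
    | add a b _ _ ha hb =>
      obtain ⟨r1, h1, h1'⟩ := ha
      obtain ⟨r2, h2, h2'⟩ := hb
      exact ⟨r1 + r2, Submodule.add_mem _ h1 h2, fun w => by
        rw [Pi.add_apply, h1', h2', Pi.single_add]; rfl⟩
    | smul a b _ hb =>
      obtain ⟨r1, h1, h1'⟩ := hb
      exact ⟨a • r1, Submodule.smul_mem _ _ h1, fun w => by
        rw [Pi.smul_apply, h1', Pi.single_smul]; rfl⟩
  have hB : ∀ w ∈ RM x, ex w ∈ Submodule.span (ZG G) X := by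
    intro w hw
    rw [← hS] at hw
    induction hw using Submodule.span_induction with
    | mem w hw => exact Submodule.subset_span (Or.inr ⟨w, hw, rfl⟩)
    | zero =>
      have : ex 0 = 0 := by funext k; cases k <;> rfl
      rw [this]; exact Submodule.zero_mem _
    | add a b _ _ ha hb =>
      have : ex (a + b) = ex a + ex b := by
        funext k
        cases k with
        | inl k => rfl
        | inr k => exact (add_zero _).symm
      rw [this]; exact Submodule.add_mem _ ha hb
    | smul a b _ hb =>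
      have : ex (a • b) = a • ex b := by
        funext k
        cases k with
        | inl k => rfl
        | inr k => exact (smul_zero (a : ZG G)).symm
      rw [this]; exact Submodule.smul_mem _ _ hb
  have hC : Submodule.span (ZG G) X ≤ RM (Sum.elim x t) := by
    refine Submodule.span_le.2 ?_
    rintro _ (h | ⟨w, hw, rfl⟩)
    · obtain ⟨v, hv⟩ := Set.mem_iUnion.1 h
      obtain ⟨l, hl, rfl⟩ := hv
      change rho v l ∈ RM (Sum.elim x t)
      rw [mem_RM, Fintype.sum_sum_type]
      change ∑ i, d l v i * (MonoidAlgebra.of ℤ G (x i) - 1) +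
        ∑ w, (Pi.single v (MonoidAlgebra.of ℤ G l - 1) : κ → ZG G) w *
          (MonoidAlgebra.of ℤ G (t w) - 1) = 0
      rw [hd l hl v, Finset.sum_eq_single v, Pi.single_eq_same, neg_add_cancel]
      · intro w _ hw
        rw [Pi.single_eq_of_ne hw, zero_mul]
      · intro h; exact absurd (Finset.mem_univ _) h
    · change ex w ∈ RM (Sum.elim x t)
      have hw' : w ∈ RM x := by rw [← hS]; exact Submodule.subset_span hw
      rw [mem_RM] at hw' ⊢
      rw [Fintype.sum_sum_type]
      change ∑ i, w i * (MonoidAlgebra.of ℤ G (x i) - 1) +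
        ∑ v, (0 : ZG G) * (MonoidAlgebra.of ℤ G (t v) - 1) = 0
      rw [hw', zero_add]
      exact Finset.sum_eq_zero fun v _ => zero_mul _
  refine Submodule.fg_def.2 ⟨X, hX, le_antisymm hC ?_⟩
  intro c hc
  have hc1 : ∀ v, c (Sum.inr v) ∈ IL ℤ L := by
    intro v
    apply hstar v
    rw [mem_RM, Fintype.sum_sum_type, ← Finset.add_sum_erase _ _ (Finset.mem_univ v)] at hc
    have e : c (Sum.inr v) * (MonoidAlgebra.of ℤ G (t v) - 1) =
        - (∑ i, c (Sum.inl i) * (MonoidAlgebra.of ℤ G (x i) - 1)) -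
        ∑ w ∈ Finset.univ.erase v, c (Sum.inr w) * (MonoidAlgebra.of ℤ G (t w) - 1) := by
      have : ∑ i, c (Sum.inl i) * (MonoidAlgebra.of ℤ G (x i) - 1) +
        (c (Sum.inr v) * (MonoidAlgebra.of ℤ G (t v) - 1) +
        ∑ w ∈ Finset.univ.erase v, c (Sum.inr w) * (MonoidAlgebra.of ℤ G (t w) - 1)) = 0 := hc
      rw [← sub_eq_zero, ← this]
      abel
    rw [e]
    refine Submodule.sub_mem _ (Submodule.neg_mem _ (Submodule.sum_mem _ fun i _ => ?_))
      (Submodule.sum_mem _ fun w hw => ?_)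
    · exact IL_gen (x := x i) (Or.inl ⟨i, rfl⟩) _
    · exact IL_gen (x := t w) (Or.inr ⟨w, (Finset.mem_erase.1 hw).1, rfl⟩) _
  choose r hr1 hr2 using fun v => hA v _ (hc1 v)
  have h3 : c = ex (fun i => (c - ∑ v, r v) (Sum.inl i)) + ∑ v, r v := by
    funext k
    cases k with
    | inl i =>
      change c (Sum.inl i) = (c - ∑ v, r v) (Sum.inl i) + (∑ v, r v) (Sum.inl i)
      rw [Pi.sub_apply, sub_add_cancel]
    | inr w =>
      change c (Sum.inr w) = 0 + (∑ v, r v) (Sum.inr w)
      rw [zero_add, Finset.sum_apply, Finset.sum_eq_single w]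
      · rw [hr2, Pi.single_eq_same]
      · intro v _ hv
        rw [hr2, Pi.single_eq_of_ne (fun h => hv h.symm)]
      · intro h; exact absurd (Finset.mem_univ _) h
  have h4 : ex (fun i => (c - ∑ v, r v) (Sum.inl i)) ∈ RM (Sum.elim x t) := by
    have : ex (fun i => (c - ∑ v, r v) (Sum.inl i)) = c - ∑ v, r v := eq_sub_of_add_eq h3.symm
    rw [this]
    exact Submodule.sub_mem _ hc (Submodule.sum_mem _ fun v _ => hC (hr1 v))
  rw [h3]
  refine Submodule.add_mem _ (hB _ ?_) (Submodule.sum_mem _ fun v _ => hr1 v)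
  rw [mem_RM, Fintype.sum_sum_type] at h4
  rw [mem_RM]
  have h5 : ∑ v, ex (fun i => (c - ∑ v, r v) (Sum.inl i)) (Sum.inr v) *
      (MonoidAlgebra.of ℤ G (Sum.elim x t (Sum.inr v)) - 1) = 0 :=
    Finset.sum_eq_zero fun v _ => zero_mul _
  rw [h5, add_zero] at h4
  exact h4

end ext

section free
variable {W : Type}

theorem star_free (v : W) : StarP ℤ (FreeGroup.of '' {w : W | w ≠ v}) (FreeGroup.of v) ∅ := by
  let ad : W → W → Prop := fun _ _ => False
  let F : RAAG ad →* FreeGroup W := PresentedGroup.toGroup (f := fun w => FreeGroup.of w) (by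
    rintro r ⟨a, b, hab, rfl⟩
    exact hab.elim)
  have hF : ∀ w, F (gen ad w) = FreeGroup.of w := fun w => PresentedGroup.toGroup.of _
  have hFi : Function.Injective F := by
    have h1 : (PresentedGroup.mk (rels ad)).comp F = MonoidHom.id _ := by
      apply PresentedGroup.ext
      intro w
      change (PresentedGroup.mk (rels ad)) (F (gen ad w)) = gen ad w
      rw [hF]
      rfl
    intro a b hab
    have h2 := DFunLike.congr_fun h1 a
    have h3 := DFunLike.congr_fun h1 b
    change (PresentedGroup.mk (rels ad)) (F a) = a at h2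
    change (PresentedGroup.mk (rels ad)) (F b) = b at h3
    rw [← h2, ← h3, hab]
  have hst := Pool.Agent.W571.DU.BC.th ℤ (RAAG ad) (FreeGroup W) F hFi _ _ _
    (Pool.Agent.W304.DU.RG.th ℤ W ad (fun a b h => h.elim) (fun a h => h.elim) v)
  have e1 : F '' (gen ad '' {w | w ≠ v}) = FreeGroup.of '' {w : W | w ≠ v} := by
    rw [Set.image_image]
    exact Set.image_congr fun w _ => hF w
  have e2 : F '' (gen ad '' {w | ad w v}) = ∅ := by
    have : {w | ad w v} = (∅ : Set W) := by
      ext w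
      exact Iff.rfl
    rw [this, Set.image_empty, Set.image_empty]
  rw [e1, e2, hF] at hst
  exact hst

theorem IL_empty {G : Type} [Group G] {y : ZG G} (hy : y ∈ IL ℤ (∅ : Set G)) : y = 0 := by
  unfold IL at hy
  rw [Set.image_empty, Submodule.span_empty] at hy
  exact hy

theorem RM_free [Fintype W] : (RM (fun w : W => FreeGroup.of w)).FG := by
  classical
  have : RM (fun w : W => FreeGroup.of w) = ⊥ := by
    rw [eq_bot_iff]
    intro c hc
    rw [mem_RM] at hc
    change c = 0
    funext v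
    apply IL_empty
    apply star_free v
    rw [← Finset.add_sum_erase _ _ (Finset.mem_univ v), add_eq_zero_iff_eq_neg] at hc
    rw [hc]
    refine Submodule.neg_mem _ (Submodule.sum_mem _ fun w hw => ?_)
    exact IL_gen (X := FreeGroup.of '' {w : W | w ≠ v}) (x := FreeGroup.of w)
      ⟨w, (Finset.mem_erase.1 hw).1, rfl⟩ _
  rw [this]
  exact Submodule.fg_bot

theorem closure_of : Subgroup.closure (Set.range (fun w : W => FreeGroup.of w)) = ⊤ :=
  FreeGroup.closure_range_of W

theorem fpc_free [Fintype W] : FPc 2 (FreeGroup W) := m2 _ closure_of RM_free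

end free

end Pool.Agent.T2H50.HC
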