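import Pool.Agent.Y66.HC.Defs
import Pool.Agent.W304.DU.EX

/-!
# Pushing chains into a slab

MP_3ca9d5_al (S01246)
-/

set_option autoImplicit false

namespace Pool.Agent.T2H50.HC

open Pool.Agent.W326.DU Pool.Agent.Y66.HC

/-- graded additive group with commuting shifts -/
structure Gra {V M : Type} [AddCommGroup M] (ad : V → V → Prop) (P : ℤ → M →+ M) (r : V → M ≃+ M) :
    Prop where
  comm : ∀ a b, ad a b → ∀ x, r a (r b x) = r b (r a x)
  shift : ∀ n v x, P (n + 1) (r v x) = r v (P n x)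
  idem : ∀ n x, P n (P n x) = P n x
  orth : ∀ n m, n ≠ m → ∀ x, P n (P m x) = 0
  ext : ∀ x, (∀ n, P n x = 0) → x = 0
  fin : ∀ x, ∃ N : ℕ, ∀ n : ℤ, N < |n| → P n x = 0

/-- the elements whose components lie between `lo` and `hi` -/
def Sl {M : Type} [AddCommGroup M] (P : ℤ → M →+ M) (lo hi : ℤ) : AddSubgroup M where
  carrier := {x | ∀ n, n < lo ∨ hi < n → P n x = 0}
  add_mem' := by
    intro a b ha hb n hn
    rw [map_add, ha n hn, hb n hn, add_zero]
  zero_mem' := fun n _ => map_zero _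
  neg_mem' := by
    intro a ha n hn
    rw [map_neg, ha n hn, neg_zero]

section
variable {V M : Type} [AddCommGroup M] {ad : V → V → Prop} {P : ℤ → M →+ M}
  {r : V → M ≃+ M}

/-- the operators -/
def Ro (r : V → M ≃+ M) (v : V) : M →+ M := (r v).toAddMonoidHom - AddMonoidHom.id M

theorem Ro_apply (v : V) (x : M) : Ro r v x = r v x - x := rfl

theorem shift_symm (h : Gra ad P r) (n : ℤ) (v : V) (x : M) :
    P n ((r v).symm x) = (r v).symm (P (n + 1) x) := by
  apply (r v).injective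
  rw [AddEquiv.apply_symm_apply, ← h.shift, AddEquiv.apply_symm_apply]

theorem shift' (h : Gra ad P r) (n : ℤ) (v : V) (x : M) :
    P n (r v x) = r v (P (n - 1) x) := by
  rw [← h.shift, sub_add_cancel]

theorem comm_symm (h : Gra ad P r) {a b : V} (hab : ad a b) (x : M) :
    (r a).symm ((r b).symm x) = (r b).symm ((r a).symm x) := by
  apply (r a).injective
  apply (r b).injective
  rw [AddEquiv.apply_symm_apply, AddEquiv.apply_symm_apply, ← h.comm a b hab,
    AddEquiv.apply_symm_apply, AddEquiv.apply_symm_apply]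

/-- a common bound for finitely many elements -/
theorem bound (h : Gra ad P r) {κ : Type} [Finite κ] (x : κ → M) :
    ∃ N : ℕ, ∀ k, ∀ n : ℤ, N < |n| → P n (x k) = 0 := by
  have := Fintype.ofFinite κ
  choose N hN using fun k => h.fin (x k)
  refine ⟨Finset.univ.sup N, fun k n hn => hN k n (lt_of_le_of_lt ?_ hn)⟩
  exact_mod_cast Finset.le_sup (Finset.mem_univ k)

theorem reduce {Q : ℤ → ℤ → Prop} (lo hi : ℤ)
    (htop : ∀ a b, a ≤ lo → hi < b → Q a b → Q a (b - 1))
    (hbot : ∀ a, a < lo → Q a hi → Q (a + 1) hi) (k l : ℕ) (h0 : Q (lo - k) (hi + l)) :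
    Q lo hi := by
  have h1 : Q (lo - k) hi := by
    induction l with
    | zero => simpa using h0
    | succ l ih =>
      apply ih
      have := htop (lo - k) (hi + ((l + 1 : ℕ) : ℤ)) (by omega) (by push_cast; omega) h0
      have e : hi + ((l + 1 : ℕ) : ℤ) - 1 = hi + l := by push_cast; ring
      rwa [e] at this
  clear h0
  induction k with
  | zero => simpa using h1
  | succ k ih =>
    apply ih
    have := hbot (lo - ((k + 1 : ℕ) : ℤ)) (by push_cast; omega) h1
    have e : lo - ((k + 1 : ℕ) : ℤ) + 1 = lo - k := by push_cast; ring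
    rwa [e] at this

end

section
variable {V M : Type} [Fintype V] [AddCommGroup M] {ad : V → V → Prop} {P : ℤ → M →+ M}
  {r : V → M ≃+ M}

theorem top0 (h : Gra ad P r) (hac : Acyc ad) (lo hi : ℤ) (hlh : lo < hi) (y : V → M)
    (hy : ∀ v, y v ∈ Sl P lo hi) (h0 : P (hi + 1) (∑ v, Ro r v (y v)) = 0) :
    ∃ w, IsAlt2 ad Set.univ w ∧ ∀ b, y b - ∑ a, Ro r a (w a b) ∈ Sl P lo (hi - 1) := by
  have hX : ∑ v, r v (P hi (y v)) = 0 := by
    rw [map_sum] at h0
    rw [← h0]
    refine Finset.sum_congr rfl fun v _ => ?_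
    rw [Ro_apply, map_sub, h.shift, hy v (hi + 1) (Or.inr (lt_add_one _)), sub_zero]
  obtain ⟨Y, hY, hYs⟩ := hac.ac1 M _ hX
  refine ⟨fun a b => (r a).symm ((r b).symm (P (hi + 1) (Y a b))), ⟨?_, ?_⟩, ?_⟩
  · intro a b
    by_cases hab : ad a b
    · dsimp only
      rw [comm_symm h hab, hY.1 a b, map_neg, map_neg, map_neg]
    · have n1 : Y a b = 0 := hY.2 a b (fun h => hab h.2.2)
      have n2 : Y b a = 0 := by rw [hY.1 b a, n1, neg_zero]
      simp [n1, n2]
  · intro a b hab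
    simp [hY.2 a b hab]
  · intro b
    have e1 : ∑ a, Ro r a ((r a).symm ((r b).symm (P (hi + 1) (Y a b)))) =
        P hi (y b) - ∑ a, (r a).symm ((r b).symm (P (hi + 1) (Y a b))) := by
      simp only [Ro_apply, AddEquiv.apply_symm_apply, Finset.sum_sub_distrib]
      congr 1
      rw [← map_sum, ← map_sum, ← hYs b, h.shift, h.idem, AddEquiv.symm_apply_apply]
    rw [e1]
    intro n hn
    have e2 : ∀ a, P n ((r a).symm ((r b).symm (P (hi + 1) (Y a b)))) = 0 := by
      intro a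
      rw [shift_symm h, shift_symm h, h.orth _ _ (by omega), map_zero, map_zero]
    rw [map_sub, map_sub, map_sum]
    simp only [e2, Finset.sum_const_zero, sub_zero]
    by_cases hnh : n = hi
    · rw [hnh, h.idem, sub_self]
    · rw [h.orth n hi hnh, sub_zero]
      exact hy b n (by omega)

theorem bot0 (h : Gra ad P r) (hac : Acyc ad) (lo hi : ℤ) (hlh : lo < hi) (y : V → M)
    (hy : ∀ v, y v ∈ Sl P lo hi) (h0 : P lo (∑ v, Ro r v (y v)) = 0) :
    ∃ w, IsAlt2 ad Set.univ w ∧ ∀ b, y b - ∑ a, Ro r a (w a b) ∈ Sl P (lo + 1) hi := by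
  have hX : ∑ v, P lo (y v) = 0 := by
    rw [map_sum] at h0
    have : ∑ v, P lo (y v) = - ∑ v, P lo (Ro r v (y v)) := by
      rw [← Finset.sum_neg_distrib]
      refine Finset.sum_congr rfl fun v _ => ?_
      rw [Ro_apply, map_sub, shift' h, hy v (lo - 1) (Or.inl (by omega)), map_zero, zero_sub,
        neg_neg]
    rw [this, h0, neg_zero]
  obtain ⟨Y, hY, hYs⟩ := hac.ac1 M _ hX
  refine ⟨fun a b => - P lo (Y a b), ⟨?_, ?_⟩, ?_⟩
  · intro a b
    dsimp only
    rw [hY.1 a b, map_neg]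
  · intro a b hab
    simp [hY.2 a b hab]
  · intro b
    have e1 : ∑ a, Ro r a (- P lo (Y a b)) = P lo (y b) - ∑ a, r a (P lo (Y a b)) := by
      simp only [map_neg, Ro_apply, Finset.sum_neg_distrib, Finset.sum_sub_distrib]
      rw [← map_sum (P lo), ← hYs b, h.idem]
      abel
    rw [e1]
    intro n hn
    have e2 : ∀ a, P n (r a (P lo (Y a b))) = 0 := by
      intro a
      rw [shift' h, h.orth _ _ (by omega), map_zero]
    rw [map_sub, map_sub, map_sum]
    simp only [e2, Finset.sum_const_zero, sub_zero]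
    by_cases hnh : n = lo
    · rw [hnh, h.idem, sub_self]
    · rw [h.orth n lo hnh, sub_zero]
      exact hy b n (by omega)

omit [Fintype V] in
theorem alt2_comm (h : Gra ad P r) {y : V → V → M} (hy : IsAlt2 ad Set.univ y) (a b : V) :
    r a (r b (y a b)) = r b (r a (y a b)) := by
  by_cases hab : ad a b
  · exact h.comm a b hab _
  · rw [hy.2 a b (fun h => hab h.2.2)]
    simp

theorem top1 (h : Gra ad P r) (hac : Acyc ad) (lo hi : ℤ) (hlh : lo < hi) (y : V → V → M)
    (hya : IsAlt2 ad Set.univ y) (hy : ∀ a b, y a b ∈ Sl P lo hi)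
    (h0 : ∀ b, P (hi + 1) (∑ a, Ro r a (y a b)) = 0) :
    ∃ w, IsAlt3 ad Set.univ w ∧ ∀ b c, y b c - ∑ a, Ro r a (w a b c) ∈ Sl P lo (hi - 1) := by
  have hpa : IsAlt2 ad Set.univ (fun a b => P hi (y a b)) := by
    refine ⟨fun a b => ?_, fun a b hab => ?_⟩
    · dsimp only; rw [hya.1 a b, map_neg]
    · dsimp only; rw [hya.2 a b hab, map_zero]
  have hXa : IsAlt2 ad Set.univ (fun a b => r a (r b (P hi (y a b)))) := by
    refine ⟨fun a b => ?_, fun a b hab => ?_⟩
    · dsimp only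
      rw [alt2_comm h hpa a b, hya.1 a b, map_neg, map_neg, map_neg]
    · dsimp only; rw [hya.2 a b hab, map_zero, map_zero, map_zero]
  have hX : ∀ b, ∑ a, r a (r b (P hi (y a b))) = 0 := by
    intro b
    have : ∑ a, r a (r b (P hi (y a b))) = r b (P (hi + 1) (∑ a, Ro r a (y a b))) := by
      rw [map_sum, map_sum]
      refine Finset.sum_congr rfl fun a _ => ?_
      rw [Ro_apply, map_sub, h.shift, hy a b (hi + 1) (Or.inr (lt_add_one _)), sub_zero]
      exact alt2_comm h hpa a b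
    rw [this, h0, map_zero]
  obtain ⟨Y, hY, hYs⟩ := hac.ac2 M _ hXa hX
  refine ⟨fun a b c => (r a).symm ((r b).symm ((r c).symm (P (hi + 2) (Y a b c)))),
    ⟨?_, ?_, ?_⟩, ?_⟩
  · intro a b c
    by_cases hab : ad a b
    · dsimp only
      rw [comm_symm h hab, hY.1 a b c, map_neg, map_neg, map_neg, map_neg]
    · have n1 : Y a b c = 0 := hY.2.2 a b c (fun h => hab h.2.2.2.1)
      have n2 : Y b a c = 0 := by rw [hY.1 b a c, n1, neg_zero]
      simp [n1, n2]
  · intro a b c
    by_cases hbc : ad b c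
    · dsimp only
      rw [comm_symm h hbc, hY.2.1 a b c, map_neg, map_neg, map_neg, map_neg]
    · have n1 : Y a b c = 0 := hY.2.2 a b c (fun h => hbc h.2.2.2.2.1)
      have n2 : Y a c b = 0 := by rw [hY.2.1 a c b, n1, neg_zero]
      simp [n1, n2]
  · intro a b c habc
    simp [hY.2.2 a b c habc]
  · intro b c
    have e1 : ∑ a, Ro r a ((r a).symm ((r b).symm ((r c).symm (P (hi + 2) (Y a b c))))) =
        P hi (y b c) - ∑ a, (r a).symm ((r b).symm ((r c).symm (P (hi + 2) (Y a b c)))) := by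
      simp only [Ro_apply, AddEquiv.apply_symm_apply, Finset.sum_sub_distrib]
      congr 1
      have e3 : hi + 2 = hi + 1 + 1 := by ring
      rw [← map_sum, ← map_sum, ← map_sum, ← hYs b c, e3, h.shift, h.shift, h.idem]
      rw [alt2_comm h hpa b c, AddEquiv.symm_apply_apply, AddEquiv.symm_apply_apply]
    rw [e1]
    intro n hn
    have e2 : ∀ a, P n ((r a).symm ((r b).symm ((r c).symm (P (hi + 2) (Y a b c))))) = 0 := by
      intro a
      rw [shift_symm h, shift_symm h, shift_symm h, h.orth _ _ (by omega), map_zero, map_zero,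
        map_zero]
    rw [map_sub, map_sub, map_sum]
    simp only [e2, Finset.sum_const_zero, sub_zero]
    by_cases hnh : n = hi
    · rw [hnh, h.idem, sub_self]
    · rw [h.orth n hi hnh, sub_zero]
      exact hy b c n (by omega)

theorem bot1 (h : Gra ad P r) (hac : Acyc ad) (lo hi : ℤ) (hlh : lo < hi) (y : V → V → M)
    (hya : IsAlt2 ad Set.univ y) (hy : ∀ a b, y a b ∈ Sl P lo hi)
    (h0 : ∀ b, P lo (∑ a, Ro r a (y a b)) = 0) :
    ∃ w, IsAlt3 ad Set.univ w ∧ ∀ b c, y b c - ∑ a, Ro r a (w a b c) ∈ Sl P (lo + 1) hi := by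
  have hpa : IsAlt2 ad Set.univ (fun a b => P lo (y a b)) := by
    refine ⟨fun a b => ?_, fun a b hab => ?_⟩
    · dsimp only; rw [hya.1 a b, map_neg]
    · dsimp only; rw [hya.2 a b hab, map_zero]
  have hX : ∀ b, ∑ a, P lo (y a b) = 0 := by
    intro b
    have h0 := h0 b
    rw [map_sum] at h0
    have : ∑ v, P lo (y v b) = - ∑ v, P lo (Ro r v (y v b)) := by
      rw [← Finset.sum_neg_distrib]
      refine Finset.sum_congr rfl fun v _ => ?_
      rw [Ro_apply, map_sub, shift' h, hy v b (lo - 1) (Or.inl (by omega)), map_zero, zero_sub,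
        neg_neg]
    rw [this, h0, neg_zero]
  obtain ⟨Y, hY, hYs⟩ := hac.ac2 M _ hpa hX
  refine ⟨fun a b c => - P lo (Y a b c), ⟨?_, ?_, ?_⟩, ?_⟩
  · intro a b c
    dsimp only
    rw [hY.1 a b c, map_neg]
  · intro a b c
    dsimp only
    rw [hY.2.1 a b c, map_neg]
  · intro a b c habc
    simp [hY.2.2 a b c habc]
  · intro b c
    have e1 : ∑ a, Ro r a (- P lo (Y a b c)) = P lo (y b c) - ∑ a, r a (P lo (Y a b c)) := by
      simp only [map_neg, Ro_apply, Finset.sum_neg_distrib, Finset.sum_sub_distrib]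
      rw [← map_sum (P lo), ← hYs b c, h.idem]
      abel
    rw [e1]
    intro n hn
    have e2 : ∀ a, P n (r a (P lo (Y a b c))) = 0 := by
      intro a
      rw [shift' h, h.orth _ _ (by omega), map_zero]
    rw [map_sub, map_sub, map_sum]
    simp only [e2, Finset.sum_const_zero, sub_zero]
    by_cases hnh : n = lo
    · rw [hnh, h.idem, sub_self]
    · rw [h.orth n lo hnh, sub_zero]
      exact hy b c n (by omega)

theorem top2 (h : Gra ad P r) (hac : Acyc ad) (lo hi : ℤ) (z : V → V → V → M)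
    (hza : IsAlt3 ad Set.univ z) (hz : ∀ a b c, z a b c ∈ Sl P lo hi)
    (h0 : ∀ b c, P (hi + 1) (∑ a, Ro r a (z a b c)) = 0) :
    ∀ a b c, z a b c ∈ Sl P lo (hi - 1) := by
  have hpa : IsAlt3 ad Set.univ (fun a b c => P hi (z a b c)) := by
    refine ⟨fun a b c => ?_, fun a b c => ?_, fun a b c habc => ?_⟩
    · dsimp only; rw [hza.1 a b c, map_neg]
    · dsimp only; rw [hza.2.1 a b c, map_neg]
    · dsimp only; rw [hza.2.2 a b c habc, map_zero]
  have c1 : ∀ a b c u, u = P hi (z a b c) → r a (r b u) = r b (r a u) := by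
    rintro a b c u rfl
    by_cases hab : ad a b
    · exact h.comm a b hab _
    · rw [hza.2.2 a b c (fun h => hab h.2.2.2.1)]; simp
  have c2 : ∀ a b c u, u = P hi (z a b c) → r b (r c u) = r c (r b u) := by
    rintro a b c u rfl
    by_cases hab : ad b c
    · exact h.comm b c hab _
    · rw [hza.2.2 a b c (fun h => hab h.2.2.2.2.1)]; simp
  have c3 : ∀ a b c u, u = P hi (z a b c) → r a (r c u) = r c (r a u) := by
    rintro a b c u rfl
    by_cases hab : ad a c
    · exact h.comm a c hab _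
    · rw [hza.2.2 a b c (fun h => hab h.2.2.2.2.2)]; simp
  have c4 : ∀ a b c u, u = P hi (z a b c) → r a (r b (r c u)) = r b (r a (r c u)) := by
    rintro a b c u rfl
    by_cases hab : ad a b
    · exact h.comm a b hab _
    · rw [hza.2.2 a b c (fun h => hab h.2.2.2.1)]; simp
  have hXa : IsAlt3 ad Set.univ (fun a b c => r a (r b (r c (P hi (z a b c))))) := by
    refine ⟨fun a b c => ?_, fun a b c => ?_, fun a b c habc => ?_⟩
    · dsimp only
      rw [c4 a b c _ rfl, hza.1 a b c]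
      simp only [map_neg]
    · dsimp only
      rw [c2 a b c _ rfl, hza.2.1 a b c]
      simp only [map_neg]
    · dsimp only; rw [hza.2.2 a b c habc]; simp
  have hX : ∀ b c, ∑ a, r a (r b (r c (P hi (z a b c)))) = 0 := by
    intro b c
    have : ∑ a, r a (r b (r c (P hi (z a b c)))) =
        r b (r c (P (hi + 1) (∑ a, Ro r a (z a b c)))) := by
      rw [map_sum, map_sum, map_sum]
      refine Finset.sum_congr rfl fun a _ => ?_
      rw [Ro_apply, map_sub, h.shift, hz a b c (hi + 1) (Or.inr (lt_add_one _)), sub_zero,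
        c4 a b c _ rfl, c3 a b c _ rfl]
    rw [this, h0, map_zero, map_zero]
  have hY := hac.ac3 M _ hXa hX
  intro a b c n hn
  by_cases hnh : n = hi
  · have h1 := hY a b c
    rw [hnh]
    have h2 := (r a).map_eq_zero_iff.1 h1
    have h3 := (r b).map_eq_zero_iff.1 h2
    exact (r c).map_eq_zero_iff.1 h3
  · exact hz a b c n (by omega)

theorem bot2 (h : Gra ad P r) (hac : Acyc ad) (lo hi : ℤ) (z : V → V → V → M)
    (hza : IsAlt3 ad Set.univ z) (hz : ∀ a b c, z a b c ∈ Sl P lo hi)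
    (h0 : ∀ b c, P lo (∑ a, Ro r a (z a b c)) = 0) :
    ∀ a b c, z a b c ∈ Sl P (lo + 1) hi := by
  have hpa : IsAlt3 ad Set.univ (fun a b c => P lo (z a b c)) := by
    refine ⟨fun a b c => ?_, fun a b c => ?_, fun a b c habc => ?_⟩
    · dsimp only; rw [hza.1 a b c, map_neg]
    · dsimp only; rw [hza.2.1 a b c, map_neg]
    · dsimp only; rw [hza.2.2 a b c habc, map_zero]
  have hX : ∀ b c, ∑ a, P lo (z a b c) = 0 := by
    intro b c
    have h0 := h0 b c
    rw [map_sum] at h0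
    have : ∑ v, P lo (z v b c) = - ∑ v, P lo (Ro r v (z v b c)) := by
      rw [← Finset.sum_neg_distrib]
      refine Finset.sum_congr rfl fun v _ => ?_
      rw [Ro_apply, map_sub, shift' h, hz v b c (lo - 1) (Or.inl (by omega)), map_zero, zero_sub,
        neg_neg]
    rw [this, h0, neg_zero]
  have hY := hac.ac3 M _ hpa hX
  intro a b c n hn
  by_cases hnh : n = lo
  · rw [hnh]; exact hY a b c
  · exact hz a b c n (by omega)

/-- `d d = 0` -/
theorem ddR (h : Gra ad P r) (hirr : ∀ a, ¬ ad a a) (y : V → V → M)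
    (h1 : ∀ a b, y a b = - y b a) (h2 : ∀ a b, ¬ ad a b → y a b = 0) :
    ∑ b, Ro r b (∑ a, Ro r a (y a b)) = 0 := by
  classical
  have hc : ∀ a b, ad a b → ∀ x, Ro r a (Ro r b x) = Ro r b (Ro r a x) := by
    intro a b hab x
    simp only [Ro_apply, map_sub]
    rw [h.comm a b hab]
    abel
  simp only [map_sum]
  rw [← Finset.sum_product' (s := Finset.univ) (t := Finset.univ)
    (f := fun b a => Ro r b (Ro r a (y a b)))]
  refine Finset.sum_involution (fun p _ => (p.2, p.1)) ?_ ?_ ?_ ?_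
  · rintro ⟨b, a⟩ _
    dsimp only
    by_cases h : ad a b
    · rw [h1 b a, map_neg, map_neg, hc a b h, add_neg_cancel]
    · rw [h1 b a, h2 a b h]; simp
  · rintro ⟨b, a⟩ _ hne heq
    apply hne
    have : a = b := congrArg Prod.fst heq
    subst this
    dsimp only
    rw [h2 a a (hirr a)]; simp
  · intro p _; exact Finset.mem_univ _
  · rintro ⟨a, b⟩ _; rfl

theorem dd1 (h : Gra ad P r) (hirr : ∀ a, ¬ ad a a) {w : V → V → M}
    (hw : IsAlt2 ad Set.univ w) : ∑ b, Ro r b (∑ a, Ro r a (w a b)) = 0 :=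
  ddR h hirr w hw.1 (fun a b hab => hw.2 a b (fun h => hab h.2.2))

theorem dd2 (h : Gra ad P r) (hirr : ∀ a, ¬ ad a a) {w : V → V → V → M}
    (hw : IsAlt3 ad Set.univ w) (c : V) : ∑ b, Ro r b (∑ a, Ro r a (w a b c)) = 0 :=
  ddR h hirr (fun a b => w a b c) (fun a b => hw.1 a b c)
    (fun a b hab => hw.2.2 a b c (fun h => hab h.2.2.2.1))

omit [Fintype V] in
theorem alt2_sub {y w : V → V → M} (hy : IsAlt2 ad Set.univ y) (hw : IsAlt2 ad Set.univ w) :
    IsAlt2 ad Set.univ (fun a b => y a b - w a b) := by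
  refine ⟨fun a b => ?_, fun a b hab => ?_⟩
  · dsimp only
    rw [hy.1 a b, hw.1 a b]; abel
  · dsimp only
    rw [hy.2 a b hab, hw.2 a b hab, sub_zero]

theorem alt3_bd {w : V → V → V → M} (hw : IsAlt3 ad Set.univ w) :
    IsAlt2 ad Set.univ (fun b c => ∑ a, Ro r a (w a b c)) := by
  refine ⟨fun b c => ?_, fun b c hbc => ?_⟩
  · rw [← Finset.sum_neg_distrib]
    refine Finset.sum_congr rfl fun a _ => ?_
    rw [hw.2.1 a b c, map_neg]
  · refine Finset.sum_eq_zero fun a _ => ?_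
    rw [hw.2.2 a b c (fun h => hbc ⟨trivial, trivial, h.2.2.2.2.1⟩), map_zero]

/-- pushing 1-chains -/
theorem slab0 (h : Gra ad P r) (hirr : ∀ a, ¬ ad a a) (hac : Acyc ad) (lo hi : ℤ)
    (hlh : lo ≤ hi) (y : V → M)
    (h0 : ∑ v, Ro r v (y v) ∈ Sl P lo (hi + 1)) :
    ∃ y' : V → M, (∀ v, y' v ∈ Sl P lo hi) ∧ ∑ v, Ro r v (y' v) = ∑ v, Ro r v (y v) := by
  obtain ⟨N, hN⟩ := bound h y
  refine reduce (Q := fun a b => ∃ y' : V → M, (∀ v, y' v ∈ Sl P a b) ∧
    ∑ v, Ro r v (y' v) = ∑ v, Ro r v (y v)) lo hi ?_ ?_ (N + lo.natAbs) (N + hi.natAbs) ?_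
  · rintro a b ha hb ⟨y', hy', e⟩
    obtain ⟨w, hw, hw'⟩ := top0 h hac a b (by omega) y' hy' (by
      rw [e]; exact h0 _ (Or.inr (by omega)))
    refine ⟨_, hw', ?_⟩
    simp only [map_sub, Finset.sum_sub_distrib]
    rw [dd1 h hirr hw, sub_zero, e]
  · rintro a ha ⟨y', hy', e⟩
    obtain ⟨w, hw, hw'⟩ := bot0 h hac a hi (by omega) y' hy' (by
      rw [e]; exact h0 _ (Or.inl (by omega)))
    refine ⟨_, hw', ?_⟩
    simp only [map_sub, Finset.sum_sub_distrib]
    rw [dd1 h hirr hw, sub_zero, e]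
  · refine ⟨y, fun v n hn => hN v n ?_, rfl⟩
    simp only [Nat.cast_add] at hn
    rw [lt_abs]
    omega

/-- pushing 2-chains -/
theorem slab1 (h : Gra ad P r) (hirr : ∀ a, ¬ ad a a) (hac : Acyc ad) (lo hi : ℤ)
    (hlh : lo ≤ hi) (y : V → V → M) (hya : IsAlt2 ad Set.univ y)
    (h0 : ∀ b, ∑ a, Ro r a (y a b) ∈ Sl P lo (hi + 1)) :
    ∃ y' : V → V → M, IsAlt2 ad Set.univ y' ∧ (∀ a b, y' a b ∈ Sl P lo hi) ∧
      ∀ b, ∑ a, Ro r a (y' a b) = ∑ a, Ro r a (y a b) := by
  obtain ⟨N, hN⟩ := bound h (fun p : V × V => y p.1 p.2)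
  refine reduce (Q := fun s t => ∃ y' : V → V → M, IsAlt2 ad Set.univ y' ∧
    (∀ a b, y' a b ∈ Sl P s t) ∧
      ∀ b, ∑ a, Ro r a (y' a b) = ∑ a, Ro r a (y a b)) lo hi ?_ ?_
      (N + lo.natAbs) (N + hi.natAbs) ?_
  · rintro a b ha hb ⟨y', hy'a, hy', e⟩
    obtain ⟨w, hw, hw'⟩ := top1 h hac a b (by omega) y' hy'a hy' (fun c => by
      rw [e]; exact h0 _ _ (Or.inr (by omega)))
    refine ⟨_, alt2_sub hy'a (alt3_bd hw), hw', fun c => ?_⟩
    simp only [map_sub, Finset.sum_sub_distrib]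
    rw [dd2 h hirr hw, sub_zero, e]
  · rintro a ha ⟨y', hy'a, hy', e⟩
    obtain ⟨w, hw, hw'⟩ := bot1 h hac a hi (by omega) y' hy'a hy' (fun c => by
      rw [e]; exact h0 _ _ (Or.inl (by omega)))
    refine ⟨_, alt2_sub hy'a (alt3_bd hw), hw', fun c => ?_⟩
    simp only [map_sub, Finset.sum_sub_distrib]
    rw [dd2 h hirr hw, sub_zero, e]
  · refine ⟨y, hya, fun a b n hn => hN (a, b) n ?_, fun b => rfl⟩
    simp only [Nat.cast_add] at hn
    rw [lt_abs]
    omega

/-- pushing 3-chains -/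
theorem slab2 (h : Gra ad P r) (hac : Acyc ad) (z : V → V → V → M)
    (hza : IsAlt3 ad Set.univ z)
    (h0 : ∀ b c, ∑ a, Ro r a (z a b c) ∈ Sl P 0 0) : ∀ a b c, z a b c = 0 := by
  obtain ⟨N, hN⟩ := bound h (fun p : V × V × V => z p.1 p.2.1 p.2.2)
  have key : ∀ a b c, z a b c ∈ Sl P 0 (-1) := by
    refine reduce (Q := fun s t => ∀ a b c, z a b c ∈ Sl P s t) 0 (-1) ?_ ?_ (N + 1) (N + 1) ?_
    · intro a b ha hb hz
      exact top2 h hac a b z hza hz (fun b' c => h0 b' c _ (Or.inr (by omega)))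
    · intro a ha hz
      exact bot2 h hac a (-1) z hza hz (fun b' c => h0 b' c _ (Or.inl (by omega)))
    · intro a b c n hn
      refine hN (a, b, c) n ?_
      simp only [Nat.cast_add, Nat.cast_one] at hn
      rw [lt_abs]
      omega
  intro a b c
  exact h.ext _ (fun n => key a b c n (by omega))

end

end Pool.Agent.T2H50.HC
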